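import Pool.Agent.Q22.CN.Stm

/-! Automorphisms of the function field of the Fermat curve (`S_AUT`). -/

set_option autoImplicit false

open MvPolynomial

namespace Pool.Agent.Q22.CN

namespace AUT

open Pool.Agent.TH144.CN

/-- Two homomorphisms with the same kernel, the first one generating the field `K`. -/
lemma exists_hom {R K L : Type} [CommRing R] [Field K] [Field L] [Algebra ℂ R] [Algebra ℂ K]
    [Algebra ℂ L] (φ : R →ₐ[ℂ] K) (φ' : R →ₐ[ℂ] L) (hk : ∀ g, φ g = 0 ↔ φ' g = 0)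
    (hrat : ∀ f : K, ∃ g h : R, φ h ≠ 0 ∧ f = φ g / φ h) :
    ∃ σ : K →ₐ[ℂ] L, ∀ g, σ (φ g) = φ' g := by
  have hfrac : IsFractionRing φ.range K := by
    apply IsFractionRing.of_field
    intro z
    obtain ⟨g, h, -, e⟩ := hrat z
    exact ⟨φ.rangeRestrict g, φ.rangeRestrict h, e⟩
  let e := Ideal.quotientKerEquivRange φ
  let l : (R ⧸ RingHom.ker φ) →ₐ[ℂ] L :=
    Ideal.Quotient.liftₐ (RingHom.ker φ) φ' (fun a ha => (hk a).1 ha)
  let g : φ.range →ₐ[ℂ] L := l.comp e.symm.toAlgHom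
  have hg : ∀ r : R, g (φ.rangeRestrict r) = φ' r := by
    intro r
    have h1 : e.symm (φ.rangeRestrict r) = Ideal.Quotient.mk _ r := by
      rw [AlgEquiv.symm_apply_eq]
      rfl
    show l (e.symm (φ.rangeRestrict r)) = φ' r
    rw [h1]
    exact Ideal.Quotient.lift_mk _ _ _
  have hinj : Function.Injective g := by
    rw [injective_iff_map_eq_zero]
    intro a ha
    obtain ⟨r, hr⟩ := φ.rangeRestrict_surjective a
    rw [← hr, hg, ← hk] at ha
    rw [← hr]
    exact Subtype.ext ha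
  refine ⟨IsFractionRing.liftAlgHom (K := K) hinj, fun r => ?_⟩
  rw [IsFractionRing.liftAlgHom_apply]
  have : φ r = algebraMap φ.range K (φ.rangeRestrict r) := rfl
  rw [this]
  erw [IsFractionRing.lift_algebraMap]
  exact hg r

/-- The substitution `X₁ ↦ ζ X₁`. -/
noncomputable def tw (ζ : ℂ) : MvPolynomial (Fin 2) ℂ →ₐ[ℂ] MvPolynomial (Fin 2) ℂ :=
  aeval ![X 0, C ζ * X 1]

lemma aeval_tw {K : Type} [Field K] [Algebra ℂ K] (y s : K) (ζ : ℂ)
    (g : MvPolynomial (Fin 2) ℂ) :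
    aeval ![y, s] (tw ζ g) = aeval ![y, algebraMap ℂ K ζ * s] g := by
  have : (aeval ![y, s] : MvPolynomial (Fin 2) ℂ →ₐ[ℂ] K).comp (tw ζ) =
      aeval ![y, algebraMap ℂ K ζ * s] := by
    apply MvPolynomial.algHom_ext
    intro i
    fin_cases i
    · simp [tw]
    · simp [tw]
  exact congrArg (fun f => f g) this

lemma eval_tw (p q ζ : ℂ) (g : MvPolynomial (Fin 2) ℂ) :
    eval ![p, q] (tw ζ g) = eval ![p, ζ * q] g := by
  have := aeval_tw (K := ℂ) p q ζ g
  rw [MvPolynomial.aeval_eq_eval, MvPolynomial.aeval_eq_eval] at this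
  exact this

lemma ker_iff {K : Type} [Field K] [Algebra ℂ K] {y s : K} (h : FK K y s) (ζ : ℂ)
    (hζ : ζ ^ 16 = 1) (g : MvPolynomial (Fin 2) ℂ) :
    aeval ![y, s] g = 0 ↔ aeval ![y, algebraMap ℂ K ζ * s] g = 0 := by
  have hζ0 : ζ ≠ 0 := by
    rintro rfl
    norm_num at hζ
  rw [← aeval_tw, h.van, h.van]
  constructor
  · intro hg p q hpq
    rw [eval_tw]
    apply hg
    rw [mul_pow, hζ, one_mul]
    exact hpq
  · intro hg p q hpq
    have := hg p (ζ⁻¹ * q) (by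
      rw [mul_pow, inv_pow, hζ, inv_one, one_mul]
      exact hpq)
    rw [eval_tw, mul_inv_cancel_left₀ hζ0] at this
    exact this

end AUT

open AUT in
theorem t_AUT : S_AUT := by
  intro hrat K _ _ y s h ζ hζ
  have hζ0 : ζ ≠ 0 := by
    rintro rfl
    norm_num at hζ
  obtain ⟨σ, hσ⟩ := exists_hom (aeval ![y, s]) (aeval ![y, algebraMap ℂ K ζ * s])
    (fun g => ker_iff h ζ hζ g) (hrat K y s h)
  have hbij : Function.Bijective σ := by
    refine ⟨σ.toRingHom.injective, fun f => ?_⟩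
    obtain ⟨a, b, hb, e⟩ := hrat K y s h f
    refine ⟨aeval ![y, s] (tw ζ⁻¹ a) / aeval ![y, s] (tw ζ⁻¹ b), ?_⟩
    have hc : ∀ r : MvPolynomial (Fin 2) ℂ,
        aeval ![y, algebraMap ℂ K ζ * s] (tw ζ⁻¹ r) = aeval ![y, s] r := by
      intro r
      rw [aeval_tw, ← mul_assoc, ← map_mul, inv_mul_cancel₀ hζ0, map_one, one_mul]
    rw [map_div₀, hσ, hσ, hc, hc, e]
  refine ⟨AlgEquiv.ofBijective σ hbij, ?_, ?_⟩
  · have := hσ (X 0)
    simpa using this
  · have := hσ (X 1)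
    simpa using this

end Pool.Agent.Q22.CN

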