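import Pool.Agent.TH144.CN.Defs

/-!
# Project CN (helper22), MP_225e67_ag: statements

A Kobayashi hyperbolic projective surface `X ⊆ P² × P²` and a curve `Z ⊆ X` with
`T*_Z X · T*_X X = -16`. The definitions are in `Pool/Agent/TH144/CN/Defs.lean`, the surface `Xs γ` and
the proof that it is Kobayashi hyperbolic in `Pool/Agent/TH144/CN/Surf.lean` (starting files): with
`A = af x = x₀²⁴⁰x₂¹⁶ + x₁²⁵⁶ + x₀¹⁶x₁²⁴⁰` and `G = gf x = x₀²⁵⁶ + x₁²⁵⁶ + g0 x₂²⁵⁶`, `X` is given by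
`b₀⁴ + b₁⁴ + b₂⁴ = 0` and `b₀ A + 2 b₁ G = 0`. The curve is `Z = {(1 : 0 : ω)} × {A = 0}`, `ω⁴ = -1`; its
normalisation is the Fermat curve of degree 16 (genus 105, `2g - 2 = 208`) by
`(1 : y : y¹⁵ s)`, `y¹⁶ + s¹⁶ + 1 = 0`, and at the 16 points at infinity the branch has multiplicity 15:
`208 - 16 * 14 = -16`.
-/

set_option autoImplicit false

open MvPolynomial Metric Set Topology Filter
open scoped LinearAlgebra.Projectivization

namespace Pool.Agent.Q22.CN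

open Pool.Agent.TH144.CN

/-- the value of the parameter -/
noncomputable def g0 : ℂ := 1 / 2 ^ 300

/-- the special member of the pencil -/
def af (x : Fin 3 → ℂ) : ℂ := x 0 ^ 240 * x 2 ^ 16 + x 1 ^ 256 + x 0 ^ 16 * x 1 ^ 240

/-- the other generator of the pencil -/
noncomputable def gf (x : Fin 3 → ℂ) : ℂ := x 0 ^ 256 + x 1 ^ 256 + g0 * x 2 ^ 256

/-- the Fermat quartic -/
noncomputable def bE : BiPoly := X (Sum.inl 0) ^ 4 + X (Sum.inl 1) ^ 4 + X (Sum.inl 2) ^ 4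

/-- `A` as a polynomial -/
noncomputable def bA : BiPoly := X (Sum.inr 0) ^ 240 * X (Sum.inr 2) ^ 16 + X (Sum.inr 1) ^ 256 +
  X (Sum.inr 0) ^ 16 * X (Sum.inr 1) ^ 240

/-- `G` as a polynomial -/
noncomputable def bG : BiPoly := X (Sum.inr 0) ^ 256 + X (Sum.inr 1) ^ 256 +
  C g0 * X (Sum.inr 2) ^ 256

/-- the pencil -/
noncomputable def bF : BiPoly := X (Sum.inl 0) * bA + C 2 * X (Sum.inl 1) * bG

lemma l_hom (i : Fin 3) : BiHom (X (Sum.inl i)) 1 0 := by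
  unfold BiHom
  exact isWeightedHomogeneous_X ℂ _ _

lemma r_hom (i : Fin 3) : BiHom (X (Sum.inr i)) 0 1 := by
  unfold BiHom
  exact isWeightedHomogeneous_X ℂ _ _

lemma c_hom (c : ℂ) : BiHom (C c) 0 0 := by
  unfold BiHom
  exact isWeightedHomogeneous_C _ c

lemma h_mul {P Q : BiPoly} {d e d' e' : ℕ} (h : BiHom P d e) (h' : BiHom Q d' e') :
    BiHom (P * Q) (d + d') (e + e') := by
  unfold BiHom at *
  exact IsWeightedHomogeneous.mul h h'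

lemma h_pow {P : BiPoly} {d e : ℕ} (h : BiHom P d e) (n : ℕ) :
    BiHom (P ^ n) (n * d) (n * e) := by
  unfold BiHom at *
  have := IsWeightedHomogeneous.pow h n
  simpa [Prod.smul_mk, smul_eq_mul] using this

lemma h_add {P Q : BiPoly} {d e : ℕ} (h : BiHom P d e) (h' : BiHom Q d e) :
    BiHom (P + Q) d e := by
  unfold BiHom at *
  exact IsWeightedHomogeneous.add h h'

lemma bE_hom : BiHom bE 4 0 := by
  unfold bE
  exact h_add (h_add (h_pow (l_hom 0) 4) (h_pow (l_hom 1) 4)) (h_pow (l_hom 2) 4)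

lemma bA_hom : BiHom bA 0 256 := by
  unfold bA
  exact h_add (h_add (h_mul (h_pow (r_hom 0) 240) (h_pow (r_hom 2) 16)) (h_pow (r_hom 1) 256))
    (h_mul (h_pow (r_hom 0) 16) (h_pow (r_hom 1) 240))

lemma bG_hom : BiHom bG 0 256 := by
  unfold bG
  exact h_add (h_add (h_pow (r_hom 0) 256) (h_pow (r_hom 1) 256))
    (h_mul (c_hom g0) (h_pow (r_hom 2) 256))

lemma bF_hom : BiHom bF 1 256 := by
  unfold bF
  exact h_add (h_mul (l_hom 0) bA_hom) (h_mul (h_mul (c_hom 2) (l_hom 1)) bG_hom)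

/-- the surface -/
noncomputable def XX : ClosedSet where
  eqs := {bE, bF}
  hom := by
    rintro G (rfl | rfl)
    · exact ⟨_, _, bE_hom⟩
    · exact ⟨_, _, bF_hom⟩

/-- gradient of `A` -/
def dA (x : Fin 3 → ℂ) : Fin 3 → ℂ :=
  ![240 * x 0 ^ 239 * x 2 ^ 16 + 16 * x 0 ^ 15 * x 1 ^ 240,
    256 * x 1 ^ 255 + 240 * x 0 ^ 16 * x 1 ^ 239, 16 * x 0 ^ 240 * x 2 ^ 15]

/-- gradient of `G` -/
noncomputable def dG (x : Fin 3 → ℂ) : Fin 3 → ℂ :=
  ![256 * x 0 ^ 255, 256 * x 1 ^ 255, 256 * g0 * x 2 ^ 255]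

/-! ## A. The surface is smooth -/

/-- SM1: the members `A + 2 s G`, `s⁴ = -1`, have no singular points.
Proof. Suppose `dA x + 2 s dG x = 0`. If `x₀ = 0`: component 1 is `256 (1 + 2 s) x₁²⁵⁵ = 0` so `x₁ = 0`
(`|1 + 2s| ≥ 1`), component 2 is `512 s g0 x₂²⁵⁵ = 0`, so `x = 0`. If `x₀ ≠ 0`: put `v = (x₁/x₀)¹⁶`,
`t = (x₂/x₀)¹⁶`. Component 0 divided by `16 x₀²⁵⁵`: `15 t + v¹⁵ + 32 s = 0`. Component 1 gives `v = 0` or
`16 (1 + 2 s) v = -15`, so `|v| ≤ 15/16`, `|v¹⁵| ≤ 1`, so `31 ≤ |15 t| ≤ 33`, `t ≠ 0` and `|t| ≤ 3`. Component 2 gives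
(`x₂ ≠ 0`) `1 = - 32 s g0 t¹⁵`, but `|32 s g0 t¹⁵| ≤ 32 · 3¹⁵ / 2³⁰⁰ < 1`. -/
def S_SM1 : Prop := ∀ (s : ℂ) (x : Fin 3 → ℂ), s ^ 4 = -1 → x ≠ 0 → dA x + (2 * s) • dG x ≠ 0

/-- SM2: transversality at the base points of the pencil.
Proof. `x₀ ≠ 0` (else `A = x₁²⁵⁶ = 0`, then `G = g0 x₂²⁵⁶ = 0`). `v = (x₁/x₀)¹⁶`, `t = (x₂/x₀)¹⁶`:
`A = 0`: `t + v¹⁶ + v¹⁵ = 0`; `G = 0`: `1 + v¹⁶ + g0 t¹⁶ = 0`. `v ≠ 0` (else `t = 0`, `G ≠ 0`), `t ≠ 0` (else `v = -1`,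
`1 + v¹⁶ = 2 ≠ 0`). Component 2: `c0 + 16 c1 g0 t¹⁵ = 0`; component 1 (divide by `16 x₁²³⁹ x₀¹⁶`-type factors):
`c0 (16 v + 15) + 16 c1 v = 0`. If `c1 = 0` then `c0 = 0`. Else `v = g0 t¹⁵ (16 v + 15)`, and with `t = - v¹⁵ (v + 1)`:
(*) `1 = - g0 v²²⁴ (v + 1)¹⁵ (16 v + 15)`. Multiply by `v¹⁶ (v + 1)` and use
`g0 v²⁴⁰ (v + 1)¹⁶ = g0 t¹⁶ = -(1 + v¹⁶)`: `v¹⁶ (v + 1) = (1 + v¹⁶)(16 v + 15)`, i.e. `15 v¹⁷ + 14 v¹⁶ + 16 v + 15 = 0`, so
`|v| ≤ 2`. Then the right side of (*) has absolute value at most `2²²⁴ · 3¹⁵ · 47 / 2³⁰⁰ < 1`. -/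
def S_SM2 : Prop := ∀ (c0 c1 : ℂ) (x : Fin 3 → ℂ), x ≠ 0 → af x = 0 → gf x = 0 →
  c0 • dA x + c1 • dG x = 0 → c0 = 0 ∧ c1 = 0

/-- SMO. Proof. Equations `bE`, `bF`; compute the partial derivatives. Suppose `λ ∇E + μ ∇F = 0` at `(b, x)`:
`4 λ b₀³ + μ A = 0`, `4 λ b₁³ + 2 μ G = 0`, `4 λ b₂³ = 0`, `μ (b₀ dA + 2 b₁ dG) = 0`. If `μ = 0` then `λ = 0` (`b ≠ 0`). If `μ ≠ 0`
and `λ = 0`: `A = G = 0`, `S_SM2` with `c0 = b₀`, `c1 = 2 b₁` gives `b₀ = b₁ = 0`, and `b₂⁴ = 0`. If `μ ≠ 0`, `λ ≠ 0`: `b₂ = 0`,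
`b₀⁴ + b₁⁴ = 0`, `b₀ ≠ 0`, `s = b₁/b₀` has `s⁴ = -1` and `dA + 2 s dG = 0`, against `S_SM1`. -/
def S_SMO : Prop := S_SM1 → S_SM2 → XX.SmoothSurface

/-! ## B. The surface is connected -/

/-- the function whose fourth root is `b₂` -/
noncomputable def Qf (x : Fin 3 → ℂ) : ℂ := -((af x) ^ 4 + 16 * (gf x) ^ 4)

/-- NSQ: no continuous square root of `Q` off its zero set.
Proof. Restrict to the line `x = (0, t, 1)`: `A = t²⁵⁶`, `G = t²⁵⁶ + g0`, `Q = - (w⁴ + 16 (w + g0)⁴)`, `w = t²⁵⁶`. Let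
`ζ⁴ = -1`; `w₀ = 2 ζ g0/(1 - 2 ζ) ≠ 0` is a simple zero of `w⁴ + 16 (w + g0)⁴` (derivative `4 w³ + 64 (w + g0)³` at
`w₀ = 2 ζ (w₀ + g0)`: `4 · 8 ζ³ u³ + 64 u³ = 32 u³ (ζ³ + 2) ≠ 0`, `u = w₀ + g0 ≠ 0`), and `t₀` with `t₀²⁵⁶ = w₀` is a simple zero `t₀` of
`q(t) = Q (0, t, 1)`. So `q t = (t - t₀) R t`, `R` a polynomial, `R t₀ ≠ 0`. On a small disc `R = e^ρ` with `ρ` continuous
(`Complex.log` of `R t / R t₀`). With `k θ = g(0, t₀ + r e^{iθ}, 1) e^{-ρ/2} / √r` one has `k² = e^{iθ}` for `θ ∈ [0, 2π]`, `k` continuous,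
`k 0 = k (2π)`. But `k θ e^{-iθ/2}` is continuous with square `1`, so constant `= ε`, and `k (2π) = - ε`, `k 0 = ε`. -/
def S_NSQ : Prop := ¬ ∃ g : (Fin 3 → ℂ) → ℂ, ContinuousOn g {x | Qf x ≠ 0} ∧
  ∀ x, Qf x ≠ 0 → g x ^ 2 = Qf x

/-- UCO: the set `Q ≠ 0` is connected and dense.
Proof. `Q` is a polynomial; `Q (1,0,0) = -16 ≠ 0`. For `x, y` with `Q ≠ 0` the polynomial `τ ↦ Q (x + τ (y - x))` of one variable
is not zero, so it has finitely many zeros, and the complement of a finite set in `ℂ` is path connected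
(`Set.Countable.isPathConnected_compl_of_one_lt_rank`). Density: the same with `y = (1,0,0)` and `τ → 0`. -/
def S_UCO : Prop := IsConnected {x : Fin 3 → ℂ | Qf x ≠ 0} ∧ Dense {x : Fin 3 → ℂ | Qf x ≠ 0}

/-- WCO: the fourfold cover is connected.
Proof. `U = {Q ≠ 0}`, `W = {(x, β) : β⁴ = Q x ≠ 0}`. Let `C` be a clopen subset of `W` (relatively). Near each `x ∈ U` there are four
continuous functions `β_j` (fourth roots of `Q`), so for each `j` whether `(x, β_j x) ∈ C` is locally constant; the number `k` of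
`β` with `(x, β) ∈ C` is locally constant, so constant on `U`. If `k = 0` or `4`, `C` is empty or `W`. Replacing `C` by the complement,
`k ≤ 2`. If `k = 1` the point `β(x)` is continuous and `g = β²` is a continuous square root of `Q`. If `k = 2` the product
`g(x)` of the two elements is continuous and `g² = Q` or `g² = -Q` (the two are `β`, `i^a β`; `g² = (-1)^a Q`), the sign is
locally constant, so constant; `g` or `i g` is a continuous square root. Both contradict `S_NSQ`. -/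
def S_WCO : Prop := S_NSQ → S_UCO → IsConnected {p : (Fin 3 → ℂ) × ℂ | p.2 ^ 4 = Qf p.1 ∧ Qf p.1 ≠ 0}

/-- DEN: the points over `Q ≠ 0` are dense in the cone of `X`.
Proof. Fact (R): for `β` and `q_n → β⁴` there are `β_n → β` with `β_n⁴ = q_n` (open mapping, or explicit). (i) Among the `b ≠ 0`
with `b₀⁴ + b₁⁴ + b₂⁴ = 0` those with `b₂ ≠ 0` are dense: if `b₂ = 0` then `b₀ ≠ 0`, take `b₀ + δ`, `b₁`, and a small fourth root.
(ii) If `(A, G) ≠ (0, 0)` at `x`: `(b₀, b₁) = λ (-2 G, A)`, `λ ≠ 0` (else `b₂⁴ = 0`), `(b₂/λ)⁴ = Q x`; choose `x_n → x` with `Q x_n ≠ 0` (`S_UCO`),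
`β_n → b₂/λ` with `β_n⁴ = Q x_n`; the points `(λ (-2 G x_n, A x_n, β_n), x_n)` are in the cone and converge to `(b, x)`. (iii) If `A = G = 0` at `x`:
by (i) we may take `b₂ ≠ 0` (closure of the closure). By `S_SM2` `dA x`, `dG x` are linearly independent, so there is `v ∈ ℂ³` with
`∑ dA_i v_i = b₁`, `∑ dG_i v_i = - b₀/2`. For real `τ → 0`, `τ ≠ 0`: `A(x + τ v)/τ → b₁`, `G(x + τ v)/τ → - b₀/2`,
`Q(x + τ v)/τ⁴ → -(b₁⁴ + b₀⁴) = b₂⁴ ≠ 0`; with `β_τ⁴ = Q(x + τ v)/τ⁴`, `β_τ → b₂`, the points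
`((-2 G(x + τ v)/τ, A(x + τ v)/τ, β_τ), x + τ v)` are in the cone, have `Q ≠ 0` and converge to `(b, x)`. -/
def S_DEN : Prop := S_SM2 → S_UCO → ∀ b x : Fin 3 → ℂ, XX.Mem b x →
  (b, x) ∈ closure {p : (Fin 3 → ℂ) × (Fin 3 → ℂ) | XX.Mem p.1 p.2 ∧ Qf p.2 ≠ 0}

/-- CON. Proof. The set of `S_DEN` is the image of the connected set `{λ ≠ 0} × W` under the continuous map
`(λ, (x, β)) ↦ (λ (-2 G x, A x, β), x)` (see (ii) of `S_DEN`), and the cone lies between it and its closure. -/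
def S_CON : Prop := (IsConnected {p : (Fin 3 → ℂ) × ℂ | p.2 ^ 4 = Qf p.1 ∧ Qf p.1 ≠ 0}) →
  (∀ b x : Fin 3 → ℂ, XX.Mem b x →
    (b, x) ∈ closure {p : (Fin 3 → ℂ) × (Fin 3 → ℂ) | XX.Mem p.1 p.2 ∧ Qf p.2 ≠ 0}) →
  XX.Connected

/-! ## C. The function field of the Fermat curve -/

/-- `K` is the function field of the Fermat curve `y¹⁶ + s¹⁶ + 1 = 0` -/
structure FK (K : Type) [Field K] [Algebra ℂ K] (y s : K) : Prop where
  eqn : y ^ 16 + s ^ 16 + 1 = 0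
  gen : IntermediateField.adjoin ℂ ({y, s} : Set K) = ⊤
  van : ∀ g : MvPolynomial (Fin 2) ℂ, aeval ![y, s] g = 0 ↔
    ∀ p q : ℂ, p ^ 16 + q ^ 16 + 1 = 0 → eval ![p, q] g = 0

/-- FLD: existence.
Proof. `f = X₀¹⁶ + X₁¹⁶ + 1` is irreducible in `ℂ[X₀, X₁]` (as a polynomial in `X₁` over `ℂ[X₀]`: Eisenstein at the prime
`X₀ - ε`, `ε¹⁶ = -1`, of `X₀¹⁶ + 1`), so `(f)` is prime; `K` the fraction field of the quotient. `van`: `g(y, s) = 0` iff `f ∣ g`; if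
`g` vanishes on the curve then `g ∈ radical (f) = (f)` by the Nullstellensatz (`MvPolynomial.vanishingIdeal_zeroLocus_eq_radical`), or directly:
divide `g` by `f` with respect to `X₁` (monic), the remainder `∑_{j<16} r_j(X₀) X₁^j` vanishes at `16` values of `X₁` for almost all
`X₀`, so it is `0`. The same gives the other direction. -/
def S_FLD : Prop := ∃ (K : Type) (_ : Field K) (_ : Algebra ℂ K) (y s : K), FK K y s

/-- SYM: symmetries. Proof. `y ≠ 0` (`van` for `X₀`), the equation divided by `y¹⁶`; `gen` is clear; `van`: for `g` of total degree `≤ N`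
`g (1/y, s/y) y^N` is a polynomial `g*` in `y, s`, and the conditions for `g` and `g*` correspond for the points with `p ≠ 0`; a polynomial that vanishes at all
points of the curve with `p ≠ 0` vanishes on the curve (continuity in `(p, q)`, or multiply by `X₀` and use `van` twice: `y g = 0` implies `g = 0`). -/
def S_SYM : Prop := ∀ (K : Type) [Field K] [Algebra ℂ K] (y s : K), FK K y s →
  FK K y⁻¹ (s * y⁻¹) ∧ FK K s y

/-- TRD. Proof. `y` is transcendental (`van`), `s` is algebraic over `ℂ(y)`. -/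
def S_TRD : Prop := ∀ (K : Type) [Field K] [Algebra ℂ K] (y s : K), FK K y s →
  Algebra.trdeg ℂ K = 1

/-- the curve -/
noncomputable def Zs (ω : ℂ) : ClosedSet where
  eqs := {X (Sum.inl 1), X (Sum.inl 2) - C ω * X (Sum.inl 0), bA}
  hom := by
    rintro G (rfl | rfl | rfl)
    · exact ⟨_, _, l_hom 1⟩
    · refine ⟨1, 0, ?_⟩
      have h := h_mul (c_hom ω) (l_hom 0)
      have h2 := (l_hom 2)
      unfold BiHom at *
      exact IsWeightedHomogeneous.sub h2 (by simpa using h)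
    · exact ⟨_, _, bA_hom⟩

/-- FFD: the function field of `Z`, and `Z ⊆ X`.
Proof. `Mem`: `b₁ = 0`, `ω - ω·1 = 0`, `A (1, y, y¹⁵ s) = y²⁴⁰ (s¹⁶ + y¹⁶ + 1) = 0`. `van`, from left to right: for a point
`(p, q)` of `Z` we may scale `p = (1, 0, ω)` (bihomogeneity). If `q₀ ≠ 0` scale `q = (1, q₁, q₂)`, `q₂¹⁶ = - q₁²⁴⁰ (q₁¹⁶ + 1)`; if `q₁ ≠ 0` the point
`(q₁, q₂/q₁¹⁵)` is on the Fermat curve and `G` evaluated there is `0` (`FK.van` for the polynomial `g = G(1, 0, ω; 1, X₀, X₀¹⁵ X₁)`); if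
`q₁ = 0` then `q₂ = 0`, use the point `(0, σ)`, `σ¹⁶ = -1`. If `q₀ = 0` then `q₁ = 0`, `q = (0, 0, q₂)`: the points `(U¹⁶, U¹⁵ V, V¹⁵ S)`,
`V = 1`, `S¹⁶ = -(1 + U¹⁶)`, `U ≠ 0` small, are on `A = 0` with first coordinate `≠ 0`, so `G = 0` there; `U → 0`, `S → σ` with `σ¹⁶ = -1`, and
homogeneity. From right to left: the polynomial `g` vanishes on the Fermat curve since `(1, p, p¹⁵ q)` is a point of `A = 0`. `gen`: `y = x₁/x₀`, and
`s = (x₂/x₀)/y¹⁵`. `Z ⊆ X`: `b₁ = 0`, `b₂ = ω b₀`, `A = 0`. -/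
def S_FFD : Prop := ∀ (K : Type) [Field K] [Algebra ℂ K] (y s : K), FK K y s → ∀ ω : ℂ, ω ^ 4 = -1 →
  (Zs ω).FunctionField K ![1, 0, algebraMap ℂ K ω] ![1, y, y ^ 15 * s] ∧
  ∀ p q : Fin 3 → ℂ, (Zs ω).Mem p q → XX.Mem p q

/-- RAT: elements are quotients of polynomials in `y`, `s`. Proof. `gen`
(`IntermediateField.mem_adjoin_iff_div` or `mem_adjoin_pair`-type lemmas, `Algebra.adjoin` elements are `aeval`s). -/
def S_RAT : Prop := ∀ (K : Type) [Field K] [Algebra ℂ K] (y s : K), FK K y s → ∀ f : K,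
  ∃ g h : MvPolynomial (Fin 2) ℂ, aeval ![y, s] h ≠ 0 ∧ f = aeval ![y, s] g / aeval ![y, s] h

/-- RES: residues.
Proof. Suppose `f ≠ 0`, `ord f ≥ 0` and `ord (f - c) ≤ 0` for all `c`, `f ≠ c`; then `ord (f - c) = 0` for all `c ∈ ℂ` and `f` is
not in `ℂ`, so transcendental (`ℂ` algebraically closed), and `ord` is `0` on the nonzero elements of `ℂ(f)` (factor polynomials into linear
factors). `K` has transcendence degree `1` (`S_TRD`), so every `g ∈ K` is algebraic over `ℂ(f)`: `g^n + a₁ g^(n-1) + ... + a_n = 0`, `a_i ∈ ℂ(f)`,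
`a_n ≠ 0`, which implies `ord g = 0` (if `ord g > 0` then `ord a_n = 0 < ord` of the rest; if `ord g < 0` divide by `g^n`). Against `surj`. -/
def S_RES : Prop := S_TRD → ∀ (K : Type) [Field K] [Algebra ℂ K] (y s : K), FK K y s →
  ∀ (P : Place K) (f : K), 0 ≤ P.ord f → ∃ c : ℂ, f = algebraMap ℂ K c ∨ 0 < P.ord (f - algebraMap ℂ K c)

/-- the place `P` is over the point `(p, q)` -/
def At {K : Type} [Field K] [Algebra ℂ K] (y s : K) (P : Place K) (p q : ℂ) : Prop :=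
  0 < P.ord (y - algebraMap ℂ K p) ∧ 0 < P.ord (s - algebraMap ℂ K q)

/-- CEN: centres.
Proof. `y`, `s` are not constants. If `ord y ≥ 0` then `16 ord s = ord (-(1 + y¹⁶)) ≥ 0` (or use `min`), so `ord s ≥ 0`; residues `p`, `q` by
`S_RES`; the constant `p¹⁶ + q¹⁶ + 1 = (p¹⁶ - y¹⁶) + (q¹⁶ - s¹⁶)` would have positive order if it were not `0`. If `ord y < 0` then `ord (1/y) > 0` and
`ord (s/y) ≥ 0` (from `1 + (s/y)¹⁶ + (1/y)¹⁶ = 0`); the residue `v` of `s/y` has `v¹⁶ + 1 = 0`. -/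
def S_CEN : Prop := S_TRD → S_RES → ∀ (K : Type) [Field K] [Algebra ℂ K] (y s : K), FK K y s →
  ∀ P : Place K, (∃ p q : ℂ, p ^ 16 + q ^ 16 + 1 = 0 ∧ At y s P p q) ∨
    ∃ v : ℂ, v ^ 16 + 1 = 0 ∧ At y⁻¹ (s * y⁻¹) P 0 v

/-- LOC: local structure at a point with `q ≠ 0`.
Proof. `(s - q) S = - (y - p) T` with the polynomials `S = ∑ s^i q^(15-i)`, `T = ∑ y^i p^(15-i)`; the residue of `S` is `16 q¹⁵ ≠ 0`, so `ord S = 0`.
Polynomials in `y, s` have order `≥ 0`, and order `0` iff the value at `(p, q)` is not `0` (the value is the residue). Claim: for each polynomial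
`g` with `g(y, s) ≠ 0` there are `k` and polynomials `e, u` with nonzero values at `(p, q)` and `e g = (y - p)^k u` in `K`: induction on `ord g(y,s)`; if
`g (p, q) ≠ 0` trivial; else `g = (X₀ - p) g₁ + (X₁ - q) g₂` and `S g = (y - p) (S g₁ - T g₂)`, where `S g₁ - T g₂` has smaller order (not `0` in `K`).
So with `S_RAT` every `f ≠ 0` is `(y - p)^k u/w`, with `ord f = k ord (y - p)`; `surj` gives `ord (y - p) = 1`; and another place over `(p, q)` has the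
same orders (the representation does not depend on the place), so it is equal to `P` (`Place` is determined by `ord`). -/
def S_LOC : Prop := S_RAT → ∀ (K : Type) [Field K] [Algebra ℂ K] (y s : K), FK K y s →
  ∀ (P : Place K) (p q : ℂ), q ≠ 0 → p ^ 16 + q ^ 16 + 1 = 0 → At y s P p q →
  P.ord (y - algebraMap ℂ K p) = 1 ∧ (∀ P' : Place K, At y s P' p q → P' = P) ∧
  (∀ g : MvPolynomial (Fin 2) ℂ, eval ![p, q] g ≠ 0 → aeval ![y, s] g ≠ 0 ∧ P.ord (aeval ![y, s] g) = 0) ∧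
  ∀ f : K, f ≠ 0 → ∃ u w : MvPolynomial (Fin 2) ℂ, eval ![p, q] u ≠ 0 ∧ eval ![p, q] w ≠ 0 ∧
    f = (y - algebraMap ℂ K p) ^ (P.ord f) * aeval ![y, s] u / aeval ![y, s] w

/-- EXI: existence of the place over a point with `q ≠ 0`.
Proof. In `LaurentSeries ℂ` (a field; `order` is a discrete valuation) take `Y = p + t` and `Σ` a power series with `Σ¹⁶ = -1 - (p + t)¹⁶`,
constant term `q` (Hensel in `ℂ⟦t⟧`: `X¹⁶ + 1 + (p+t)¹⁶` has the simple root `q` modulo `t`; or coefficient recursion). For a polynomial `g` with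
`g(y, s) ≠ 0`: `g(Y, Σ) ≠ 0`, because `g(y,s)` divides a nonzero polynomial in `y` (the norm `∏_ζ g(y, ζ s)`, a polynomial in `y` as `s¹⁶ = -1 - y¹⁶`; or: `s`
is integral over `ℂ[y]`) and `Y` is transcendental. And `g(y,s) = 0` implies `g(Y, Σ) = 0` (`g` is then a multiple of `X₀¹⁶ + X₁¹⁶ + 1`, see `S_FLD`).
So there is a `ℂ`-homomorphism `K → LaurentSeries ℂ`, `y ↦ Y`, `s ↦ Σ` (`S_RAT`), and `ord f` = the order of the image. -/
def S_EXI : Prop := S_RAT → ∀ (K : Type) [Field K] [Algebra ℂ K] (y s : K), FK K y s →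
  ∀ p q : ℂ, q ≠ 0 → p ^ 16 + q ^ 16 + 1 = 0 → ∃ P : Place K, At y s P p q

/-! ## D. The product formula -/

/-- AUT: automorphisms. Proof. From `S_RAT` and `van`: `g(y, ζ s) = 0` iff `g(y, s) = 0` (the curve is invariant). -/
def S_AUT : Prop := S_RAT → ∀ (K : Type) [Field K] [Algebra ℂ K] (y s : K), FK K y s →
  ∀ ζ : ℂ, ζ ^ 16 = 1 → ∃ σ : K ≃ₐ[ℂ] K, σ y = y ∧ σ s = algebraMap ℂ K ζ * s

/-- NRM: norms.
Proof. `∏_ζ g(X₀, ζ X₁)` over the 16 roots of unity is invariant under `X₁ ↦ ζ X₁`, so it is a polynomial in `X₀` and `X₁¹⁶`;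
replacing `s¹⁶` by `-1 - y¹⁶` one gets a polynomial in `y`, which is a product of linear factors. Not zero as each `σ_ζ` is injective. -/
def S_NRM : Prop := ∀ (K : Type) [Field K] [Algebra ℂ K] (y s : K), FK K y s →
  ∀ g : MvPolynomial (Fin 2) ℂ, aeval ![y, s] g ≠ 0 →
  ∃ (c : ℂ) (m : Multiset ℂ), c ≠ 0 ∧
    ∏ ζ ∈ Polynomial.nthRootsFinset 16 (1 : ℂ), aeval ![y, algebraMap ℂ K ζ * s] g =
      algebraMap ℂ K c * (m.map fun a => y - algebraMap ℂ K a).prod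

/-- the 16 places at infinity, and the 16 places with `s = 0`: counting.
CNT. Proof. `v¹⁶ = -1` has 16 solutions; `S_SYM` (the pairs `(1/y, s/y)` with point `(0, v)`, `v ≠ 0`, and `(s, y)` with point `(0, p)`,
`p ≠ 0`), `S_EXI`, `S_LOC`: for each `v` there is exactly one place, and `v` is determined by the place. -/
def S_CNT : Prop := S_RAT → S_SYM → S_LOC → S_EXI → ∀ (K : Type) [Field K] [Algebra ℂ K] (y s : K), FK K y s →
  {P : Place K | ∃ v : ℂ, v ^ 16 + 1 = 0 ∧ At y⁻¹ (s * y⁻¹) P 0 v}.Finite ∧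
  {P : Place K | ∃ v : ℂ, v ^ 16 + 1 = 0 ∧ At y⁻¹ (s * y⁻¹) P 0 v}.ncard = 16 ∧
  {P : Place K | ∃ p : ℂ, p ^ 16 + 1 = 0 ∧ At y s P p 0}.Finite ∧
  {P : Place K | ∃ p : ℂ, p ^ 16 + 1 = 0 ∧ At y s P p 0}.ncard = 16 ∧
  (∀ (P : Place K) (v : ℂ), v ^ 16 + 1 = 0 → At y⁻¹ (s * y⁻¹) P 0 v → P.ord y = -1 ∧ P.ord s = -1) ∧
  (∀ (P : Place K) (p : ℂ), p ^ 16 + 1 = 0 → At y s P p 0 →
    P.ord s = 1 ∧ P.ord y = 0 ∧ P.ord (y - algebraMap ℂ K p) = 16)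

/-- ORY: the function `y - a` has degree zero.
Proof. By `S_CEN` the places with `ord (y - a) > 0` are over the points `(a, q)`, `q¹⁶ = -1 - a¹⁶`: if `a¹⁶ ≠ -1` 16 places (`S_EXI`, `S_LOC`) with
order 1; if `a¹⁶ = -1` one place (`q = 0`; `S_SYM` for existence and uniqueness), with order 16 (`S_CNT`). The places with
`ord (y - a) < 0` are the 16 places at infinity, with order `-1`. All other places have order `0`. -/
def S_ORY : Prop := S_RAT → S_SYM → S_LOC → S_EXI → S_TRD → S_RES → S_CEN → S_CNT → ∀ (K : Type) [Field K] [Algebra ℂ K] (y s : K), FK K y s →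
  ∀ a : ℂ, {P : Place K | P.ord (y - algebraMap ℂ K a) ≠ 0}.Finite ∧
    ∑ᶠ P : Place K, P.ord (y - algebraMap ℂ K a) = 0

/-- PRO: the product formula.
Proof. By `S_RAT` it is enough to take `f = g(y, s)`, `g` a polynomial (`ord` of a quotient is the difference, finite supports). With `σ_ζ` of `S_AUT`
`g(y, ζ s) = σ_ζ f`, and by `S_NRM` `∏_ζ σ_ζ f = c ∏ (y - a)`. Finite support: at a finite place all `ord_P (σ_ζ f) ≥ 0`, so if `ord_P f ≠ 0` then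
`ord_P (∏) > 0` and some `ord_P (y - a) ≠ 0`: finitely many `P` (`S_ORY`), and 16 places at infinity. `P ↦ P ∘ σ` is a bijection of the places, so
`∑_P ord_P (σ_ζ f) = ∑_P ord_P f` and `16 ∑_P ord_P f = ∑_P ord_P (∏_ζ σ_ζ f) = ∑_a ∑_P ord_P (y - a) = 0`. -/
def S_PRO : Prop := S_RAT → S_TRD → S_RES → S_CEN → S_AUT → S_NRM → S_CNT → S_SYM → S_LOC → S_EXI → S_ORY →
  ∀ (K : Type) [Field K] [Algebra ℂ K] (y s : K), FK K y s →
  ∀ f : K, f ≠ 0 → {P : Place K | P.ord f ≠ 0}.Finite ∧ ∑ᶠ P : Place K, P.ord f = 0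

/-! ## E. Derivations -/

/-- DEX: there is a nonzero derivation.
Proof. `D y = s¹⁵`, `D s = - y¹⁵`: on polynomials `g ↦ (∂g/∂X₀)(y,s) s¹⁵ - (∂g/∂X₁)(y,s) y¹⁵`, which is `0` for the multiples of
`X₀¹⁶ + X₁¹⁶ + 1`, so (by `van`) it depends only on `g(y, s)`; extend to quotients by `(g' h - g h')/h²`. (Or: `K` has transcendence degree 1 in characteristic 0, so
its module of Kähler differentials is not zero.) -/
def S_DEX : Prop := ∀ (K : Type) [Field K] [Algebra ℂ K] (y s : K), FK K y s →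
  ∃ D : Derivation ℂ K K, D ≠ 0

/-- DRE: relations for a derivation. Proof. `D` applied to the equation: `16 y¹⁵ D y + 16 s¹⁵ D s = 0`. If `D y = 0` then `D s = 0` and `D = 0` (`S_RAT`). -/
def S_DRE : Prop := S_RAT → ∀ (K : Type) [Field K] [Algebra ℂ K] (y s : K), FK K y s →
  ∀ D : Derivation ℂ K K, D ≠ 0 → D y ≠ 0 ∧ D s ≠ 0 ∧ s ^ 15 * D s = - (y ^ 15 * D y)

/-- DOR: orders of derivatives at a point with `q ≠ 0`.
Proof. `S_LOC`: `f = (y - p)^k r`, `r = u/w` with values `≠ 0` at `(p, q)`; `D f = k (y - p)^(k-1) D y · r + (y - p)^k D r` and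
`D r = ((u_y D y + u_s D s) w - u (w_y D y + w_s D s))/w²` with `D s = - (y¹⁵/s¹⁵) D y` (`S_DRE`), `ord s = 0`, so `D r = 0` or
`ord (D r) ≥ ord (D y)` (polynomials have order `≥ 0`). If `k ≠ 0` the first term has the order `k - 1 + ord (D y)`, smaller than the second. -/
def S_DOR : Prop := S_RAT → S_LOC → S_DRE → ∀ (K : Type) [Field K] [Algebra ℂ K] (y s : K), FK K y s →
  ∀ (P : Place K) (p q : ℂ), q ≠ 0 → p ^ 16 + q ^ 16 + 1 = 0 → At y s P p q →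
  ∀ D : Derivation ℂ K K, D ≠ 0 →
  (∀ f : K, f ≠ 0 → P.ord f ≠ 0 → D f ≠ 0 ∧ P.ord (D f) = P.ord f - 1 + P.ord (D y)) ∧
  (∀ f : K, f ≠ 0 → P.ord f = 0 → D f = 0 ∨ P.ord (D y) ≤ P.ord (D f))

/-- VOR: the orders of `D` as a vector field.
Proof. At `q ≠ 0` by `S_DOR` `ord (D t) = ord (D y)` for all `t` with `ord t = 1` (exist: `surj`), so the set in `vectorOrder` is `{ord (D y)}`. At
`(p, 0)`: `S_SYM` (pair `(s, y)`, point `(0, p)`) gives `ord (D s) = ord (D y) - 15` (`S_DRE`, `S_CNT`). At infinity: `S_SYM` (pair `(1/y, s/y)`) gives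
`ord (D (1/y)) = ord (- D y / y²) = ord (D y) + 2`. -/
def S_VOR : Prop := S_RAT → S_SYM → S_LOC → S_DRE → S_DOR → S_CNT → S_EXI → ∀ (K : Type) [Field K] [Algebra ℂ K] (y s : K), FK K y s →
  ∀ (D : Derivation ℂ K K), D ≠ 0 → ∀ P : Place K,
  (∀ p q : ℂ, q ≠ 0 → p ^ 16 + q ^ 16 + 1 = 0 → At y s P p q → vectorOrder P D = P.ord (D y)) ∧
  (∀ p : ℂ, p ^ 16 + 1 = 0 → At y s P p 0 → vectorOrder P D = P.ord (D y) - 15) ∧
  (∀ v : ℂ, v ^ 16 + 1 = 0 → At y⁻¹ (s * y⁻¹) P 0 v → vectorOrder P D = P.ord (D y) + 2)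

/-- BRM: the multiplicities of the branches.
Proof. `b = (1, 0, ω)`: the affine coordinates are constants `0`, `1`, `ω`, `1/ω`, and a nonzero constant has order `0`. `x = (1, y, y¹⁵ s)`. At a finite place
the minimal order of the coordinates is `0 = ord 1`; `f - c` has order `≥ 0`...: `1` is attained: if `q ≠ 0` by `y - p`; if `q = 0` by
`y¹⁵ s - 0` (`ord s = 1`, `ord y = 0`). At infinity (`ord y = ord s = -1`) the minimal order is `-16`, of `y¹⁵ s` only, the affine coordinates are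
`1/(y¹⁵ s)`, `y/(y¹⁵ s) = 1/(y¹⁴ s)` and `1`, with the orders `16`, `15`, `0`; `f - c` has positive order only for `c = 0` (resp. `f = 1 = c` gives `0`). -/
def S_BRM : Prop := S_RAT → S_SYM → S_LOC → S_EXI → S_CNT → ∀ (K : Type) [Field K] [Algebra ℂ K] (y s : K), FK K y s → ∀ ω : ℂ, ω ^ 4 = -1 →
  ∀ P : Place K,
  (∀ p q : ℂ, p ^ 16 + q ^ 16 + 1 = 0 → At y s P p q →
    branchMult P ![1, 0, algebraMap ℂ K ω] ![1, y, y ^ 15 * s] = 1) ∧
  (∀ v : ℂ, v ^ 16 + 1 = 0 → At y⁻¹ (s * y⁻¹) P 0 v →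
    branchMult P ![1, 0, algebraMap ℂ K ω] ![1, y, y ^ 15 * s] = 15)

/-- TAN: the orders of `D` in the tangent line bundle of the curve.
Proof. The affine coordinates as in `S_BRM`. A finite place with `q ≠ 0`: `D y` has order `d = ord (D y)`, and all derivatives of elements of order `≥ 0` have order
`≥ d` (`S_DOR`). `q = 0`: `f = y¹⁵ s` has `ord f = 1`, `ord (D f) = ord (D s)` by `S_DOR` for the pair `(s, y)` (`S_SYM`), and all derivatives of the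
coordinates have at least this order; so it is `vectorOrder`. At infinity: pair `(1/y, s/y)`, `d = ord (D (1/y)) = vectorOrder P D`; the coordinates `f` of
orders `15`, `16` have `ord (D f) = 14 + d`, `15 + d`; `D 1 = 0`. The constants `0`, `ω` have `D = 0`. So `tangentOrder = d + 14`. -/
def S_TAN : Prop := S_RAT → S_SYM → S_LOC → S_DRE → S_DOR → S_CNT → S_EXI → S_VOR → ∀ (K : Type) [Field K] [Algebra ℂ K] (y s : K), FK K y s → ∀ ω : ℂ, ω ^ 4 = -1 →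
  ∀ (D : Derivation ℂ K K), D ≠ 0 → ∀ P : Place K,
  (∀ p q : ℂ, p ^ 16 + q ^ 16 + 1 = 0 → At y s P p q →
    tangentOrder P ![1, 0, algebraMap ℂ K ω] ![1, y, y ^ 15 * s] D = vectorOrder P D) ∧
  (∀ v : ℂ, v ^ 16 + 1 = 0 → At y⁻¹ (s * y⁻¹) P 0 v →
    tangentOrder P ![1, 0, algebraMap ℂ K ω] ![1, y, y ^ 15 * s] D = vectorOrder P D + 14)

/-- NUM: the two numbers.
Proof. `I` = the 16 places at infinity, `J` = the 16 places over `(p, 0)` (`S_CNT`, disjoint: `ord y`). `vectorOrder P D = ord_P (D y) - 15 [P ∈ J] + 2 [P ∈ I]`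
(`S_CEN`, `S_VOR`), so `∑ = 0 - 240 + 32 = -208` (`S_PRO`, finite supports); `∑ (branchMult - 1) = 14 · 16 = 224` (`S_BRM`); so `indexNumber = 208 - 224`.
`∑ tangentOrder = -208 + 224 = 16` (`S_TAN`). -/
def S_NUM : Prop := (∀ (K : Type) [Field K] [Algebra ℂ K] (y s : K), FK K y s →
    ∀ P : Place K, (∃ p q : ℂ, p ^ 16 + q ^ 16 + 1 = 0 ∧ At y s P p q) ∨
    ∃ v : ℂ, v ^ 16 + 1 = 0 ∧ At y⁻¹ (s * y⁻¹) P 0 v) →
  (∀ (K : Type) [Field K] [Algebra ℂ K] (y s : K), FK K y s →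
    {P : Place K | ∃ v : ℂ, v ^ 16 + 1 = 0 ∧ At y⁻¹ (s * y⁻¹) P 0 v}.Finite ∧
    {P : Place K | ∃ v : ℂ, v ^ 16 + 1 = 0 ∧ At y⁻¹ (s * y⁻¹) P 0 v}.ncard = 16 ∧
    {P : Place K | ∃ p : ℂ, p ^ 16 + 1 = 0 ∧ At y s P p 0}.Finite ∧
    {P : Place K | ∃ p : ℂ, p ^ 16 + 1 = 0 ∧ At y s P p 0}.ncard = 16 ∧
    (∀ (P : Place K) (v : ℂ), v ^ 16 + 1 = 0 → At y⁻¹ (s * y⁻¹) P 0 v → P.ord y = -1 ∧ P.ord s = -1) ∧
    (∀ (P : Place K) (p : ℂ), p ^ 16 + 1 = 0 → At y s P p 0 →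
      P.ord s = 1 ∧ P.ord y = 0 ∧ P.ord (y - algebraMap ℂ K p) = 16)) →
  ∀ (K : Type) [Field K] [Algebra ℂ K] (y s : K), FK K y s → ∀ ω : ℂ, ω ^ 4 = -1 →
  ∀ (D : Derivation ℂ K K), D ≠ 0 → D y ≠ 0 →
  (∀ f : K, f ≠ 0 → {P : Place K | P.ord f ≠ 0}.Finite ∧ ∑ᶠ P : Place K, P.ord f = 0) →
  (∀ P : Place K,
    (∀ p q : ℂ, q ≠ 0 → p ^ 16 + q ^ 16 + 1 = 0 → At y s P p q → vectorOrder P D = P.ord (D y)) ∧
    (∀ p : ℂ, p ^ 16 + 1 = 0 → At y s P p 0 → vectorOrder P D = P.ord (D y) - 15) ∧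
    (∀ v : ℂ, v ^ 16 + 1 = 0 → At y⁻¹ (s * y⁻¹) P 0 v → vectorOrder P D = P.ord (D y) + 2)) →
  (∀ P : Place K,
    (∀ p q : ℂ, p ^ 16 + q ^ 16 + 1 = 0 → At y s P p q →
      branchMult P ![1, 0, algebraMap ℂ K ω] ![1, y, y ^ 15 * s] = 1) ∧
    (∀ v : ℂ, v ^ 16 + 1 = 0 → At y⁻¹ (s * y⁻¹) P 0 v →
      branchMult P ![1, 0, algebraMap ℂ K ω] ![1, y, y ^ 15 * s] = 15)) →
  (∀ P : Place K,
    (∀ p q : ℂ, p ^ 16 + q ^ 16 + 1 = 0 → At y s P p q →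
      tangentOrder P ![1, 0, algebraMap ℂ K ω] ![1, y, y ^ 15 * s] D = vectorOrder P D) ∧
    (∀ v : ℂ, v ^ 16 + 1 = 0 → At y⁻¹ (s * y⁻¹) P 0 v →
      tangentOrder P ![1, 0, algebraMap ℂ K ω] ![1, y, y ^ 15 * s] D = vectorOrder P D + 14)) →
  indexNumber ![1, 0, algebraMap ℂ K ω] ![1, y, y ^ 15 * s] D = -16 ∧
  conormalNumber ![1, 0, algebraMap ℂ K ω] ![1, y, y ^ 15 * s] D = -16

/-- the final statement -/
def S_FINAL : Prop := ∃ X : ClosedSet, X.SmoothSurface ∧ X.Connected ∧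
  KobayashiHyperbolic X.points ∧
  ∃ (Z : ClosedSet) (K : Type) (_ : Field K) (_ : Algebra ℂ K) (b x : Fin 3 → K),
    (∀ p q : Fin 3 → ℂ, Z.Mem p q → X.Mem p q) ∧ Z.FunctionField K b x ∧ Algebra.trdeg ℂ K = 1 ∧
    (∃ D : Derivation ℂ K K, D ≠ 0) ∧
    ∀ D : Derivation ℂ K K, D ≠ 0 → indexNumber b x D = -16 ∧ conormalNumber b x D = -16

end Pool.Agent.Q22.CN
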