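import Mathlib
import Pool.Agent.Q22.CN.Stm

/-!
Job CN-BRM: the multiplicities of the branches.
-/

set_option autoImplicit false

open MvPolynomial Metric Set Topology Filter

namespace Pool.Agent.Q22.CN

open Pool.Agent.TH144.CN

namespace BRM

variable {K : Type} [Field K] [Algebra ℂ K] (P : Place K)

theorem ne_of_pos {f : K} (h : 0 < P.ord f) : f ≠ 0 := by
  rintro rfl
  rw [P.ord_zero] at h
  exact lt_irrefl _ h

theorem ord_one : P.ord 1 = 0 := by
  have := P.ord_const (c := 1) one_ne_zero
  rwa [map_one] at this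

theorem ord_neg (f : K) : P.ord (-f) = P.ord f := by
  by_cases hf : f = 0
  · rw [hf, neg_zero]
  · have h1 : P.ord (-1 : K) = 0 := by
      have := P.ord_const (c := -1) (by norm_num)
      rwa [map_neg, map_one] at this
    rw [neg_eq_neg_one_mul, P.ord_mul (by norm_num) hf, h1, zero_add]

theorem ord_pow {f : K} (hf : f ≠ 0) (n : ℕ) : P.ord (f ^ n) = n * P.ord f := by
  induction n with
  | zero => simp [ord_one]
  | succ n ih =>
    rw [pow_succ, P.ord_mul (pow_ne_zero _ hf) hf, ih]
    push_cast
    ring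

theorem ord_div {f g : K} (hf : f ≠ 0) (hg : g ≠ 0) : P.ord (f / g) = P.ord f - P.ord g := by
  have h := P.ord_mul (div_ne_zero hf hg) hg
  rw [div_mul_cancel₀ _ hg] at h
  linarith

theorem ord_const_sub (a c : ℂ) (h : algebraMap ℂ K a - algebraMap ℂ K c ≠ 0) :
    P.ord (algebraMap ℂ K a - algebraMap ℂ K c) = 0 := by
  rw [← map_sub] at h ⊢
  apply P.ord_const
  rintro h0
  rw [h0, map_zero] at h
  exact h rfl

/-- an element of nonnegative center -/
theorem ord_nonneg {f : K} {p : ℂ} (h : 0 < P.ord (f - algebraMap ℂ K p)) : 0 ≤ P.ord f := by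
  by_cases hf : f = 0
  · rw [hf, P.ord_zero]
  by_cases hp : p = 0
  · rw [hp, map_zero, sub_zero] at h
    exact h.le
  · have h1 := P.ord_add (ne_of_pos P h) (g := algebraMap ℂ K p) (by simpa using hp) (by simpa using hf)
    rw [sub_add_cancel, P.ord_const hp] at h1
    exact (le_min h.le (le_refl _)).trans h1

/-- an element of positive order minus a nonzero constant has order at most zero -/
theorem ord_sub_const {f : K} (hf : 0 < P.ord f) {c : ℂ} (hc : c ≠ 0) :
    P.ord (f - algebraMap ℂ K c) ≤ 0 := by
  by_contra hcon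
  push Not at hcon
  have h0 := ne_of_pos P hf
  have h1 := ne_of_pos P hcon
  have h2 : algebraMap ℂ K c ≠ 0 := by simpa using hc
  have h3 := P.ord_add (f := f) (g := -(f - algebraMap ℂ K c)) h0 (neg_ne_zero.mpr h1) (by
    rw [neg_sub, add_sub_cancel]
    exact h2)
  rw [ord_neg, neg_sub, add_sub_cancel, P.ord_const hc] at h3
  have h4 := lt_min hf hcon
  exact absurd h4 (not_lt.mpr h3)

/-- the constants contribute nothing -/
theorem const_no {a c : ℂ} {m : ℕ} (hm : 0 < m) (h0 : algebraMap ℂ K a - algebraMap ℂ K c ≠ 0)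
    (h : P.ord (algebraMap ℂ K a - algebraMap ℂ K c) = m) : False := by
  rw [ord_const_sub P a c h0] at h
  omega

theorem b_const {ω : ℂ} {f : K} (hf : f ∈ affineCoords P ![1, 0, algebraMap ℂ K ω]) :
    ∃ a : ℂ, f = algebraMap ℂ K a := by
  obtain ⟨i, j, _, _, rfl⟩ := hf
  have h : ∀ l : Fin 3, ∃ a : ℂ, (![1, 0, algebraMap ℂ K ω] : Fin 3 → K) l = algebraMap ℂ K a := by
    intro l
    fin_cases l
    · exact ⟨1, by simp⟩
    · exact ⟨0, by simp⟩
    · exact ⟨ω, by simp⟩
  obtain ⟨a, ha⟩ := h i
  obtain ⟨a', ha'⟩ := h j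
  exact ⟨a' / a, by rw [ha, ha', map_div₀]⟩

end BRM

open BRM in
theorem t_BRM : S_BRM := by
  intro hRAT hSYM hLOC hEXI hCNT K _ _ y s hK ω hω P
  obtain ⟨-, -, -, -, hinf, hzero⟩ := hCNT hRAT hSYM hLOC hEXI K y s hK
  constructor
  · intro p q hpq hat
    have hy := ord_nonneg P hat.1
    have hs := ord_nonneg P hat.2
    have hmem : ∀ j : Fin 3, (![1, y, y ^ 15 * s] : Fin 3 → K) j ∈ affineCoords P ![1, y, y ^ 15 * s] := by
      intro j
      refine ⟨0, j, by simp, ?_, by simp⟩
      intro l hl
      fin_cases l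
      · simp
      · simp only [Matrix.cons_val_zero, Fin.mk_one, Matrix.cons_val_one]
        rw [ord_one]
        exact hy
      · simp only [Fin.reduceFinMk, Matrix.cons_val, Matrix.cons_val_zero] at hl ⊢
        rw [ord_one, P.ord_mul (left_ne_zero_of_mul hl) (right_ne_zero_of_mul hl),
          ord_pow P (by
            intro h
            apply hl
            rw [h]
            simp)]
        positivity
    have hone : (1 : ℕ) ∈ {m : ℕ | 0 < m ∧ ∃ f ∈ affineCoords P ![1, 0, algebraMap ℂ K ω] ∪
        affineCoords P ![1, y, y ^ 15 * s], ∃ c : ℂ,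
        f - algebraMap ℂ K c ≠ 0 ∧ P.ord (f - algebraMap ℂ K c) = m} := by
      refine ⟨by norm_num, ?_⟩
      by_cases hq : q = 0
      · subst hq
        have hp : p ^ 16 + 1 = 0 := by
          rw [← hpq]
          ring
        obtain ⟨h1, h2, h3⟩ := hzero P p hp hat
        have hs0 : s ≠ 0 := by
          rintro rfl
          rw [P.ord_zero] at h1
          norm_num at h1
        have hy0 : y ≠ 0 := by
          rintro rfl
          rw [zero_sub, ord_neg] at h3
          by_cases hp0 : p = 0
          · subst hp0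
            norm_num at hp
          · rw [P.ord_const hp0] at h3
            norm_num at h3
        refine ⟨y ^ 15 * s, Or.inr (hmem 2), 0, ?_, ?_⟩
        · rw [map_zero, sub_zero]
          exact mul_ne_zero (pow_ne_zero _ hy0) hs0
        · rw [map_zero, sub_zero, P.ord_mul (pow_ne_zero _ hy0) hs0, ord_pow P hy0, h1, h2]
          norm_num
      · have h1 := (hLOC hRAT K y s hK P p q hq hpq hat).1
        exact ⟨y, Or.inr (hmem 1), p, ne_of_pos P hat.1, by rw [h1]; norm_num⟩
    unfold branchMult
    apply le_antisymm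
    · exact Nat.sInf_le hone
    · exact le_csInf ⟨1, hone⟩ fun m hm => hm.1
  · intro v hv hat
    obtain ⟨h1, h2⟩ := hinf P v hv hat
    have hy0 : y ≠ 0 := by
      rintro rfl
      rw [P.ord_zero] at h1
      norm_num at h1
    have hs0 : s ≠ 0 := by
      rintro rfl
      rw [P.ord_zero] at h2
      norm_num at h2
    have hz0 : y ^ 15 * s ≠ 0 := mul_ne_zero (pow_ne_zero _ hy0) hs0
    have hz : P.ord (y ^ 15 * s) = -16 := by
      rw [P.ord_mul (pow_ne_zero _ hy0) hs0, ord_pow P hy0, h1, h2]
      norm_num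
    have hd0 : P.ord (1 / (y ^ 15 * s)) = 16 := by
      rw [ord_div P one_ne_zero hz0, ord_one, hz]
      norm_num
    have hd1 : P.ord (y / (y ^ 15 * s)) = 15 := by
      rw [ord_div P hy0 hz0, h1, hz]
      norm_num
    have hmem : (15 : ℕ) ∈ {m : ℕ | 0 < m ∧ ∃ f ∈ affineCoords P ![1, 0, algebraMap ℂ K ω] ∪
        affineCoords P ![1, y, y ^ 15 * s], ∃ c : ℂ,
        f - algebraMap ℂ K c ≠ 0 ∧ P.ord (f - algebraMap ℂ K c) = m} := by
      refine ⟨by norm_num, y / (y ^ 15 * s), Or.inr ?_, 0, ?_, ?_⟩
      · refine ⟨2, 1, by simpa using hz0, ?_, by simp⟩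
        intro l hl
        fin_cases l
        · simp [hz, ord_one]
        · simp [hz, h1]
        · simp
      · rw [map_zero, sub_zero]
        exact div_ne_zero hy0 hz0
      · rw [map_zero, sub_zero, hd1]
        norm_num
    unfold branchMult
    apply le_antisymm
    · exact Nat.sInf_le hmem
    · refine le_csInf ⟨15, hmem⟩ ?_
      rintro m ⟨hm0, f, hf, c, hfc, hm⟩
      rcases hf with hf | hf
      · obtain ⟨a, rfl⟩ := b_const P hf
        exact absurd (const_no P hm0 hfc hm) id
      · obtain ⟨i, j, hi0, hi, rfl⟩ := hf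
        have hi2 : i = 2 := by
          have h3 := hi 2 (by simpa using hz0)
          fin_cases i
          · simp [hz, ord_one] at h3
          · simp [hz, h1] at h3
          · rfl
        subst hi2
        have key : ∀ g : K, 15 ≤ P.ord g → g - algebraMap ℂ K c ≠ 0 →
            P.ord (g - algebraMap ℂ K c) = m → 15 ≤ m := by
          intro g hg hgc hgm
          by_cases hc : c = 0
          · rw [hc, map_zero, sub_zero] at hgm
            omega
          · have := ord_sub_const P (f := g) (by omega) hc
            omega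
        fin_cases j
        · exact key (1 / (y ^ 15 * s)) (by rw [hd0]; norm_num) (by simpa using hfc) (by simpa using hm)
        · exact key (y / (y ^ 15 * s)) (by rw [hd1]) (by simpa using hfc) (by simpa using hm)
        · exfalso
          have h4 : (![1, y, y ^ 15 * s] : Fin 3 → K) 2 / (![1, y, y ^ 15 * s] : Fin 3 → K) 2 =
              algebraMap ℂ K 1 := by
            rw [map_one]
            exact div_self (by simpa using hz0)
          have h5 : ((fun i => i) (⟨2, by norm_num⟩ : Fin 3)) = (2 : Fin 3) := rfl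
          simp only [Fin.reduceFinMk] at hfc hm
          rw [h4] at hfc hm
          exact const_no P hm0 hfc hm

end Pool.Agent.Q22.CN
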