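import Pool.Agent.Q22.CN.Stm

/-!
# Counting the places at infinity and the places over `s = 0`
-/

set_option autoImplicit false

open MvPolynomial Metric Set Topology Filter
open scoped LinearAlgebra.Projectivization

namespace Pool.Agent.Q22.CN.CNT

open Pool.Agent.TH144.CN
open Pool.Agent.Q22.CN

variable {K : Type} [Field K] [Algebra ℂ K]

lemma ord_one (P : Place K) : P.ord 1 = 0 := by
  have := P.ord_const (c := 1) one_ne_zero
  simpa using this

lemma ord_neg (P : Place K) (f : K) : P.ord (-f) = P.ord f := by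
  by_cases hf : f = 0
  · simp [hf]
  · have h1 : P.ord (-1 : K) = 0 := by
      have := P.ord_const (c := -1) (by norm_num)
      simpa using this
    have h2 : P.ord ((-1 : K) * f) = P.ord (-1 : K) + P.ord f :=
      P.ord_mul (by simp) hf
    rw [neg_one_mul] at h2
    rw [h2, h1, zero_add]

lemma ord_inv (P : Place K) {f : K} (hf : f ≠ 0) : P.ord f⁻¹ = - P.ord f := by
  have h := P.ord_mul hf (inv_ne_zero hf)
  rw [mul_inv_cancel₀ hf, ord_one] at h
  linarith

lemma ord_pow (P : Place K) {f : K} (hf : f ≠ 0) (n : ℕ) : P.ord (f ^ n) = n * P.ord f := by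
  induction n with
  | zero => simp [ord_one]
  | succ n ih =>
    rw [pow_succ, P.ord_mul (pow_ne_zero n hf) hf, ih]
    push_cast
    ring

lemma ne_zero_of_ord (P : Place K) {f : K} (h : 0 < P.ord f) : f ≠ 0 := by
  rintro rfl
  rw [P.ord_zero] at h
  exact lt_irrefl _ h

lemma res_unique (P : Place K) {f : K} {v w : ℂ} (h : 0 < P.ord (f - algebraMap ℂ K v))
    (h' : 0 < P.ord (f - algebraMap ℂ K w)) : v = w := by
  by_contra hne
  have h1 : f - algebraMap ℂ K w ≠ 0 := ne_zero_of_ord P h'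
  have h2 : -(f - algebraMap ℂ K v) ≠ 0 := neg_ne_zero.2 (ne_zero_of_ord P h)
  have h3 : (f - algebraMap ℂ K w) + -(f - algebraMap ℂ K v) = algebraMap ℂ K (v - w) := by
    rw [map_sub]; ring
  have h4 : algebraMap ℂ K (v - w) ≠ 0 := by
    rw [Ne, map_eq_zero]
    exact sub_ne_zero.2 hne
  have h5 := P.ord_add h1 h2 (by rw [h3]; exact h4)
  rw [h3, P.ord_const (sub_ne_zero.2 hne), ord_neg] at h5
  have := lt_min h' h
  linarith

lemma card_roots : Nat.card {v : ℂ // v ^ 16 + 1 = 0} = 16 := by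
  have hprim : IsPrimitiveRoot (Complex.exp (2 * Real.pi * Complex.I / (16 : ℕ))) 16 :=
    Complex.isPrimitiveRoot_exp 16 (by norm_num)
  have hex : ∃ α : ℂ, α ^ 16 = -1 := IsAlgClosed.exists_pow_nat_eq (-1) (by norm_num)
  have hcard := hprim.card_nthRoots (-1)
  rw [if_pos hex] at hcard
  have hnd := hprim.nthRoots_nodup (a := (-1 : ℂ)) (by norm_num)
  have h1 : ∀ x : ℂ, x ∈ (Polynomial.nthRoots 16 (-1 : ℂ)).toFinset ↔ x ^ 16 + 1 = 0 := by
    intro x
    rw [Multiset.mem_toFinset, Polynomial.mem_nthRoots (by norm_num)]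
    exact eq_neg_iff_add_eq_zero
  rw [Nat.subtype_card _ h1, Multiset.toFinset_card_of_nodup hnd, hcard]

lemma cnt (hRAT : S_RAT) (hLOC : S_LOC) (hEXI : S_EXI) {y s : K} (hFK : FK K y s) :
    {P : Place K | ∃ v : ℂ, v ^ 16 + 1 = 0 ∧ At y s P 0 v}.Finite ∧
    {P : Place K | ∃ v : ℂ, v ^ 16 + 1 = 0 ∧ At y s P 0 v}.ncard = 16 := by
  have hne : ∀ v : ℂ, v ^ 16 + 1 = 0 → v ≠ 0 := by
    rintro v hv rfl
    norm_num at hv
  have heq : ∀ v : ℂ, v ^ 16 + 1 = 0 → (0 : ℂ) ^ 16 + v ^ 16 + 1 = 0 := by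
    intro v hv
    rw [zero_pow (by norm_num), zero_add]
    exact hv
  choose f hf using fun v : {v : ℂ // v ^ 16 + 1 = 0} =>
    hEXI hRAT K y s hFK 0 v.1 (hne v.1 v.2) (heq v.1 v.2)
  have hinj : Function.Injective f := by
    intro v w hvw
    have h1 := (hf v).2
    have h2 := (hf w).2
    rw [← hvw] at h2
    exact Subtype.ext (res_unique (f v) h1 h2)
  have hset : {P : Place K | ∃ v : ℂ, v ^ 16 + 1 = 0 ∧ At y s P 0 v} = Set.range f := by
    ext P
    constructor
    · rintro ⟨v, hv, hP⟩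
      refine ⟨⟨v, hv⟩, ?_⟩
      exact (hLOC hRAT K y s hFK P 0 v (hne v hv) (heq v hv) hP).2.1 _ (hf ⟨v, hv⟩)
    · rintro ⟨v, rfl⟩
      exact ⟨v.1, v.2, hf v⟩
  haveI : Finite {v : ℂ // v ^ 16 + 1 = 0} := Nat.finite_of_card_ne_zero (by rw [card_roots]; norm_num)
  rw [hset]
  refine ⟨Set.finite_range f, ?_⟩
  rw [← Nat.card_coe_set_eq, Nat.card_range_of_injective hinj, card_roots]

end Pool.Agent.Q22.CN.CNT

namespace Pool.Agent.Q22.CN

open Pool.Agent.TH144.CN CNT

theorem t_CNT : S_CNT := by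
  intro hRAT hSYM hLOC hEXI K _ _ y s hFK
  have hne : ∀ v : ℂ, v ^ 16 + 1 = 0 → v ≠ 0 := by
    rintro v hv rfl
    norm_num at hv
  have heq : ∀ v : ℂ, v ^ 16 + 1 = 0 → (0 : ℂ) ^ 16 + v ^ 16 + 1 = 0 := by
    intro v hv
    rw [zero_pow (by norm_num), zero_add]
    exact hv
  have h1 : FK K y⁻¹ (s * y⁻¹) := (hSYM K y s hFK).1
  have h2 : FK K s y := (hSYM K y s hFK).2
  have hset : {P : Place K | ∃ p : ℂ, p ^ 16 + 1 = 0 ∧ At y s P p 0} =
      {P : Place K | ∃ v : ℂ, v ^ 16 + 1 = 0 ∧ At s y P 0 v} := by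
    ext P
    constructor
    · rintro ⟨p, hp, h⟩
      exact ⟨p, hp, h.2, h.1⟩
    · rintro ⟨p, hp, h⟩
      exact ⟨p, hp, h.2, h.1⟩
  refine ⟨(cnt hRAT hLOC hEXI h1).1, (cnt hRAT hLOC hEXI h1).2, ?_, ?_, ?_, ?_⟩
  · rw [hset]; exact (cnt hRAT hLOC hEXI h2).1
  · rw [hset]; exact (cnt hRAT hLOC hEXI h2).2
  · intro P v hv hP
    obtain ⟨ho, -, hu, -⟩ := hLOC hRAT K _ _ h1 P 0 v (hne v hv) (heq v hv) hP
    rw [map_zero, sub_zero] at ho
    have hyi : y⁻¹ ≠ 0 := by
      intro h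
      rw [h, P.ord_zero] at ho
      exact zero_ne_one ho
    have hy : y ≠ 0 := fun h => hyi (by rw [h, inv_zero])
    have hoy : P.ord y = -1 := by
      have := ord_inv P hy
      rw [ho] at this
      linarith
    obtain ⟨hs0, hs1⟩ := hu (X 1) (by simpa using hne v hv)
    simp only [aeval_X, Matrix.cons_val_one, Matrix.cons_val_fin_one] at hs0 hs1
    have hs : s = (s * y⁻¹) * y := by
      rw [mul_assoc, inv_mul_cancel₀ hy, mul_one]
    refine ⟨hoy, ?_⟩
    rw [hs, P.ord_mul hs0 hy, hs1, hoy, zero_add]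
  · intro P p hp hP
    have hP' : At s y P 0 p := ⟨hP.2, hP.1⟩
    obtain ⟨ho, -, hu, -⟩ := hLOC hRAT K _ _ h2 P 0 p (hne p hp) (heq p hp) hP'
    rw [map_zero, sub_zero] at ho
    have hs : s ≠ 0 := by
      intro h
      rw [h, P.ord_zero] at ho
      exact zero_ne_one ho
    obtain ⟨hy0, hy1⟩ := hu (X 1) (by simpa using hne p hp)
    simp only [aeval_X, Matrix.cons_val_one, Matrix.cons_val_fin_one] at hy0 hy1
    refine ⟨ho, hy1, ?_⟩
    have hyp : y - algebraMap ℂ K p ≠ 0 := ne_zero_of_ord P hP.1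
    obtain ⟨hT0, hT1⟩ := hu (∑ i ∈ Finset.range 16, X 1 ^ i * C (p ^ (15 - i))) (by
      rw [map_sum]
      have : ∀ i ∈ Finset.range 16, (eval ![0, p]) (X 1 ^ i * C (p ^ (15 - i)) :
          MvPolynomial (Fin 2) ℂ) = p ^ 15 := by
        intro i hi
        rw [map_mul, map_pow, eval_X, eval_C]
        simp only [Matrix.cons_val_one, Matrix.cons_val_fin_one]
        rw [← pow_add]
        congr 1
        have := Finset.mem_range.1 hi
        omega
      rw [Finset.sum_congr rfl this, Finset.sum_const, Finset.card_range]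
      simpa using hne p hp)
    have hprod : (∑ i ∈ Finset.range 16, y ^ i * algebraMap ℂ K p ^ (15 - i)) *
        (y - algebraMap ℂ K p) = y ^ 16 - algebraMap ℂ K p ^ 16 := by
      have := Commute.geom_sum₂_mul (Commute.all y (algebraMap ℂ K p)) 16
      simpa using this
    have hTe : aeval ![s, y] (∑ i ∈ Finset.range 16, X 1 ^ i * C (p ^ (15 - i)) :
        MvPolynomial (Fin 2) ℂ) = ∑ i ∈ Finset.range 16, y ^ i * algebraMap ℂ K p ^ (15 - i) := by
      rw [map_sum]
      refine Finset.sum_congr rfl fun i _ => ?_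
      rw [map_mul, map_pow, aeval_X, aeval_C, map_pow]
      simp only [Matrix.cons_val_one, Matrix.cons_val_fin_one]
    rw [hTe] at hT0 hT1
    have hp16 : algebraMap ℂ K p ^ 16 = -1 := by
      rw [← map_pow, eq_neg_of_add_eq_zero_left hp, map_neg, map_one]
    have hs16 : s ^ 16 = -((∑ i ∈ Finset.range 16, y ^ i * algebraMap ℂ K p ^ (15 - i)) *
        (y - algebraMap ℂ K p)) := by
      rw [hprod, hp16]
      have := hFK.eqn
      linear_combination this
    have h3 := ord_pow P hs 16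
    rw [hs16, ord_neg, P.ord_mul hT0 hyp, hT1, ho] at h3
    push_cast at h3
    linarith

end Pool.Agent.Q22.CN
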