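import Pool.Agent.Q22.CN.Stm

/-!
# Project CN (helper22), job CON: the surface is connected
-/

set_option autoImplicit false

namespace Pool.Agent.Q22.CN

open Pool.Agent.TH144.CN MvPolynomial Metric Set Topology Filter

namespace CON

/-- the equations of the cone -/
lemma mem_iff (b x : Fin 3 → ℂ) : XX.Mem b x ↔ b ≠ 0 ∧ x ≠ 0 ∧ b 0 ^ 4 + b 1 ^ 4 + b 2 ^ 4 = 0 ∧
    b 0 * af x + 2 * b 1 * gf x = 0 := by
  have hE : aeval (Sum.elim b x) bE = b 0 ^ 4 + b 1 ^ 4 + b 2 ^ 4 := by
    simp [bE]
  have hF : aeval (Sum.elim b x) bF = b 0 * af x + 2 * b 1 * gf x := by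
    simp [bF, bA, bG, af, gf]
  constructor
  · rintro ⟨h1, h2, h3⟩
    refine ⟨h1, h2, ?_, ?_⟩
    · rw [← hE]
      exact h3 bE (Or.inl rfl)
    · rw [← hF]
      exact h3 bF (Or.inr rfl)
  · rintro ⟨h1, h2, h3, h4⟩
    refine ⟨h1, h2, ?_⟩
    rintro G (rfl | rfl)
    · rw [hE]
      exact h3
    · rw [hF]
      exact h4

lemma af_cont : Continuous af := by
  unfold af
  fun_prop

lemma gf_cont : Continuous gf := by
  unfold gf
  fun_prop

/-- the parametrisation of the part of the cone over `Q ≠ 0` -/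
noncomputable def par (p : ℂ × ((Fin 3 → ℂ) × ℂ)) : (Fin 3 → ℂ) × (Fin 3 → ℂ) :=
  (![p.1 * (-2 * gf p.2.1), p.1 * af p.2.1, p.1 * p.2.2], p.2.1)

lemma par_cont : Continuous par := by
  have h1 := af_cont
  have h2 := gf_cont
  unfold par
  refine Continuous.prodMk ?_ (by fun_prop)
  refine continuous_pi fun i => ?_
  fin_cases i
  · show Continuous fun p : ℂ × ((Fin 3 → ℂ) × ℂ) => p.1 * (-2 * gf p.2.1)
    fun_prop
  · show Continuous fun p : ℂ × ((Fin 3 → ℂ) × ℂ) => p.1 * af p.2.1
    fun_prop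
  · show Continuous fun p : ℂ × ((Fin 3 → ℂ) × ℂ) => p.1 * p.2.2
    fun_prop

lemma Qf_zero : Qf 0 = 0 := by
  simp [Qf, af, gf]

/-- the image of the parametrisation -/
lemma image_par : par '' ({(0 : ℂ)}ᶜ ×ˢ {p : (Fin 3 → ℂ) × ℂ | p.2 ^ 4 = Qf p.1 ∧ Qf p.1 ≠ 0}) =
    {p : (Fin 3 → ℂ) × (Fin 3 → ℂ) | XX.Mem p.1 p.2 ∧ Qf p.2 ≠ 0} := by
  ext ⟨b, x⟩
  constructor
  · rintro ⟨⟨l, x', β⟩, ⟨hl, h1, h2⟩, h3⟩
    simp only [mem_compl_iff, mem_singleton_iff] at hl
    simp only at h1 h2
    rw [← h3]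
    refine ⟨?_, h2⟩
    show XX.Mem _ x'
    rw [mem_iff]
    have hx : x' ≠ 0 := by
      rintro rfl
      exact h2 Qf_zero
    have hβ : β ≠ 0 := by
      rintro rfl
      apply h2
      rw [← h1]
      simp
    refine ⟨?_, hx, ?_, ?_⟩
    · intro h0
      have h4 := congrFun h0 2
      have h5 : l * β = 0 := h4
      rcases mul_eq_zero.1 h5 with h | h
      · exact hl h
      · exact hβ h
    · show (l * (-2 * gf x')) ^ 4 + (l * af x') ^ 4 + (l * β) ^ 4 = 0
      rw [mul_pow l β, h1, Qf]
      ring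
    · show (l * (-2 * gf x')) * af x' + 2 * (l * af x') * gf x' = 0
      ring
  · rintro ⟨h1, h2⟩
    simp only at h1 h2
    rw [mem_iff] at h1
    obtain ⟨hb, hx, hE, hF⟩ := h1
    -- the factor
    obtain ⟨l, hl0, hl1⟩ : ∃ l : ℂ, b 0 = l * (-2 * gf x) ∧ b 1 = l * af x := by
      by_cases hA : af x = 0
      · have hG : gf x ≠ 0 := by
          intro hG
          apply h2
          simp [Qf, hA, hG]
        refine ⟨b 0 / (-2 * gf x), ?_, ?_⟩
        · field_simp
        · rw [hA, mul_zero]
          rw [hA, mul_zero, zero_add] at hF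
          rcases mul_eq_zero.1 hF with h | h
          · rcases mul_eq_zero.1 h with h' | h'
            · norm_num at h'
            · exact h'
          · exact absurd h hG
      · refine ⟨b 1 / af x, ?_, ?_⟩
        · have h3 : b 0 * af x = (b 1 / af x * (-2 * gf x)) * af x := by
            have h4 : (b 1 / af x * (-2 * gf x)) * af x = b 1 * (-2 * gf x) := by
              field_simp
            rw [h4]
            linear_combination hF
          exact mul_right_cancel₀ hA h3
        · field_simp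
    have hl : l ≠ 0 := by
      rintro rfl
      rw [zero_mul] at hl0 hl1
      rw [hl0, hl1] at hE
      have h3 : b 2 = 0 := by
        have h4 : b 2 ^ 4 = 0 := by linear_combination hE
        exact pow_eq_zero_iff (by norm_num) |>.1 h4
      apply hb
      funext i
      fin_cases i
      · exact hl0
      · exact hl1
      · exact h3
    refine ⟨(l, (x, b 2 / l)), ⟨by simpa using hl, ?_, h2⟩, ?_⟩
    · show (b 2 / l) ^ 4 = Qf x
      have h4 : b 2 ^ 4 = l ^ 4 * Qf x := by
        rw [hl0, hl1] at hE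
        rw [Qf]
        linear_combination hE
      rw [div_pow, h4]
      field_simp
    · unfold par
      refine Prod.ext ?_ rfl
      funext i
      fin_cases i
      · exact hl0.symm
      · exact hl1.symm
      · show l * (b 2 / l) = b 2
        field_simp

end CON

theorem t_CON : S_CON := by
  intro hW hD
  have h1 : IsConnected ({(0 : ℂ)}ᶜ : Set ℂ) := by
    apply isConnected_compl_singleton_of_one_lt_rank
    rw [Complex.rank_real_complex]
    norm_num
  have h2 := (h1.prod hW).image CON.par CON.par_cont.continuousOn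
  rw [CON.image_par] at h2
  refine h2.subset_closure (fun p hp => hp.1) ?_
  rintro ⟨b, x⟩ hp
  exact hD b x hp

end Pool.Agent.Q22.CN
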