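import Pool.Agent.Q22.CN.Stm

set_option autoImplicit false

open MvPolynomial Metric Set Topology Filter
open scoped LinearAlgebra.Projectivization

namespace Pool.Agent.Q22.CN

open Pool.Agent.TH144.CN

namespace DEN

theorem mem_iff (b x : Fin 3 → ℂ) : XX.Mem b x ↔ b ≠ 0 ∧ x ≠ 0 ∧
    b 0 ^ 4 + b 1 ^ 4 + b 2 ^ 4 = 0 ∧ b 0 * af x + 2 * b 1 * gf x = 0 := by
  unfold ClosedSet.Mem XX
  simp only [mem_insert_iff, mem_singleton_iff, forall_eq_or_imp, forall_eq]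
  have h1 : aeval (Sum.elim b x) bE = b 0 ^ 4 + b 1 ^ 4 + b 2 ^ 4 := by
    unfold bE
    simp
  have h2 : aeval (Sum.elim b x) bF = b 0 * af x + 2 * b 1 * gf x := by
    unfold bF bA bG af gf
    simp
  rw [h1, h2]

theorem near_root (β q : ℂ) : ∃ β' : ℂ, β' ^ 4 = q ∧ ‖β' - β‖ ^ 4 ≤ ‖β ^ 4 - q‖ := by
  obtain ⟨c, hc⟩ := IsAlgClosed.exists_pow_nat_eq q (n := 4) (by norm_num)
  by_contra hcon
  push Not at hcon
  have hI : Complex.I ^ 2 = -1 := Complex.I_sq
  have hI4 : Complex.I ^ 4 = 1 := by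
    calc Complex.I ^ 4 = (Complex.I ^ 2) ^ 2 := by ring
      _ = 1 := by rw [hI]; ring
  have h1 := hcon c hc
  have h2 := hcon (-c) (by rw [← hc]; ring)
  have h3 := hcon (Complex.I * c) (by rw [mul_pow, hI4, one_mul, hc])
  have h4 := hcon (-(Complex.I * c)) (by
    have : (-(Complex.I * c)) ^ 4 = Complex.I ^ 4 * c ^ 4 := by ring
    rw [this, hI4, one_mul, hc])
  have hprod : ‖c - β‖ * ‖-c - β‖ * (‖Complex.I * c - β‖ * ‖-(Complex.I * c) - β‖) =
      ‖β ^ 4 - q‖ := by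
    rw [← norm_mul, ← norm_mul, ← norm_mul, ← hc]
    congr 1
    linear_combination (-(c - β) * (-c - β) * c ^ 2) * hI
  set D := ‖β ^ 4 - q‖ with hD
  have hD0 : 0 ≤ D := norm_nonneg _
  have h12 : D * D < ‖c - β‖ ^ 4 * ‖-c - β‖ ^ 4 := mul_lt_mul'' h1 h2 hD0 hD0
  have h34 : D * D < ‖Complex.I * c - β‖ ^ 4 * ‖-(Complex.I * c) - β‖ ^ 4 :=
    mul_lt_mul'' h3 h4 hD0 hD0
  have h1234 : (D * D) * (D * D) < (‖c - β‖ ^ 4 * ‖-c - β‖ ^ 4) *
      (‖Complex.I * c - β‖ ^ 4 * ‖-(Complex.I * c) - β‖ ^ 4) :=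
    mul_lt_mul'' h12 h34 (mul_nonneg hD0 hD0) (mul_nonneg hD0 hD0)
  have : (‖c - β‖ ^ 4 * ‖-c - β‖ ^ 4) *
      (‖Complex.I * c - β‖ ^ 4 * ‖-(Complex.I * c) - β‖ ^ 4) = D ^ 4 := by
    rw [← hprod]
    ring
  rw [this] at h1234
  have : (D * D) * (D * D) = D ^ 4 := by ring
  linarith

theorem root_fun {ι : Type} {l : Filter ι} {q : ι → ℂ} {β : ℂ} (h : Tendsto q l (𝓝 (β ^ 4))) :
    ∃ β' : ι → ℂ, (∀ i, β' i ^ 4 = q i) ∧ Tendsto β' l (𝓝 β) := by
  choose β' h1 h2 using fun i => near_root β (q i)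
  refine ⟨β', h1, ?_⟩
  rw [tendsto_iff_norm_sub_tendsto_zero]
  have h3 : Tendsto (fun i => ‖β ^ 4 - q i‖) l (𝓝 0) := by
    have := (tendsto_const_nhds (x := β ^ 4)).sub h
    rw [sub_self] at this
    simpa using this.norm
  have h4 : Tendsto (fun i => ‖β' i - β‖ ^ 4) l (𝓝 0) :=
    squeeze_zero (fun i => by positivity) h2 h3
  have h5 : Tendsto (fun i => (‖β' i - β‖ ^ 4) ^ ((1 : ℝ) / 4)) l (𝓝 (0 ^ ((1 : ℝ) / 4))) :=
    h4.rpow_const (Or.inr (by norm_num))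
  rw [Real.zero_rpow (by norm_num)] at h5
  refine h5.congr fun i => ?_
  rw [← Real.rpow_natCast, ← Real.rpow_mul (norm_nonneg _)]
  norm_num

theorem Qf_zero : Qf 0 = 0 := by
  unfold Qf af gf
  simp

theorem ne_zero_of_Qf {x : Fin 3 → ℂ} (h : Qf x ≠ 0) : x ≠ 0 := by
  rintro rfl
  exact h Qf_zero

theorem cont_af : Continuous af := by
  unfold af
  fun_prop

theorem cont_gf : Continuous gf := by
  unfold gf
  fun_prop

theorem cont_Qf : Continuous Qf := by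
  unfold Qf
  exact ((cont_af.pow 4).add (continuous_const.mul (cont_gf.pow 4))).neg

theorem vec_ne {a b c : ℂ} (h : c ≠ 0) : (![a, b, c] : Fin 3 → ℂ) ≠ 0 := by
  intro h0
  apply h
  have := congrFun h0 2
  simpa using this

theorem tendsto_vec {ι : Type} {l : Filter ι} {f g h : ι → ℂ} {a b c : ℂ}
    (hf : Tendsto f l (𝓝 a)) (hg : Tendsto g l (𝓝 b)) (hh : Tendsto h l (𝓝 c)) :
    Tendsto (fun i => (![f i, g i, h i] : Fin 3 → ℂ)) l (𝓝 ![a, b, c]) := by
  rw [tendsto_pi_nhds]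
  intro k
  fin_cases k
  · simpa using hf
  · simpa using hg
  · simpa using hh

/-- the case where `A`, `G` are not both zero -/
theorem case2 (hU : S_UCO) (b x : Fin 3 → ℂ) (h : XX.Mem b x) (hAG : ¬ (af x = 0 ∧ gf x = 0)) :
    (b, x) ∈ closure {p : (Fin 3 → ℂ) × (Fin 3 → ℂ) | XX.Mem p.1 p.2 ∧ Qf p.2 ≠ 0} := by
  obtain ⟨hb, hx, e1, e2⟩ := (mem_iff b x).1 h
  obtain ⟨lam, hl0, hl1⟩ : ∃ lam : ℂ, b 0 = lam * (-2 * gf x) ∧ b 1 = lam * af x := by
    by_cases hA : af x = 0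
    · have hG : gf x ≠ 0 := fun hG => hAG ⟨hA, hG⟩
      have hb1 : b 1 = 0 := by
        rw [hA, mul_zero, zero_add] at e2
        rcases mul_eq_zero.1 e2 with h1 | h1
        · rcases mul_eq_zero.1 h1 with h2 | h2
          · norm_num at h2
          · exact h2
        · exact absurd h1 hG
      refine ⟨-b 0 / (2 * gf x), ?_, by rw [hA, hb1, mul_zero]⟩
      field_simp
    · refine ⟨b 1 / af x, ?_, by field_simp⟩
      field_simp
      linear_combination e2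
  have hlam : lam ≠ 0 := by
    rintro rfl
    rw [zero_mul] at hl0 hl1
    apply hb
    have hb2 : b 2 = 0 := by
      rw [hl0, hl1] at e1
      have : b 2 ^ 4 = 0 := by linear_combination e1
      exact pow_eq_zero_iff (by norm_num) |>.1 this
    funext k
    fin_cases k
    · exact hl0
    · exact hl1
    · exact hb2
  have hq : (b 2 / lam) ^ 4 = Qf x := by
    rw [hl0, hl1] at e1
    unfold Qf
    rw [div_pow, div_eq_iff (pow_ne_zero 4 hlam)]
    linear_combination e1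
  set l : Filter (Fin 3 → ℂ) := 𝓝[{y | Qf y ≠ 0}] x with hl
  have hne : l.NeBot := mem_closure_iff_nhdsWithin_neBot.1 (hU.2 x)
  have hid : Tendsto (fun y : Fin 3 → ℂ => y) l (𝓝 x) := tendsto_id.mono_left nhdsWithin_le_nhds
  have ht : Tendsto Qf l (𝓝 ((b 2 / lam) ^ 4)) := by
    rw [hq]
    exact (cont_Qf.tendsto x).mono_left nhdsWithin_le_nhds
  obtain ⟨β', hβ1, hβ2⟩ := root_fun ht
  have hA : Tendsto (fun y => lam * (-2 * gf y)) l (𝓝 (lam * (-2 * gf x))) :=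
    ((continuous_const.mul (continuous_const.mul cont_gf)).tendsto x).mono_left nhdsWithin_le_nhds
  have hB : Tendsto (fun y => lam * af y) l (𝓝 (lam * af x)) :=
    ((continuous_const.mul cont_af).tendsto x).mono_left nhdsWithin_le_nhds
  have hC : Tendsto (fun y => lam * β' y) l (𝓝 (lam * (b 2 / lam))) := hβ2.const_mul lam
  have hlim := (tendsto_vec hA hB hC).prodMk_nhds hid
  have hbx : ((![lam * (-2 * gf x), lam * af x, lam * (b 2 / lam)] : Fin 3 → ℂ), x) = (b, x) := by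
    congr 1
    rw [← hl0, ← hl1, mul_div_cancel₀ _ hlam]
    funext k
    fin_cases k <;> rfl
  rw [hbx] at hlim
  refine mem_closure_of_tendsto hlim ?_
  filter_upwards [self_mem_nhdsWithin] with y hy
  have hy' : Qf y ≠ 0 := hy
  have hβ0 : β' y ≠ 0 := by
    intro h0
    apply hy'
    rw [← hβ1 y, h0]
    norm_num
  refine ⟨(mem_iff _ _).2 ⟨vec_ne (mul_ne_zero hlam hβ0), ne_zero_of_Qf hy', ?_, ?_⟩, hy'⟩
  · have := hβ1 y
    unfold Qf at this
    simp only [Matrix.cons_val_zero, Matrix.cons_val_one, Matrix.cons_val]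
    linear_combination lam ^ 4 * this
  · simp only [Matrix.cons_val_zero, Matrix.cons_val_one]
    ring

theorem solve (a g : Fin 3 → ℂ) (h : ∀ c0 c1 : ℂ, c0 • a + c1 • g = 0 → c0 = 0 ∧ c1 = 0)
    (r s : ℂ) : ∃ v : Fin 3 → ℂ, ∑ i, a i * v i = r ∧ ∑ i, g i * v i = s := by
  obtain ⟨i, j, hij⟩ : ∃ i j, a i * g j - a j * g i ≠ 0 := by
    by_contra hcon
    push Not at hcon
    have ha : a ≠ 0 := by
      rintro rfl
      have := (h 1 0 (by simp)).1
      exact one_ne_zero this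
    obtain ⟨k, hk⟩ := Function.ne_iff.1 ha
    have := (h (g k) (-a k) (by
      funext m
      have := hcon k m
      simp only [Pi.add_apply, Pi.smul_apply, smul_eq_mul, Pi.zero_apply]
      linear_combination -this)).2
    exact hk (neg_eq_zero.1 this)
  set Δ := a i * g j - a j * g i with hΔ
  refine ⟨fun k => (if k = i then (r * g j - s * a j) / Δ else 0) +
    (if k = j then (a i * s - g i * r) / Δ else 0), ?_, ?_⟩
  · simp only [mul_add, mul_ite, mul_zero, Finset.sum_add_distrib, Finset.sum_ite_eq',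
      Finset.mem_univ, if_true]
    field_simp
    rw [hΔ]
    ring
  · simp only [mul_add, mul_ite, mul_zero, Finset.sum_add_distrib, Finset.sum_ite_eq',
      Finset.mem_univ, if_true]
    field_simp
    rw [hΔ]
    ring

theorem line (x v : Fin 3 → ℂ) (k : Fin 3) :
    HasDerivAt (fun τ : ℂ => (x + τ • v) k) (v k) 0 := by
  have h : HasDerivAt (fun τ : ℂ => x k + τ * v k) (1 * v k) 0 :=
    ((hasDerivAt_id (0 : ℂ)).mul_const (v k)).const_add (x k)
  rw [one_mul] at h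
  exact h

theorem deriv_af (x v : Fin 3 → ℂ) :
    HasDerivAt (fun τ : ℂ => af (x + τ • v)) (∑ i, dA x i * v i) 0 := by
  have h0 := line x v 0
  have h1 := line x v 1
  have h2 := line x v 2
  have h := (((h0.pow 240).mul (h2.pow 16)).add (h1.pow 256)).add ((h0.pow 16).mul (h1.pow 240))
  refine h.congr_deriv ?_
  simp only [Pi.add_apply, Pi.smul_apply, smul_eq_mul, zero_mul, add_zero, Fin.sum_univ_three, dA,
    Matrix.cons_val_zero, Matrix.cons_val_one, Matrix.cons_val, Pi.pow_apply]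
  norm_num
  ring

theorem deriv_gf (x v : Fin 3 → ℂ) :
    HasDerivAt (fun τ : ℂ => gf (x + τ • v)) (∑ i, dG x i * v i) 0 := by
  have h0 := line x v 0
  have h1 := line x v 1
  have h2 := line x v 2
  have h := ((h0.pow 256).add (h1.pow 256)).add ((h2.pow 256).const_mul g0)
  refine h.congr_deriv ?_
  simp only [Pi.add_apply, Pi.smul_apply, smul_eq_mul, zero_mul, add_zero, Fin.sum_univ_three, dG,
    Matrix.cons_val_zero, Matrix.cons_val_one, Matrix.cons_val, Pi.pow_apply]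
  norm_num
  ring

theorem case3 (hS : S_SM2) (b x : Fin 3 → ℂ) (h : XX.Mem b x) (hA : af x = 0) (hG : gf x = 0)
    (hb2 : b 2 ≠ 0) :
    (b, x) ∈ closure {p : (Fin 3 → ℂ) × (Fin 3 → ℂ) | XX.Mem p.1 p.2 ∧ Qf p.2 ≠ 0} := by
  obtain ⟨hb, hx, e1, e2⟩ := (mem_iff b x).1 h
  obtain ⟨v, hv1, hv2⟩ := solve (dA x) (dG x) (fun c0 c1 hc => hS c0 c1 x hx hA hG hc) (b 1)
    (-b 0 / 2)
  set l : Filter ℂ := 𝓝[≠] 0 with hl
  have dAv := deriv_af x v
  have dGv := deriv_gf x v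
  rw [hv1] at dAv
  rw [hv2] at dGv
  have tA : Tendsto (fun τ : ℂ => τ⁻¹ * af (x + τ • v)) l (𝓝 (b 1)) := by
    have := dAv.tendsto_slope_zero
    simpa [hA] using this
  have tG : Tendsto (fun τ : ℂ => τ⁻¹ * gf (x + τ • v)) l (𝓝 (-b 0 / 2)) := by
    have := dGv.tendsto_slope_zero
    simpa [hG] using this
  have tQ : Tendsto (fun τ : ℂ => -((τ⁻¹ * af (x + τ • v)) ^ 4 +
      16 * (τ⁻¹ * gf (x + τ • v)) ^ 4)) l (𝓝 (b 2 ^ 4)) := by
    have h1 := ((tA.pow 4).add ((tG.pow 4).const_mul 16)).neg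
    have : -(b 1 ^ 4 + 16 * (-b 0 / 2) ^ 4) = b 2 ^ 4 := by
      linear_combination -e1
    rw [this] at h1
    exact h1
  obtain ⟨β', hβ1, hβ2⟩ := root_fun tQ
  have hx' : Tendsto (fun τ : ℂ => x + τ • v) l (𝓝 x) := by
    have hc : Continuous (fun τ : ℂ => x + τ • v) := by fun_prop
    have := (hc.tendsto 0).mono_left (nhdsWithin_le_nhds (s := {0}ᶜ))
    simpa using this
  have hlim := (tendsto_vec (tG.const_mul (-2)) tA hβ2).prodMk_nhds hx'
  have hbx : ((![-2 * (-b 0 / 2), b 1, b 2] : Fin 3 → ℂ), x) = (b, x) := by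
    congr 1
    have : -2 * (-b 0 / 2) = b 0 := by ring
    rw [this]
    funext k
    fin_cases k <;> rfl
  rw [hbx] at hlim
  refine mem_closure_of_tendsto hlim ?_
  filter_upwards [self_mem_nhdsWithin, hβ2.eventually_ne hb2] with τ hτ hβ0
  have hτ' : τ ≠ 0 := hτ
  have hQ : Qf (x + τ • v) ≠ 0 := by
    have h1 : Qf (x + τ • v) = τ ^ 4 * β' τ ^ 4 := by
      rw [hβ1 τ]
      unfold Qf
      field_simp
    rw [h1]
    exact mul_ne_zero (pow_ne_zero 4 hτ') (pow_ne_zero 4 hβ0)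
  refine ⟨(mem_iff _ _).2 ⟨vec_ne hβ0, ne_zero_of_Qf hQ, ?_, ?_⟩, hQ⟩
  · simp only [Matrix.cons_val_zero, Matrix.cons_val_one, Matrix.cons_val]
    rw [hβ1 τ]
    ring
  · simp only [Matrix.cons_val_zero, Matrix.cons_val_one]
    ring

theorem case1 (hS : S_SM2) (b x : Fin 3 → ℂ) (h : XX.Mem b x) (hA : af x = 0) (hG : gf x = 0)
    (hb2 : b 2 = 0) :
    (b, x) ∈ closure {p : (Fin 3 → ℂ) × (Fin 3 → ℂ) | XX.Mem p.1 p.2 ∧ Qf p.2 ≠ 0} := by
  obtain ⟨hb, hx, e1, e2⟩ := (mem_iff b x).1 h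
  have hb0 : b 0 ≠ 0 := by
    intro h0
    rw [h0, hb2] at e1
    have hb1 : b 1 = 0 := by
      have : b 1 ^ 4 = 0 := by linear_combination e1
      exact pow_eq_zero_iff (by norm_num) |>.1 this
    apply hb
    funext k
    fin_cases k
    · exact h0
    · exact hb1
    · exact hb2
  set l : Filter ℂ := 𝓝[≠] 0 with hl
  have hd : HasDerivAt (fun δ : ℂ => (b 0 + δ) ^ 4) (4 * (b 0 + 0) ^ 3 * 1) 0 := by
    have h1 : HasDerivAt (fun δ : ℂ => b 0 + δ) 1 0 := (hasDerivAt_id (0 : ℂ)).const_add (b 0)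
    have := h1.pow 4
    refine this.congr_deriv ?_
    norm_num
  have hev : ∀ᶠ δ in l, (b 0 + δ) ^ 4 ≠ b 0 ^ 4 :=
    hd.eventually_ne (by
      rw [add_zero, mul_one]
      exact mul_ne_zero (by norm_num) (pow_ne_zero 3 hb0))
  have hδ : Tendsto (fun δ : ℂ => δ) l (𝓝 0) := tendsto_id.mono_left nhdsWithin_le_nhds
  have t0 : Tendsto (fun δ : ℂ => b 0 + δ) l (𝓝 (b 0)) := by
    simpa using hδ.const_add (b 0)
  have tQ : Tendsto (fun δ : ℂ => -((b 0 + δ) ^ 4 + b 1 ^ 4)) l (𝓝 (b 2 ^ 4)) := by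
    have h1 := ((t0.pow 4).add_const (b 1 ^ 4)).neg
    have : -(b 0 ^ 4 + b 1 ^ 4) = b 2 ^ 4 := by linear_combination -e1
    rw [this] at h1
    exact h1
  obtain ⟨β', hβ1, hβ2⟩ := root_fun tQ
  have hlim := (tendsto_vec t0 (tendsto_const_nhds (x := b 1)) hβ2).prodMk_nhds
    (tendsto_const_nhds (x := x))
  have hbx : ((![b 0, b 1, b 2] : Fin 3 → ℂ), x) = (b, x) := by
    congr 1
    funext k
    fin_cases k <;> rfl
  rw [hbx] at hlim
  refine isClosed_closure.mem_of_tendsto hlim ?_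
  filter_upwards [hev] with δ hδ1
  have hβ0 : β' δ ≠ 0 := by
    intro h0
    have := hβ1 δ
    rw [h0] at this
    apply hδ1
    have e3 : b 2 ^ 4 = 0 := by rw [hb2]; norm_num
    linear_combination this - e1 + e3
  refine case3 hS _ x ((mem_iff _ _).2 ⟨vec_ne hβ0, hx, ?_, ?_⟩) hA hG (by simpa using hβ0)
  · simp only [Matrix.cons_val_zero, Matrix.cons_val_one, Matrix.cons_val]
    rw [hβ1 δ]
    ring
  · rw [hA, hG]
    ring

end DEN

theorem t_DEN : S_DEN := by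
  intro hS hU b x h
  by_cases hAG : af x = 0 ∧ gf x = 0
  · by_cases hb2 : b 2 = 0
    · exact DEN.case1 hS b x h hAG.1 hAG.2 hb2
    · exact DEN.case3 hS b x h hAG.1 hAG.2 hb2
  · exact DEN.case2 hU b x h hAG

end Pool.Agent.Q22.CN

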