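import Pool.Agent.Q22.CN.TRD

/-!
# Project CN (helper22), job DEX: there is a nonzero derivation
-/

set_option autoImplicit false

namespace Pool.Agent.Q22.CN

open Pool.Agent.TH144.CN
open scoped KaehlerDifferential

theorem t_DEX : S_DEX := by
  intro K _ _ y s hF
  by_contra hne
  push Not at hne
  have hsub : Subsingleton (Ω[K⁄ℂ]) := by
    refine ⟨fun a b => ?_⟩
    rw [← sub_eq_zero, ← Module.forall_dual_apply_eq_zero_iff K]
    intro φ
    have h0 : (KaehlerDifferential.linearMapEquivDerivation ℂ K (M := K)) φ = 0 := hne _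
    have : φ = 0 := by simpa using h0
    rw [this]; rfl
  have hu : Algebra.FormallyUnramified ℂ K := ⟨hsub⟩
  have hess : Algebra.EssFiniteType ℂ K := by
    rw [← IntermediateField.fg_top_iff]
    classical
    exact ⟨{y, s}, by simpa using hF.gen⟩
  have hsep := (Algebra.FormallyUnramified.iff_isSeparable ℂ K).mp hu
  have halg : Algebra.IsAlgebraic ℂ K := inferInstance
  have h1 := t_TRD K y s hF
  have h0 : Algebra.trdeg ℂ K = 0 := by
    exact trdeg_eq_zero
  rw [h0] at h1; exact zero_ne_one h1

end Pool.Agent.Q22.CN
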