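import Pool.Agent.Q22.CN.Stm

/-!
Job CN-DOR: orders of derivatives at a point with `q ≠ 0`.
-/

set_option autoImplicit false

open MvPolynomial Metric Set Topology Filter

namespace Pool.Agent.Q22.CN

open Pool.Agent.TH144.CN

namespace DOR

variable {K : Type} [Field K] [Algebra ℂ K] (P : Place K)

theorem ord_one : P.ord 1 = 0 := by
  have := P.ord_const (c := 1) one_ne_zero
  rwa [map_one] at this

theorem ord_neg (f : K) : P.ord (-f) = P.ord f := by
  by_cases hf : f = 0
  · rw [hf, neg_zero]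
  · have h1 : P.ord (-1 : K) = 0 := by
      have := P.ord_const (c := -1) (by norm_num)
      rwa [map_neg, map_one] at this
    rw [neg_eq_neg_one_mul, P.ord_mul (by norm_num) hf, h1, zero_add]

theorem ord_inv {f : K} (hf : f ≠ 0) : P.ord f⁻¹ = - P.ord f := by
  have h := P.ord_mul hf (inv_ne_zero hf)
  rw [mul_inv_cancel₀ hf, ord_one] at h
  linarith

theorem ord_pow {f : K} (hf : f ≠ 0) (n : ℕ) : P.ord (f ^ n) = n * P.ord f := by
  induction n with
  | zero => simp [ord_one]
  | succ n ih =>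
    rw [pow_succ, P.ord_mul (pow_ne_zero _ hf) hf, ih]
    push_cast
    ring

theorem ord_zpow {f : K} (hf : f ≠ 0) (n : ℤ) : P.ord (f ^ n) = n * P.ord f := by
  cases n with
  | ofNat n =>
    rw [Int.ofNat_eq_natCast, zpow_natCast, ord_pow P hf]
  | negSucc n =>
    rw [zpow_negSucc, ord_inv P (pow_ne_zero _ hf), ord_pow P hf, Int.negSucc_eq]
    push_cast
    ring

/-- the elements of nonnegative order -/
def O (f : K) : Prop := f = 0 ∨ 0 ≤ P.ord f

/-- the elements of positive order -/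
def M (f : K) : Prop := f = 0 ∨ 1 ≤ P.ord f

theorem O_add {f g : K} (hf : O P f) (hg : O P g) : O P (f + g) := by
  by_cases f0 : f = 0
  · rw [f0, zero_add]
    exact hg
  by_cases g0 : g = 0
  · rw [g0, add_zero]
    exact hf
  by_cases h : f + g = 0
  · exact Or.inl h
  right
  exact le_trans (le_min (hf.resolve_left f0) (hg.resolve_left g0)) (P.ord_add f0 g0 h)

theorem M_add {f g : K} (hf : M P f) (hg : M P g) : M P (f + g) := by
  by_cases f0 : f = 0
  · rw [f0, zero_add]
    exact hg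
  by_cases g0 : g = 0
  · rw [g0, add_zero]
    exact hf
  by_cases h : f + g = 0
  · exact Or.inl h
  right
  exact le_trans (le_min (hf.resolve_left f0) (hg.resolve_left g0)) (P.ord_add f0 g0 h)

theorem O_mul {f g : K} (hf : O P f) (hg : O P g) : O P (f * g) := by
  by_cases f0 : f = 0
  · rw [f0, zero_mul]
    exact Or.inl rfl
  by_cases g0 : g = 0
  · rw [g0, mul_zero]
    exact Or.inl rfl
  right
  rw [P.ord_mul f0 g0]
  exact add_nonneg (hf.resolve_left f0) (hg.resolve_left g0)

theorem O_neg {f : K} (hf : O P f) : O P (-f) := by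
  rcases hf with h | h
  · exact Or.inl (by rw [h, neg_zero])
  · exact Or.inr (by rw [ord_neg]; exact h)

theorem M_neg {f : K} (hf : M P f) : M P (-f) := by
  rcases hf with h | h
  · exact Or.inl (by rw [h, neg_zero])
  · exact Or.inr (by rw [ord_neg]; exact h)

theorem M_mul {f g : K} (hf : M P f) (hg : O P g) : M P (f * g) := by
  by_cases f0 : f = 0
  · rw [f0, zero_mul]
    exact Or.inl rfl
  by_cases g0 : g = 0
  · rw [g0, mul_zero]
    exact Or.inl rfl
  right
  rw [P.ord_mul f0 g0]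
  have h1 := hf.resolve_left f0
  have h2 := hg.resolve_left g0
  linarith

theorem O_const (c : ℂ) : O P (algebraMap ℂ K c) := by
  by_cases h : c = 0
  · exact Or.inl (by rw [h, map_zero])
  · exact Or.inr (by rw [P.ord_const h])

/-- nonnegative order, and the derivative is a multiple of `D y` by such an element -/
def Q (D : Derivation ℂ K K) (y f : K) : Prop := O P f ∧ ∃ T, O P T ∧ D f = T * D y

theorem Q_add {D : Derivation ℂ K K} {y f g : K} (hf : Q P D y f) (hg : Q P D y g) :
    Q P D y (f + g) := by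
  obtain ⟨hf, T, hT, e⟩ := hf
  obtain ⟨hg, U, hU, e'⟩ := hg
  refine ⟨O_add P hf hg, T + U, O_add P hT hU, ?_⟩
  rw [map_add, e, e']
  ring

theorem Q_mul {D : Derivation ℂ K K} {y f g : K} (hf : Q P D y f) (hg : Q P D y g) :
    Q P D y (f * g) := by
  obtain ⟨hf, T, hT, e⟩ := hf
  obtain ⟨hg, U, hU, e'⟩ := hg
  refine ⟨O_mul P hf hg, f * U + g * T, O_add P (O_mul P hf hU) (O_mul P hg hT), ?_⟩
  rw [Derivation.leibniz, e, e', smul_eq_mul, smul_eq_mul]
  ring

theorem Q_inv {D : Derivation ℂ K K} {y f : K} (hf : Q P D y f) (h0 : f ≠ 0)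
    (h : P.ord f = 0) : Q P D y f⁻¹ := by
  obtain ⟨-, T, hT, e⟩ := hf
  have hi : O P f⁻¹ := Or.inr (by rw [ord_inv P h0, h, neg_zero])
  refine ⟨hi, -(f⁻¹ * f⁻¹ * T), O_neg P (O_mul P (O_mul P hi hi) hT), ?_⟩
  rw [Derivation.leibniz_inv, e, smul_eq_mul]
  ring

theorem Q_const (D : Derivation ℂ K K) (y : K) (c : ℂ) : Q P D y (algebraMap ℂ K c) := by
  refine ⟨O_const P c, 0, Or.inl rfl, ?_⟩
  rw [Derivation.map_algebraMap, zero_mul]

theorem Q_poly {D : Derivation ℂ K K} {y s : K} (hy : Q P D y y) (hs : Q P D y s)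
    (g : MvPolynomial (Fin 2) ℂ) : Q P D y (aeval ![y, s] g) := by
  induction g using MvPolynomial.induction_on with
  | C c =>
    rw [aeval_C]
    exact Q_const P D y c
  | add a b ha hb =>
    rw [map_add]
    exact Q_add P ha hb
  | mul_X a i ha =>
    rw [map_mul, aeval_X]
    apply Q_mul P ha
    fin_cases i
    · exact hy
    · exact hs

end DOR

open DOR in
theorem t_DOR : S_DOR := by
  intro hRAT hLOC hDRE K _ _ y s hK P p q hq hpq hat D hD
  obtain ⟨h1, -, h3, h4⟩ := hLOC hRAT K y s hK P p q hq hpq hat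
  obtain ⟨hDy, hDs, hrel⟩ := hDRE hRAT K y s hK D hD
  have hyp0 : y - algebraMap ℂ K p ≠ 0 := by
    intro h
    rw [h, P.ord_zero] at h1
    exact absurd h1 (by norm_num)
  have hs := h3 (X 1) (by simpa using hq)
  have hs' : aeval ![y, s] (X 1 : MvPolynomial (Fin 2) ℂ) = s := by simp
  rw [hs'] at hs
  obtain ⟨hs0, hs1⟩ := hs
  have hDyp : D (y - algebraMap ℂ K p) = D y := by
    rw [map_sub, Derivation.map_algebraMap, sub_zero]
  have hyO : O P y := by
    have : y = (y - algebraMap ℂ K p) + algebraMap ℂ K p := by ring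
    rw [this]
    exact O_add P (Or.inr (by rw [h1]; norm_num)) (O_const P p)
  have hyQ : Q P D y y := ⟨hyO, 1, Or.inr (by rw [ord_one]), by rw [one_mul]⟩
  have hsi : O P s⁻¹ := Or.inr (by rw [ord_inv P hs0, hs1, neg_zero])
  have hpw : ∀ (f : K) (n : ℕ), O P f → O P (f ^ n) := by
    intro f n hf
    induction n with
    | zero => rw [pow_zero]; exact Or.inr (by rw [ord_one])
    | succ n ih => rw [pow_succ]; exact O_mul P ih hf
  have hsQ : Q P D y s := by
    refine ⟨Or.inr (by rw [hs1]), -(s⁻¹ ^ 15 * y ^ 15),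
      O_neg P (O_mul P (hpw _ _ hsi) (hpw _ _ hyO)), ?_⟩
    have h15 : s ^ 15 ≠ 0 := pow_ne_zero _ hs0
    apply mul_left_cancel₀ h15
    rw [hrel]
    have : s ^ 15 * (-(s⁻¹ ^ 15 * y ^ 15) * D y) = -((s ^ 15 * s⁻¹ ^ 15) * (y ^ 15 * D y)) := by
      ring
    rw [this, inv_pow, mul_inv_cancel₀ h15, one_mul]
  -- decomposition
  have key : ∀ f : K, f ≠ 0 → ∃ r T : K, r ≠ 0 ∧ P.ord r = 0 ∧ O P T ∧ D r = T * D y ∧
      f = (y - algebraMap ℂ K p) ^ (P.ord f) * r := by
    intro f hf
    obtain ⟨u, w, hu, hw, e⟩ := h4 f hf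
    obtain ⟨hu0, hu1⟩ := h3 u hu
    obtain ⟨hw0, hw1⟩ := h3 w hw
    obtain ⟨-, T, hT, eT⟩ := Q_mul P (Q_poly P hyQ hsQ u) (Q_inv P (Q_poly P hyQ hsQ w) hw0 hw1)
    refine ⟨aeval ![y, s] u * (aeval ![y, s] w)⁻¹, T, mul_ne_zero hu0 (inv_ne_zero hw0), ?_, hT,
      eT, ?_⟩
    · rw [P.ord_mul hu0 (inv_ne_zero hw0), ord_inv P hw0, hu1, hw1]
      norm_num
    · rw [← mul_assoc, ← div_eq_mul_inv]
      exact e
  constructor
  · intro f hf hord
    obtain ⟨r, T, hr0, hr1, hT, eT, e⟩ := key f hf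
    have hDf : D f = (y - algebraMap ℂ K p) ^ (P.ord f - 1) * D y *
        ((P.ord f : K) * r + (y - algebraMap ℂ K p) * T) := by
      have h5 : D f = D ((y - algebraMap ℂ K p) ^ (P.ord f) * r) := congrArg D e
      rw [h5, Derivation.leibniz, Derivation.leibniz_zpow, hDyp, eT, smul_eq_mul, smul_eq_mul,
        smul_eq_mul, zsmul_eq_mul]
      have h6 : (y - algebraMap ℂ K p) ^ (P.ord f) =
          (y - algebraMap ℂ K p) ^ (P.ord f - 1) * (y - algebraMap ℂ K p) := by
        rw [zpow_sub_one₀ hyp0, inv_mul_cancel_right₀ hyp0]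
      rw [h6]
      ring
    have hk0 : (P.ord f : ℂ) ≠ 0 := by exact_mod_cast hord
    have hk : (P.ord f : K) = algebraMap ℂ K (P.ord f : ℂ) := by rw [map_intCast]
    have hkr0 : (P.ord f : K) * r ≠ 0 := by
      rw [hk]
      exact mul_ne_zero ((map_ne_zero (algebraMap ℂ K)).2 hk0) hr0
    have hkr : P.ord ((P.ord f : K) * r) = 0 := by
      have h7 : algebraMap ℂ K (P.ord f : ℂ) ≠ 0 := (map_ne_zero (algebraMap ℂ K)).2 hk0
      rw [hk, P.ord_mul h7 hr0, hr1, P.ord_const hk0, add_zero]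
    have hM : M P ((y - algebraMap ℂ K p) * T) := M_mul P (Or.inr (by rw [h1])) hT
    have hS0 : (P.ord f : K) * r + (y - algebraMap ℂ K p) * T ≠ 0 := by
      intro h
      have h8 : (P.ord f : K) * r = -((y - algebraMap ℂ K p) * T) := eq_neg_of_add_eq_zero_left h
      have h9 := M_neg P hM
      rw [← h8] at h9
      rcases h9 with h9 | h9
      · exact hkr0 h9
      · rw [hkr] at h9
        exact absurd h9 (by norm_num)
    have hS1 : P.ord ((P.ord f : K) * r + (y - algebraMap ℂ K p) * T) = 0 := by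
      apply le_antisymm
      · by_contra hcon
        push Not at hcon
        have h8 : (P.ord f : K) * r = ((P.ord f : K) * r + (y - algebraMap ℂ K p) * T) +
            -((y - algebraMap ℂ K p) * T) := by ring
        have h9 := M_add P (Or.inr hcon) (M_neg P hM)
        rw [← h8] at h9
        rcases h9 with h9 | h9
        · exact hkr0 h9
        · rw [hkr] at h9
          exact absurd h9 (by norm_num)
      · have hO : O P ((y - algebraMap ℂ K p) * T) := by
          rcases hM with h | h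
          · exact Or.inl h
          · exact Or.inr (le_trans (by norm_num) h)
        exact (O_add P (Or.inr (by rw [hkr])) hO).resolve_left hS0
    refine ⟨?_, ?_⟩
    · rw [hDf]
      exact mul_ne_zero (mul_ne_zero (zpow_ne_zero _ hyp0) hDy) hS0
    · rw [hDf, P.ord_mul (mul_ne_zero (zpow_ne_zero _ hyp0) hDy) hS0,
        P.ord_mul (zpow_ne_zero _ hyp0) hDy, ord_zpow P hyp0, h1, hS1]
      ring
  · intro f hf hord
    obtain ⟨r, T, hr0, hr1, hT, eT, e⟩ := key f hf
    rw [hord, zpow_zero, one_mul] at e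
    rw [e, eT]
    rcases hT with h | h
    · left
      rw [h, zero_mul]
    · by_cases hT0 : T = 0
      · left
        rw [hT0, zero_mul]
      · right
        rw [P.ord_mul hT0 hDy]
        linarith

end Pool.Agent.Q22.CN
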