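import Pool.Agent.Q22.CN.Stm

/-! Job CN-DRE: relations for a derivation. -/

set_option autoImplicit false

open MvPolynomial Metric Set Topology Filter

namespace Pool.Agent.Q22.CN

open Pool.Agent.TH144.CN

namespace DRE

variable {K : Type} [Field K] [Algebra ℂ K] {y s : K}

lemma root : ∃ r : ℂ, r ^ 16 = -1 ∧ r ≠ 0 := by
  obtain ⟨r, hr⟩ := IsAlgClosed.exists_pow_nat_eq (-1 : ℂ) (show 0 < 16 by norm_num)
  refine ⟨r, hr, ?_⟩
  rintro rfl
  norm_num at hr

lemma s_ne (h : FK K y s) : s ≠ 0 := by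
  intro hs
  obtain ⟨r, hr, hr0⟩ := root
  have h1 := (h.van (X 1)).1 (by simpa using hs) 0 r (by rw [hr]; norm_num)
  simp at h1
  exact hr0 h1

lemma y_ne (h : FK K y s) : y ≠ 0 := by
  intro hs
  obtain ⟨r, hr, hr0⟩ := root
  have h1 := (h.van (X 0)).1 (by simpa using hs) r 0 (by rw [hr]; norm_num)
  simp at h1
  exact hr0 h1

lemma zero_of (hR : S_RAT) (h : FK K y s) (D : Derivation ℂ K K) (hy : D y = 0) (hs : D s = 0) :
    D = 0 := by
  have hp : ∀ g : MvPolynomial (Fin 2) ℂ, D (aeval ![y, s] g) = 0 := by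
    intro g
    induction g using MvPolynomial.induction_on with
    | C a => simp
    | add p q hp hq => simp [hp, hq]
    | mul_X p i hp =>
      rw [map_mul, Derivation.leibniz, hp, aeval_X]
      fin_cases i <;> simp [hy, hs]
  ext f
  obtain ⟨g, w, hw, rfl⟩ := hR K y s h f
  rw [Derivation.leibniz_div, hp, hp]
  simp

end DRE

open DRE in
theorem t_DRE : S_DRE := by
  intro hR K _ _ y s h D hD
  have : CharZero K := charZero_of_injective_algebraMap (algebraMap ℂ K).injective
  have h1 : D (y ^ 16 + s ^ 16 + 1) = 0 := by rw [h.eqn, map_zero]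
  rw [map_add, map_add, Derivation.leibniz_pow, Derivation.leibniz_pow, Derivation.map_one_eq_zero,
    add_zero] at h1
  have h2 : (16 : K) * (y ^ 15 * D y + s ^ 15 * D s) = 0 := by
    simp only [nsmul_eq_mul, smul_eq_mul, Nat.cast_ofNat] at h1
    norm_num at h1
    linear_combination h1
  have h3 : y ^ 15 * D y + s ^ 15 * D s = 0 := by
    rcases mul_eq_zero.1 h2 with h4 | h4
    · exact absurd h4 (by norm_num)
    · exact h4
  refine ⟨fun hy => ?_, fun hs => ?_, by linear_combination h3⟩
  · apply hD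
    rw [hy, mul_zero, zero_add] at h3
    rcases mul_eq_zero.1 h3 with h4 | h4
    · exact absurd h4 (pow_ne_zero _ (s_ne h))
    · exact zero_of hR h D hy h4
  · apply hD
    rw [hs, mul_zero, add_zero] at h3
    rcases mul_eq_zero.1 h3 with h4 | h4
    · exact absurd h4 (pow_ne_zero _ (y_ne h))
    · exact zero_of hR h D h4 hs

end Pool.Agent.Q22.CN
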