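import Pool.Agent.Q22.CN.Stm

/-! # CN: existence of the place over a point of the Fermat curve -/

set_option autoImplicit false

open MvPolynomial Metric Set Topology Filter

namespace Pool.Agent.Q22.CN

open Pool.Agent.TH144.CN

namespace EXI

/-! ### A relation over `ℂ[y]` -/

theorem relation {K : Type} [Field K] [Algebra ℂ K] {y s : K} (hF : FK K y s) (h : MvPolynomial (Fin 2) ℂ)
    (hh : aeval ![y, s] h ≠ 0) : ∃ a : Polynomial ℂ, a ≠ 0 ∧ ∃ w : MvPolynomial (Fin 2) ℂ,
      aeval ![y, s] (h * w) = Polynomial.aeval y a := by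
  set B := Algebra.adjoin ℂ ({y} : Set K) with hB
  have hyB : y ∈ B := Algebra.subset_adjoin rfl
  have hs : IsIntegral B s := by
    refine ⟨Polynomial.X ^ 16 + Polynomial.C (⟨y, hyB⟩ ^ 16 + 1), Polynomial.monic_X_pow_add_C _ (by norm_num), ?_⟩
    rw [Polynomial.eval₂_add, Polynomial.eval₂_pow, Polynomial.eval₂_X, Polynomial.eval₂_C]
    have := hF.eqn
    rw [map_add, map_pow, map_one]
    show s ^ 16 + (y ^ 16 + 1) = 0
    linear_combination this
  have hy : IsIntegral B y := isIntegral_algebraMap (R := B) (x := ⟨y, hyB⟩)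
  have hint : ∀ g : MvPolynomial (Fin 2) ℂ, IsIntegral B (aeval ![y, s] g) := by
    intro g
    induction g using MvPolynomial.induction_on with
    | C c =>
      rw [aeval_C]
      exact isIntegral_algebraMap (R := B) (x := algebraMap ℂ B c)
    | add f g hf hg => rw [map_add]; exact hf.add hg
    | mul_X f i hf =>
      rw [map_mul, aeval_X]
      refine hf.mul ?_
      fin_cases i
      · exact hy
      · exact hs
  obtain ⟨q, hq0, hq⟩ := ((hint h).isAlgebraic).exists_nonzero_coeff_and_aeval_eq_zero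
    (mem_nonZeroDivisors_of_ne_zero hh)
  have hBr : ∀ b : B, ∃ a : Polynomial ℂ, Polynomial.aeval y a = (b : K) := by
    intro b
    have h1 : (b : K) ∈ Algebra.adjoin ℂ ({y} : Set K) := b.2
    rw [Algebra.adjoin_singleton_eq_range_aeval] at h1
    exact h1
  obtain ⟨a, ha⟩ := hBr (q.coeff 0)
  have hBR : ∀ b : B, ∃ w : MvPolynomial (Fin 2) ℂ, aeval ![y, s] w = (b : K) := by
    intro b
    obtain ⟨a, ha⟩ := hBr b
    refine ⟨Polynomial.aeval (X 0) a, ?_⟩
    rw [← Polynomial.aeval_algHom_apply, aeval_X, ← ha]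
    rfl
  have hw : ∀ r : Polynomial B, ∃ w : MvPolynomial (Fin 2) ℂ, aeval ![y, s] w = Polynomial.aeval (aeval ![y, s] h) r := by
    intro r
    induction r using Polynomial.induction_on' with
    | add f g hf hg =>
      obtain ⟨w1, h1⟩ := hf
      obtain ⟨w2, h2⟩ := hg
      exact ⟨w1 + w2, by rw [map_add, map_add, h1, h2]⟩
    | monomial n b =>
      obtain ⟨w1, h1⟩ := hBR b
      exact ⟨w1 * h ^ n, by rw [map_mul, map_pow, h1, Polynomial.aeval_monomial]; rfl⟩
  obtain ⟨w, hw⟩ := hw q.divX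
  refine ⟨a, ?_, -w, ?_⟩
  · rintro rfl
    apply hq0
    rw [map_zero] at ha
    exact Subtype.ext ha.symm
  · rw [map_mul, map_neg, hw, ha]
    have h1 := hq
    rw [← Polynomial.divX_mul_X_add q, map_add, map_mul, Polynomial.aeval_X, Polynomial.aeval_C] at h1
    have h2 : algebraMap B K (q.coeff 0) = (q.coeff 0 : K) := rfl
    rw [h2] at h1
    linear_combination -h1

/-! ### The branch -/

/-- the branch of the curve over a neighbourhood of `p` -/
noncomputable def sg (p q : ℂ) (z : ℂ) : ℂ := q * Complex.exp (Complex.log ((1 + z ^ 16) / (1 + p ^ 16)) / 16)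

theorem one_add_ne {p q : ℂ} (hq : q ≠ 0) (hpq : p ^ 16 + q ^ 16 + 1 = 0) : 1 + p ^ 16 ≠ 0 := by
  intro h
  have : q ^ 16 = 0 := by linear_combination hpq - h
  exact hq (pow_eq_zero_iff (by norm_num) |>.1 this)

theorem sg_self {p q : ℂ} (hq : q ≠ 0) (hpq : p ^ 16 + q ^ 16 + 1 = 0) : sg p q p = q := by
  unfold sg
  rw [div_self (one_add_ne hq hpq), Complex.log_one, zero_div, Complex.exp_zero, mul_one]

theorem sg_an {p q : ℂ} (hq : q ≠ 0) (hpq : p ^ 16 + q ^ 16 + 1 = 0) : AnalyticAt ℂ (sg p q) p := by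
  have h0 := one_add_ne hq hpq
  have h1 : AnalyticAt ℂ (fun z : ℂ => (1 + z ^ 16) / (1 + p ^ 16)) p := by
    have : AnalyticAt ℂ (fun z : ℂ => 1 + z ^ 16) p := by fun_prop
    exact this.fun_div analyticAt_const h0
  have h2 : AnalyticAt ℂ (fun z : ℂ => Complex.log ((1 + z ^ 16) / (1 + p ^ 16))) p := by
    apply h1.clog
    rw [div_self h0]
    exact Complex.one_mem_slitPlane
  have h3 : AnalyticAt ℂ (fun z : ℂ => Complex.exp (Complex.log ((1 + z ^ 16) / (1 + p ^ 16)) / 16)) p :=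
    (h2.fun_div analyticAt_const (by norm_num)).cexp
  exact analyticAt_const.fun_mul h3

theorem sg_eq {p q : ℂ} (hq : q ≠ 0) (hpq : p ^ 16 + q ^ 16 + 1 = 0) :
    ∀ᶠ z in 𝓝 p, z ^ 16 + sg p q z ^ 16 + 1 = 0 := by
  have h0 := one_add_ne hq hpq
  have h1 : ∀ᶠ z : ℂ in 𝓝 p, 1 + z ^ 16 ≠ 0 :=
    ContinuousAt.eventually_ne (by fun_prop) h0
  filter_upwards [h1] with z hz
  unfold sg
  rw [mul_pow, ← Complex.exp_nat_mul]
  have e1 : ((16 : ℕ) : ℂ) * (Complex.log ((1 + z ^ 16) / (1 + p ^ 16)) / 16) =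
      Complex.log ((1 + z ^ 16) / (1 + p ^ 16)) := by
    push_cast
    ring
  rw [e1, Complex.exp_log (div_ne_zero hz h0)]
  have e2 : q ^ 16 = - (1 + p ^ 16) := by linear_combination hpq
  rw [e2]
  field_simp
  ring

/-- evaluation along the branch -/
noncomputable def E (p q : ℂ) (g : MvPolynomial (Fin 2) ℂ) (z : ℂ) : ℂ := aeval ![z, sg p q z] g

theorem E_mul (p q : ℂ) (g h : MvPolynomial (Fin 2) ℂ) : E p q (g * h) = fun z => E p q g z * E p q h z := by
  funext z
  exact map_mul _ _ _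

theorem E_an {p q : ℂ} (hq : q ≠ 0) (hpq : p ^ 16 + q ^ 16 + 1 = 0) (g : MvPolynomial (Fin 2) ℂ) :
    AnalyticAt ℂ (E p q g) p := by
  have h := AnalyticAt.aeval_mvPolynomial (𝕜 := ℂ) (f := fun z : ℂ => ![z, sg p q z]) (z := p) (fun i => by
    fin_cases i
    · exact analyticAt_id
    · exact sg_an hq hpq) g
  exact h

theorem E_zero {K : Type} [Field K] [Algebra ℂ K] {y s : K} (hF : FK K y s) {p q : ℂ} (hq : q ≠ 0)
    (hpq : p ^ 16 + q ^ 16 + 1 = 0) {g : MvPolynomial (Fin 2) ℂ} (hg : aeval ![y, s] g = 0) :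
    ∀ᶠ z in 𝓝 p, E p q g z = 0 := by
  filter_upwards [sg_eq hq hpq] with z hz
  have h := (hF.van g).1 hg z (sg p q z) hz
  exact (DFunLike.congr_fun (coe_aeval_eq_eval ![z, sg p q z]) g).trans h

theorem E_ne {K : Type} [Field K] [Algebra ℂ K] {y s : K} (hF : FK K y s) {p q : ℂ} (hq : q ≠ 0)
    (hpq : p ^ 16 + q ^ 16 + 1 = 0) {h : MvPolynomial (Fin 2) ℂ} (hh : aeval ![y, s] h ≠ 0) :
    ∀ᶠ z in 𝓝[≠] p, E p q h z ≠ 0 := by
  rcases (E_an hq hpq h).eventually_eq_zero_or_eventually_ne_zero with h0 | h0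
  · exfalso
    obtain ⟨a, ha, w, hw⟩ := relation hF h hh
    have h1 : aeval ![y, s] (h * w - Polynomial.aeval (X 0) a) = 0 := by
      rw [map_sub, hw, ← Polynomial.aeval_algHom_apply, aeval_X]
      exact sub_self _
    have h2 := E_zero hF hq hpq h1
    have h3 : ∀ᶠ z in 𝓝 p, a.eval z = 0 := by
      filter_upwards [h0, h2] with z hz hz2
      unfold E at hz hz2
      rw [map_sub, map_mul, hz, zero_mul, zero_sub, ← Polynomial.aeval_algHom_apply, aeval_X, neg_eq_zero] at hz2
      have h4 : (![z, sg p q z] : Fin 2 → ℂ) 0 = z := rfl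
      rw [h4, Polynomial.coe_aeval_eq_eval] at hz2
      exact hz2
    have h5 : {z | a.IsRoot z}.Infinite := infinite_of_mem_nhds p h3
    exact ha (Polynomial.eq_zero_of_infinite_isRoot a h5)
  · exact h0

/-! ### The order -/

section order

variable {K : Type} [Field K] [Algebra ℂ K] {y s : K} (hF : FK K y s) {p q : ℂ} (hq : q ≠ 0)
  (hpq : p ^ 16 + q ^ 16 + 1 = 0)

/-- `F` is the function defined by the element `f` on the branch -/
def Rep (y s : K) (p q : ℂ) (f : K) (F : ℂ → ℂ) : Prop :=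
  ∃ g h : MvPolynomial (Fin 2) ℂ, aeval ![y, s] h ≠ 0 ∧ f = aeval ![y, s] g / aeval ![y, s] h ∧
    F = fun z => E p q g z / E p q h z

include hF hq hpq in
theorem Rep.uniq {f : K} {F F' : ℂ → ℂ} (h1 : Rep y s p q f F) (h2 : Rep y s p q f F') : F =ᶠ[𝓝[≠] p] F' := by
  obtain ⟨g, h, hh, e, rfl⟩ := h1
  obtain ⟨g', h', hh', e', rfl⟩ := h2
  rw [e, div_eq_div_iff hh hh'] at e'
  have h3 : aeval ![y, s] (g * h' - g' * h) = 0 := by
    rw [map_sub, map_mul, map_mul, e', sub_self]
  have h4 := (E_zero hF hq hpq h3).filter_mono (nhdsWithin_le_nhds (s := {p}ᶜ))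
  filter_upwards [h4, E_ne hF hq hpq hh, E_ne hF hq hpq hh'] with z a b c
  rw [div_eq_div_iff b c]
  have a' : E p q g z * E p q h' z - E p q g' z * E p q h z = 0 := by
    have := a
    unfold E at this ⊢
    rw [map_sub, map_mul, map_mul] at this
    exact this
  linear_combination a'

theorem Rep.mero {f : K} {F : ℂ → ℂ} (hq : q ≠ 0) (hpq : p ^ 16 + q ^ 16 + 1 = 0) (h1 : Rep y s p q f F) :
    MeromorphicAt F p := by
  obtain ⟨g, h, hh, e, rfl⟩ := h1
  exact (E_an hq hpq g).meromorphicAt.fun_div (E_an hq hpq h).meromorphicAt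

include hF hq hpq in
theorem Rep.ne_top {f : K} (hf : f ≠ 0) {F : ℂ → ℂ} (h1 : Rep y s p q f F) : meromorphicOrderAt F p ≠ ⊤ := by
  rw [meromorphicOrderAt_ne_top_iff_eventually_ne_zero (h1.mero hq hpq)]
  obtain ⟨g, h, hh, e, rfl⟩ := h1
  have hg : aeval ![y, s] g ≠ 0 := by
    intro h0
    apply hf
    rw [e, h0, zero_div]
  filter_upwards [E_ne hF hq hpq hh, E_ne hF hq hpq hg] with z a b
  exact div_ne_zero b a

theorem Rep.mul {f f' : K} {F F' : ℂ → ℂ} (h1 : Rep y s p q f F) (h2 : Rep y s p q f' F') :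
    Rep y s p q (f * f') (F * F') := by
  obtain ⟨g, h, hh, e, rfl⟩ := h1
  obtain ⟨g', h', hh', e', rfl⟩ := h2
  refine ⟨g * g', h * h', ?_, ?_, ?_⟩
  · rw [map_mul]; exact mul_ne_zero hh hh'
  · rw [e, e', map_mul, map_mul, div_mul_div_comm]
  · funext z
    rw [E_mul, E_mul]
    exact div_mul_div_comm _ _ _ _

theorem Rep.add {f f' : K} {F F' : ℂ → ℂ} (hF : FK K y s) (hq : q ≠ 0) (hpq : p ^ 16 + q ^ 16 + 1 = 0)
    (h1 : Rep y s p q f F) (h2 : Rep y s p q f' F') :
    ∃ G, Rep y s p q (f + f') G ∧ G =ᶠ[𝓝[≠] p] F + F' := by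
  obtain ⟨g, h, hh, e, rfl⟩ := h1
  obtain ⟨g', h', hh', e', rfl⟩ := h2
  refine ⟨_, ⟨g * h' + h * g', h * h', ?_, ?_, rfl⟩, ?_⟩
  · rw [map_mul]; exact mul_ne_zero hh hh'
  · rw [e, e', map_add, map_mul, map_mul, map_mul, div_add_div _ _ hh hh']
  · filter_upwards [E_ne hF hq hpq hh, E_ne hF hq hpq hh'] with z a b
    have e1 : E p q (g * h' + h * g') z = E p q g z * E p q h' z + E p q h z * E p q g' z := by
      unfold E
      rw [map_add, map_mul, map_mul]
    rw [e1, E_mul]
    exact (div_add_div _ _ a b).symm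

theorem Rep.poly (g : MvPolynomial (Fin 2) ℂ) : Rep y s p q (aeval ![y, s] g) (E p q g) := by
  refine ⟨g, 1, ?_, ?_, ?_⟩
  · rw [map_one]; exact one_ne_zero
  · rw [map_one, div_one]
  · funext z
    have : E p q 1 z = 1 := by unfold E; exact map_one _
    rw [this, div_one]

theorem Rep.ex (hR : S_RAT) (hF : FK K y s) (p q : ℂ) (f : K) : ∃ F, Rep y s p q f F := by
  obtain ⟨g, h, hh, e⟩ := hR K y s hF f
  exact ⟨_, g, h, hh, e, rfl⟩

end order

theorem main (hR : S_RAT) (K : Type) [Field K] [Algebra ℂ K] (y s : K) (hF : FK K y s) (p q : ℂ) (hq : q ≠ 0)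
    (hpq : p ^ 16 + q ^ 16 + 1 = 0) : ∃ P : Place K, At y s P p q := by
  choose F hFr using Rep.ex hR hF p q
  have key : ∀ {f : K} {G : ℂ → ℂ}, Rep y s p q f G → meromorphicOrderAt (F f) p = meromorphicOrderAt G p :=
    fun h => meromorphicOrderAt_congr ((hFr _).uniq hF hq hpq h)
  have hnt : ∀ f : K, f ≠ 0 → meromorphicOrderAt (F f) p ≠ ⊤ := fun f hf => (hFr f).ne_top hF hq hpq hf
  have hco : ∀ f : K, f ≠ 0 → (((meromorphicOrderAt (F f) p).untopD 0 : ℤ) : WithTop ℤ) = meromorphicOrderAt (F f) p := by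
    intro f hf
    obtain ⟨n, hn⟩ := WithTop.ne_top_iff_exists.1 (hnt f hf)
    rw [← hn]
    rfl
  have hy : meromorphicOrderAt (F (y - algebraMap ℂ K p)) p = 1 := by
    have h1 : Rep y s p q (y - algebraMap ℂ K p) (E p q (X 0 - C p)) := by
      have h2 := Rep.poly (y := y) (s := s) (p := p) (q := q) (X 0 - C p)
      rw [map_sub, aeval_X, aeval_C] at h2
      exact h2
    rw [key h1]
    have h3 : E p q (X 0 - C p) = fun z => z - p := by
      funext z
      unfold E
      rw [map_sub, aeval_X, aeval_C]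
      rfl
    rw [h3]
    exact meromorphicOrderAt_id_sub_const
  have hs : 0 < (meromorphicOrderAt (F (s - algebraMap ℂ K q)) p).untopD 0 := by
    have hne : s - algebraMap ℂ K q ≠ 0 := by
      intro h0
      obtain ⟨e, he⟩ := IsAlgClosed.exists_pow_nat_eq (-1 : ℂ) (n := 16) (by norm_num)
      have h1 : aeval ![y, s] (X 1 - C q : MvPolynomial (Fin 2) ℂ) = 0 := by
        rw [map_sub, aeval_X, aeval_C]
        exact h0
      have h2 := (hF.van _).1 h1 e 0 (by rw [he]; norm_num)
      rw [map_sub, eval_X, eval_C] at h2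
      apply hq
      have h3 : (![e, 0] : Fin 2 → ℂ) 1 = 0 := rfl
      rw [h3, zero_sub, neg_eq_zero] at h2
      exact h2
    have h1 : Rep y s p q (s - algebraMap ℂ K q) (E p q (X 1 - C q)) := by
      have h2 := Rep.poly (y := y) (s := s) (p := p) (q := q) (X 1 - C q)
      rw [map_sub, aeval_X, aeval_C] at h2
      exact h2
    have h3 : 0 < meromorphicOrderAt (F (s - algebraMap ℂ K q)) p := by
      rw [key h1, ← tendsto_zero_iff_meromorphicOrderAt_pos (h1.mero hq hpq)]
      have h4 : E p q (X 1 - C q) p = 0 := by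
        unfold E
        rw [map_sub, aeval_X, aeval_C]
        have h5 : (![p, sg p q p] : Fin 2 → ℂ) 1 = sg p q p := rfl
        rw [h5, sg_self hq hpq]
        exact sub_self q
      have h5 := (E_an hq hpq (X 1 - C q)).continuousAt.tendsto
      rw [h4] at h5
      exact h5.mono_left nhdsWithin_le_nhds
    rw [← hco _ hne] at h3
    exact_mod_cast h3
  refine ⟨{ ord := fun f => (meromorphicOrderAt (F f) p).untopD 0, ord_zero := ?_, ord_mul := ?_, ord_add := ?_,
            ord_const := ?_, surj := ?_ }, ?_, hs⟩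
  · have h1 : Rep y s p q 0 (E p q 0) := by
      have h2 := Rep.poly (y := y) (s := s) (p := p) (q := q) 0
      rw [map_zero] at h2
      exact h2
    have h3 : E p q 0 = fun _ => 0 := by
      funext z
      unfold E
      exact map_zero _
    show (meromorphicOrderAt (F 0) p).untopD 0 = 0
    rw [key h1, h3, meromorphicOrderAt_eq_top_iff.2 (Filter.Eventually.of_forall fun _ => rfl)]
    rfl
  · intro f g hf hg
    have h1 : (((meromorphicOrderAt (F (f * g)) p).untopD 0 : ℤ) : WithTop ℤ) =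
        (((meromorphicOrderAt (F f) p).untopD 0 + (meromorphicOrderAt (F g) p).untopD 0 : ℤ) : WithTop ℤ) := by
      rw [WithTop.coe_add, hco _ hf, hco _ hg, hco _ (mul_ne_zero hf hg), key ((hFr f).mul (hFr g)),
        meromorphicOrderAt_mul ((hFr f).mero hq hpq) ((hFr g).mero hq hpq)]
    exact_mod_cast h1
  · intro f g hf hg hfg
    obtain ⟨G, hG, hG2⟩ := (hFr f).add hF hq hpq (hFr g)
    have h1 : min (((meromorphicOrderAt (F f) p).untopD 0 : ℤ) : WithTop ℤ)
        (((meromorphicOrderAt (F g) p).untopD 0 : ℤ) : WithTop ℤ) ≤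
        (((meromorphicOrderAt (F (f + g)) p).untopD 0 : ℤ) : WithTop ℤ) := by
      rw [hco _ hf, hco _ hg, hco _ hfg, key hG, meromorphicOrderAt_congr hG2]
      exact meromorphicOrderAt_add ((hFr f).mero hq hpq) ((hFr g).mero hq hpq)
    exact_mod_cast h1
  · intro c hc
    have h1 : Rep y s p q (algebraMap ℂ K c) (E p q (C c)) := by
      have h2 := Rep.poly (y := y) (s := s) (p := p) (q := q) (C c)
      rw [aeval_C] at h2
      exact h2
    have h3 : E p q (C c) = fun _ => c := by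
      funext z
      unfold E
      rw [aeval_C]
      rfl
    show (meromorphicOrderAt (F (algebraMap ℂ K c)) p).untopD 0 = 0
    classical
    rw [key h1, h3, meromorphicOrderAt_const, if_neg hc]
    rfl
  · refine ⟨y - algebraMap ℂ K p, ?_, ?_⟩
    · intro h0
      have h1 : Rep y s p q 0 (E p q 0) := by
        have h2 := Rep.poly (y := y) (s := s) (p := p) (q := q) 0
        rw [map_zero] at h2
        exact h2
      have h3 : E p q 0 = fun _ => 0 := by
        funext z
        unfold E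
        exact map_zero _
      rw [h0, key h1, h3, meromorphicOrderAt_eq_top_iff.2 (Filter.Eventually.of_forall fun _ => rfl)] at hy
      exact absurd hy (by decide)
    · show (meromorphicOrderAt (F (y - algebraMap ℂ K p)) p).untopD 0 = 1
      rw [hy]
      rfl
  · show 0 < (meromorphicOrderAt (F (y - algebraMap ℂ K p)) p).untopD 0
    rw [hy]
    exact one_pos

end EXI

theorem t_EXI : S_EXI := fun hR K _ _ y s hF p q hq hpq => EXI.main hR K y s hF p q hq hpq

end Pool.Agent.Q22.CN
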