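import Pool.Agent.Q22.CN.Stm

/-!
# Project CN, job FFD (helper87): the function field of the curve
-/

set_option autoImplicit false

open MvPolynomial Metric Set Topology Filter
open scoped LinearAlgebra.Projectivization

namespace Pool.Agent.Q22.CN

open Pool.Agent.TH144.CN

namespace FFD

/-- bihomogeneity -/
theorem bihom {G : BiPoly} {d e : ℕ} (hG : BiHom G d e) (l m : ℂ) (b x : Fin 3 → ℂ) :
    aeval (Sum.elim (fun i => l * b i) (fun i => m * x i)) G =
      l ^ d * m ^ e * aeval (Sum.elim b x) G := by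
  rw [aeval_def, eval₂_eq', aeval_def, eval₂_eq', Finset.mul_sum]
  refine Finset.sum_congr rfl fun k hk => ?_
  have hk' := hG (mem_support_iff.1 hk)
  rw [Finsupp.weight_apply, Finsupp.sum_fintype _ _ (fun i => by simp), Fintype.sum_sum_type] at hk'
  have h1 : ∑ i : Fin 3, k (Sum.inl i) = d := by
    have := congrArg Prod.fst hk'
    simpa [Prod.fst_sum] using this
  have h2 : ∑ i : Fin 3, k (Sum.inr i) = e := by
    have := congrArg Prod.snd hk'
    simpa [Prod.snd_sum] using this
  rw [Fintype.prod_sum_type, Fintype.prod_sum_type]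
  simp only [Sum.elim_inl, Sum.elim_inr, mul_pow, Finset.prod_mul_distrib,
    Finset.prod_pow_eq_pow_sum, h1, h2]
  ring

/-- the polynomial `G (1, 0, ω; 1, X₀, X₀¹⁵ X₁)` -/
noncomputable def gg (ω : ℂ) (G : BiPoly) : MvPolynomial (Fin 2) ℂ :=
  aeval (Sum.elim ![1, 0, C ω] ![1, X 0, X 0 ^ 15 * X 1]) G

/-- the polynomial `G (1, 0, ω; X₀¹⁶, X₀¹⁵, X₁)` -/
noncomputable def hh (ω : ℂ) (G : BiPoly) : MvPolynomial (Fin 2) ℂ :=
  aeval (Sum.elim ![1, 0, C ω] ![X 0 ^ 16, X 0 ^ 15, X 1]) G

theorem aeval_gg {L : Type} [Field L] [Algebra ℂ L] (ω : ℂ) (G : BiPoly) (y s : L) :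
    aeval ![y, s] (gg ω G) =
      aeval (Sum.elim ![1, 0, algebraMap ℂ L ω] ![1, y, y ^ 15 * s]) G := by
  unfold gg
  rw [comp_aeval_apply]
  have h : (fun i => aeval ![y, s] ((Sum.elim ![1, 0, C ω] ![1, X 0, X 0 ^ 15 * X 1] :
      Fin 3 ⊕ Fin 3 → MvPolynomial (Fin 2) ℂ) i)) =
      Sum.elim ![1, 0, algebraMap ℂ L ω] ![1, y, y ^ 15 * s] := by
    funext i
    rcases i with i | i <;> fin_cases i <;> simp
  rw [h]

theorem aeval_hh {L : Type} [Field L] [Algebra ℂ L] (ω : ℂ) (G : BiPoly) (y s : L) :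
    aeval ![y, s] (hh ω G) =
      aeval (Sum.elim ![1, 0, algebraMap ℂ L ω] ![y ^ 16, y ^ 15, s]) G := by
  unfold hh
  rw [comp_aeval_apply]
  have h : (fun i => aeval ![y, s] ((Sum.elim ![1, 0, C ω] ![X 0 ^ 16, X 0 ^ 15, X 1] :
      Fin 3 ⊕ Fin 3 → MvPolynomial (Fin 2) ℂ) i)) =
      Sum.elim ![1, 0, algebraMap ℂ L ω] ![y ^ 16, y ^ 15, s] := by
    funext i
    rcases i with i | i <;> fin_cases i <;> simp
  rw [h]

theorem eval_eq (g : MvPolynomial (Fin 2) ℂ) (p q : ℂ) :
    eval ![p, q] g = aeval ![p, q] g := rfl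

/-- the conditions for a point of the curve -/
theorem mem_iff {L : Type} [Field L] [Algebra ℂ L] (ω : ℂ) (b x : Fin 3 → L) :
    (Zs ω).Mem b x ↔ b ≠ 0 ∧ x ≠ 0 ∧ b 1 = 0 ∧ b 2 - algebraMap ℂ L ω * b 0 = 0 ∧
      x 0 ^ 240 * x 2 ^ 16 + x 1 ^ 256 + x 0 ^ 16 * x 1 ^ 240 = 0 := by
  unfold ClosedSet.Mem Zs
  simp only [mem_insert_iff, mem_singleton_iff, forall_eq_or_imp, forall_eq, bA]
  simp

theorem exists_root (c : ℂ) : ∃ z : ℂ, z ^ 16 = c :=
  IsAlgClosed.exists_pow_nat_eq c (by norm_num)

theorem y_ne {K : Type} [Field K] [Algebra ℂ K] {y s : K} (h : FK K y s) : y ≠ 0 := by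
  intro hy
  have h1 := (h.van (X 0)).1 (by simpa using hy)
  obtain ⟨q, hq⟩ := exists_root (-2)
  have h2 := h1 1 q (by rw [hq]; norm_num)
  simp at h2

/-- a polynomial which vanishes at the generic point vanishes at all points with `U ≠ 0` -/
theorem van_of_ne {K : Type} [Field K] [Algebra ℂ K] {y s : K} (h : FK K y s)
    (g : MvPolynomial (Fin 2) ℂ)
    (hg : ∀ p q : ℂ, p ^ 16 + q ^ 16 + 1 = 0 → p ≠ 0 → eval ![p, q] g = 0) :
    ∀ p q : ℂ, p ^ 16 + q ^ 16 + 1 = 0 → eval ![p, q] g = 0 := by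
  refine (h.van g).1 ?_
  have h1 : aeval ![y, s] (X 0 * g) = 0 := by
    refine (h.van _).2 fun p q hpq => ?_
    rw [map_mul, eval_X]
    rcases eq_or_ne p 0 with hp | hp
    · simp [hp]
    · rw [hg p q hpq hp, mul_zero]
  rw [map_mul, aeval_X] at h1
  exact (mul_eq_zero.1 h1).resolve_left (y_ne h)

theorem zs_sub (ω : ℂ) (hω : ω ^ 4 = -1) (p q : Fin 3 → ℂ) (h : (Zs ω).Mem p q) :
    XX.Mem p q := by
  obtain ⟨hp, hq, h1, h2, h3⟩ := (mem_iff ω p q).1 h
  refine ⟨hp, hq, ?_⟩
  have h2' : p 2 = ω * p 0 := by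
    have := sub_eq_zero.1 h2
    simpa using this
  rintro G (rfl | rfl)
  · simp only [bE, map_add, map_pow, aeval_X, Sum.elim_inl, h1, h2']
    linear_combination (p 0) ^ 4 * hω
  · simp only [bF, bA, bG, map_add, map_mul, map_pow, aeval_X, Sum.elim_inl, Sum.elim_inr, h1]
    linear_combination (p 0) * h3

end FFD

open FFD in
theorem t_FFD : S_FFD := by
  intro K _ _ y s h ω hω
  refine ⟨⟨?_, ?_, ?_⟩, zs_sub ω hω⟩
  · refine (mem_iff ω _ _).2 ⟨?_, ?_, ?_, ?_, ?_⟩
    · intro h0
      simpa using congrFun h0 0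
    · intro h0
      simpa using congrFun h0 0
    · simp
    · simp
    · have h1 := h.eqn
      show (1 : K) ^ 240 * (y ^ 15 * s) ^ 16 + y ^ 256 + 1 ^ 16 * y ^ 240 = 0
      linear_combination y ^ 240 * h1
  · intro G d e hG
    constructor
    · intro h0 p q hpq
      obtain ⟨hp, hq, h1, h2, h3⟩ := (mem_iff ω p q).1 hpq
      rw [← aeval_gg, h.van] at h0
      have hgen : ∀ u w : ℂ, u ^ 16 + w ^ 16 + 1 = 0 →
          aeval (Sum.elim ![1, 0, ω] ![1, u, u ^ 15 * w]) G = 0 := by
        intro u w huw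
        have h4 := h0 u w huw
        rw [eval_eq, aeval_gg] at h4
        exact h4
      have hp0 : p = fun i => p 0 * (![1, 0, ω] : Fin 3 → ℂ) i := by
        have h2' : p 2 = ω * p 0 := by
          have := sub_eq_zero.1 h2
          simpa using this
        funext i
        fin_cases i
        · simp
        · simp [h1]
        · simp [h2', mul_comm]
      obtain ⟨σ, hσ⟩ := exists_root (-1)
      have hσ0 : σ ≠ 0 := by
        rintro rfl
        norm_num at hσ
      rcases eq_or_ne (q 0) 0 with hq0 | hq0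
      · -- the point at infinity
        have hq1 : q 1 = 0 := by
          rw [hq0] at h3
          have h4 : q 1 ^ 256 = 0 := by linear_combination h3
          exact pow_eq_zero_iff (by norm_num) |>.1 h4
        have hqq : q = fun i => (q 2 / σ) * (![0, 0, σ] : Fin 3 → ℂ) i := by
          funext i
          fin_cases i
          · simp [hq0]
          · simp [hq1]
          · simp [hσ0]
        have h5 : ∀ u w : ℂ, u ^ 16 + w ^ 16 + 1 = 0 → eval ![u, w] (hh ω G) = 0 := by
          refine van_of_ne h _ fun u w huw hu => ?_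
          rw [eval_eq, aeval_hh]
          have e1 : Sum.elim ![1, 0, algebraMap ℂ ℂ ω] ![u ^ 16, u ^ 15, w] =
              Sum.elim (fun i => 1 * (![1, 0, ω] : Fin 3 → ℂ) i)
                (fun i => u ^ 16 * (![1, u⁻¹, u⁻¹ ^ 15 * (w * u⁻¹)] : Fin 3 → ℂ) i) := by
            funext i
            rcases i with i | i <;> fin_cases i
            · simp
            · simp
            · simp
            · simp
            · simp
              field_simp
            · simp
              field_simp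
          rw [e1, bihom hG, hgen u⁻¹ (w * u⁻¹) ?_, mul_zero]
          field_simp
          linear_combination huw
        have h6 := h5 0 σ (by rw [hσ]; norm_num)
        rw [eval_eq, aeval_hh] at h6
        rw [hp0, hqq, bihom hG]
        have e2 : (Sum.elim ![1, 0, ω] ![0, 0, σ] : Fin 3 ⊕ Fin 3 → ℂ) =
            Sum.elim ![1, 0, algebraMap ℂ ℂ ω] ![0 ^ 16, 0 ^ 15, σ] := by
          funext i
          rcases i with i | i <;> fin_cases i <;> simp
        rw [e2, h6, mul_zero]
      · -- finite points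
        rcases eq_or_ne (q 1) 0 with hq1 | hq1
        · have hq2 : q 2 = 0 := by
            rw [hq1] at h3
            have h4 : q 0 ^ 240 * q 2 ^ 16 = 0 := by linear_combination h3
            rcases mul_eq_zero.1 h4 with h5 | h5
            · exact absurd (pow_eq_zero_iff (by norm_num) |>.1 h5) hq0
            · exact pow_eq_zero_iff (by norm_num) |>.1 h5
          have hqq : q = fun i => q 0 * (![1, 0, 0 ^ 15 * σ] : Fin 3 → ℂ) i := by
            funext i
            fin_cases i
            · simp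
            · simp [hq1]
            · simp [hq2]
          rw [hp0, hqq, bihom hG, hgen 0 σ (by rw [hσ]; norm_num), mul_zero]
        · have hqq : q = fun i => q 0 * (![1, q 1 / q 0,
              (q 1 / q 0) ^ 15 * (q 2 / q 0 / (q 1 / q 0) ^ 15)] : Fin 3 → ℂ) i := by
            funext i
            fin_cases i
            · simp
            · simp
              field_simp
            · simp
              field_simp
          rw [hp0, hqq, bihom hG, hgen _ _ ?_, mul_zero]
          field_simp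
          linear_combination h3
    · intro h0
      rw [← aeval_gg, h.van]
      intro p q hpq
      rw [eval_eq, aeval_gg]
      refine h0 _ _ ((mem_iff ω _ _).2 ⟨?_, ?_, ?_, ?_, ?_⟩)
      · intro h0
        simpa using congrFun h0 0
      · intro h0
        simpa using congrFun h0 0
      · simp
      · simp
      · show (1 : ℂ) ^ 240 * (p ^ 15 * q) ^ 16 + p ^ 256 + 1 ^ 16 * p ^ 240 = 0
        linear_combination p ^ 240 * hpq
  · rw [eq_top_iff, ← h.gen, IntermediateField.adjoin_le_iff]
    set F := IntermediateField.adjoin ℂ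
      ({f | ∃ i j, (![1, 0, algebraMap ℂ K ω] : Fin 3 → K) j ≠ 0 ∧
        f = (![1, 0, algebraMap ℂ K ω] : Fin 3 → K) i / (![1, 0, algebraMap ℂ K ω] : Fin 3 → K) j} ∪
      {f | ∃ i j, (![1, y, y ^ 15 * s] : Fin 3 → K) j ≠ 0 ∧
        f = (![1, y, y ^ 15 * s] : Fin 3 → K) i / (![1, y, y ^ 15 * s] : Fin 3 → K) j}) with hF
    have hy : y ∈ F := by
      refine IntermediateField.subset_adjoin _ _ (Or.inr ⟨1, 0, ?_, ?_⟩)
      · simp
      · simp
    have hys : y ^ 15 * s ∈ F := by
      refine IntermediateField.subset_adjoin _ _ (Or.inr ⟨2, 0, ?_, ?_⟩)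
      · simp
      · simp
    have hs : s ∈ F := by
      have h1 : s = (y ^ 15 * s) * (y⁻¹) ^ 15 := by
        have := y_ne h
        field_simp
      rw [h1]
      exact mul_mem hys (pow_mem (inv_mem hy) 15)
    rintro f (rfl | rfl)
    · exact hy
    · exact hs

end Pool.Agent.Q22.CN
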