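import Pool.Agent.Q22.CN.Stm

/-! Job CN-LOC: local structure of the Fermat curve at a point with `q ≠ 0`. -/

set_option autoImplicit false

open MvPolynomial Metric Set Topology Filter

namespace Pool.Agent.Q22.CN

open Pool.Agent.TH144.CN

namespace LOC

variable {K : Type} [Field K] [Algebra ℂ K]

/-! ### Orders -/

lemma o_one (P : Place K) : P.ord 1 = 0 := by
  have h := P.ord_mul (f := 1) (g := 1) one_ne_zero one_ne_zero
  rw [one_mul] at h
  omega

lemma o_neg (P : Place K) (f : K) : P.ord (-f) = P.ord f := by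
  by_cases hf : f = 0
  · simp [hf]
  · have h1 : P.ord (-1 : K) = 0 := by
      have := P.ord_const (c := -1) (by norm_num)
      simpa using this
    have h := P.ord_mul (f := -1) (g := f) (by norm_num) hf
    rw [h1, zero_add] at h
    simpa using h

lemma o_inv (P : Place K) {f : K} (hf : f ≠ 0) : P.ord f⁻¹ = -P.ord f := by
  have h := P.ord_mul (f := f) (g := f⁻¹) hf (inv_ne_zero hf)
  rw [mul_inv_cancel₀ hf, o_one] at h
  omega

lemma o_div (P : Place K) {f g : K} (hf : f ≠ 0) (hg : g ≠ 0) :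
    P.ord (f / g) = P.ord f - P.ord g := by
  rw [div_eq_mul_inv, P.ord_mul hf (inv_ne_zero hg), o_inv P hg]
  ring

lemma o_pow (P : Place K) {f : K} (hf : f ≠ 0) (n : ℕ) : P.ord (f ^ n) = n * P.ord f := by
  induction n with
  | zero => simp [o_one]
  | succ n ih =>
    rw [pow_succ, P.ord_mul (pow_ne_zero _ hf) hf, ih]
    push_cast
    ring

lemma o_zpow (P : Place K) {f : K} (hf : f ≠ 0) (n : ℤ) : P.ord (f ^ n) = n * P.ord f := by
  obtain ⟨m, rfl | rfl⟩ := n.eq_nat_or_neg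
  · rw [zpow_natCast, o_pow P hf]
  · rw [zpow_neg, zpow_natCast, o_inv P (pow_ne_zero _ hf), o_pow P hf]
    ring

/-- regular -/
def Nn (P : Place K) (f : K) : Prop := f = 0 ∨ 0 ≤ P.ord f

/-- zero at the place -/
def Pp (P : Place K) (f : K) : Prop := f = 0 ∨ 0 < P.ord f

lemma Pp.nn {P : Place K} {f : K} (h : Pp P f) : Nn P f := h.imp_right le_of_lt

lemma nn_const (P : Place K) (c : ℂ) : Nn P (algebraMap ℂ K c) := by
  by_cases hc : c = 0
  · left
    rw [hc, map_zero]
  · right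
    rw [P.ord_const hc]

lemma Nn.add {P : Place K} {f g : K} (hf : Nn P f) (hg : Nn P g) : Nn P (f + g) := by
  rcases hf with rfl | hf
  · rwa [zero_add]
  rcases hg with rfl | hg
  · rw [add_zero]
    exact Or.inr hf
  by_cases hf0 : f = 0
  · rw [hf0, zero_add]
    exact Or.inr hg
  by_cases hg0 : g = 0
  · rw [hg0, add_zero]
    exact Or.inr hf
  by_cases h0 : f + g = 0
  · exact Or.inl h0
  · exact Or.inr ((le_min hf hg).trans (P.ord_add hf0 hg0 h0))

lemma Pp.add {P : Place K} {f g : K} (hf : Pp P f) (hg : Pp P g) : Pp P (f + g) := by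
  rcases hf with rfl | hf
  · rwa [zero_add]
  rcases hg with rfl | hg
  · rw [add_zero]
    exact Or.inr hf
  by_cases hf0 : f = 0
  · rw [hf0, zero_add]
    exact Or.inr hg
  by_cases hg0 : g = 0
  · rw [hg0, add_zero]
    exact Or.inr hf
  by_cases h0 : f + g = 0
  · exact Or.inl h0
  · exact Or.inr ((lt_min hf hg).trans_le (P.ord_add hf0 hg0 h0))

lemma Nn.mul {P : Place K} {f g : K} (hf : Nn P f) (hg : Nn P g) : Nn P (f * g) := by
  by_cases hf0 : f = 0
  · left
    rw [hf0, zero_mul]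
  by_cases hg0 : g = 0
  · left
    rw [hg0, mul_zero]
  right
  rw [P.ord_mul hf0 hg0]
  exact add_nonneg (hf.resolve_left hf0) (hg.resolve_left hg0)

lemma Pp.mul {P : Place K} {f g : K} (hf : Pp P f) (hg : Nn P g) : Pp P (f * g) := by
  by_cases hf0 : f = 0
  · left
    rw [hf0, zero_mul]
  by_cases hg0 : g = 0
  · left
    rw [hg0, mul_zero]
  right
  rw [P.ord_mul hf0 hg0]
  exact add_pos_of_pos_of_nonneg (hf.resolve_left hf0) (hg.resolve_left hg0)

lemma Pp.mul' {P : Place K} {f g : K} (hf : Nn P f) (hg : Pp P g) : Pp P (f * g) := by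
  rw [mul_comm]
  exact hg.mul hf

/-- `c + m` with `c ≠ 0` constant and `m` zero at `P` -/
lemma unit_of (P : Place K) {c : ℂ} (hc : c ≠ 0) {m : K} (hm : Pp P m) :
    algebraMap ℂ K c + m ≠ 0 ∧ P.ord (algebraMap ℂ K c + m) = 0 := by
  have hc' : algebraMap ℂ K c ≠ 0 := by
    rw [Ne, map_eq_zero]
    exact hc
  have hoc := P.ord_const (K := K) hc
  by_cases hm0 : m = 0
  · rw [hm0, add_zero]
    exact ⟨hc', hoc⟩
  have hmp := hm.resolve_left hm0
  have h1 : algebraMap ℂ K c + m ≠ 0 := by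
    intro h
    have : m = -algebraMap ℂ K c := by linear_combination h
    rw [this, o_neg, hoc] at hmp
    exact lt_irrefl _ hmp
  refine ⟨h1, le_antisymm ?_ ?_⟩
  · by_contra hlt
    push Not at hlt
    have h2 := P.ord_add (f := algebraMap ℂ K c + m) (g := -m) h1 (neg_ne_zero.2 hm0)
      (by simpa using hc)
    rw [o_neg, add_neg_cancel_right, hoc] at h2
    exact absurd h2 (not_le.2 (lt_min hlt hmp))
  · have h2 := P.ord_add (f := algebraMap ℂ K c) (g := m) hc' hm0 h1
    rw [hoc] at h2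
    exact (le_min le_rfl hmp.le).trans h2

/-! ### Values of polynomials -/

variable {y s : K}

lemma at_ne {P : Place K} {f : K} (h : 0 < P.ord f) : f ≠ 0 := by
  rintro rfl
  rw [P.ord_zero] at h
  exact lt_irrefl _ h

lemma value {P : Place K} {p q : ℂ} (h : At y s P p q) (g : MvPolynomial (Fin 2) ℂ) :
    Pp P (aeval ![y, s] g - algebraMap ℂ K (eval ![p, q] g)) := by
  have hX : ∀ i : Fin 2, Pp P (![y, s] i - algebraMap ℂ K (![p, q] i)) := by
    intro i
    fin_cases i
    · exact Or.inr h.1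
    · exact Or.inr h.2
  induction g using MvPolynomial.induction_on with
  | C a => left; simp
  | add a b ha hb =>
    have h1 := ha.add hb
    convert h1 using 1
    simp only [map_add]
    ring
  | mul_X a i ha =>
    have hn : Nn P (![y, s] i) := by
      have := (hX i).nn.add (nn_const P (![p, q] i))
      rwa [sub_add_cancel] at this
    have h1 := (ha.mul hn).add (Pp.mul' (nn_const P (eval ![p, q] a)) (hX i))
    convert h1 using 1
    simp only [map_mul, aeval_X, eval_X]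
    ring

lemma poly_nn {P : Place K} {p q : ℂ} (h : At y s P p q) (g : MvPolynomial (Fin 2) ℂ) :
    Nn P (aeval ![y, s] g) := by
  have h1 := (value h g).nn.add (nn_const P (eval ![p, q] g))
  rwa [sub_add_cancel] at h1

lemma poly_unit {P : Place K} {p q : ℂ} (h : At y s P p q) (g : MvPolynomial (Fin 2) ℂ)
    (hg : eval ![p, q] g ≠ 0) : aeval ![y, s] g ≠ 0 ∧ P.ord (aeval ![y, s] g) = 0 := by
  have h1 := unit_of P hg (value h g)
  rwa [add_sub_cancel] at h1

/-- Taylor expansion to first order -/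
lemma taylor (p q : ℂ) (g : MvPolynomial (Fin 2) ℂ) : ∃ g₁ g₂ : MvPolynomial (Fin 2) ℂ,
    g = C (eval ![p, q] g) + (X 0 - C p) * g₁ + (X 1 - C q) * g₂ := by
  induction g using MvPolynomial.induction_on with
  | C a => exact ⟨0, 0, by simp⟩
  | add a b ha hb =>
    obtain ⟨a₁, a₂, ha⟩ := ha
    obtain ⟨b₁, b₂, hb⟩ := hb
    refine ⟨a₁ + b₁, a₂ + b₂, ?_⟩
    conv_lhs => rw [ha, hb]
    simp only [map_add]
    ring
  | mul_X a i ha =>
    obtain ⟨a₁, a₂, ha⟩ := ha
    have h01 : i = 0 ∨ i = 1 := by fin_cases i <;> simp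
    rcases h01 with rfl | rfl
    · refine ⟨a₁ * X 0 + C (eval ![p, q] a), a₂ * X 0, ?_⟩
      conv_lhs => rw [ha]
      simp only [map_mul, eval_X, Matrix.cons_val_zero]
      ring
    · refine ⟨a₁ * X 1, a₂ * X 1 + C (eval ![p, q] a), ?_⟩
      conv_lhs => rw [ha]
      simp only [map_mul, eval_X, Matrix.cons_val_one, Matrix.cons_val_fin_one]
      ring

/-- the polynomial `S` -/
noncomputable def pS (q : ℂ) : MvPolynomial (Fin 2) ℂ :=
  ∑ i ∈ Finset.range 16, X 1 ^ i * (C q) ^ (16 - 1 - i)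

/-- the polynomial `T` -/
noncomputable def pT (p : ℂ) : MvPolynomial (Fin 2) ℂ :=
  ∑ i ∈ Finset.range 16, X 0 ^ i * (C p) ^ (16 - 1 - i)

lemma pS_mul (q : ℂ) : pS q * (X 1 - C q) = X 1 ^ 16 - (C q) ^ 16 := by
  unfold pS
  exact (Commute.all _ _).geom_sum₂_mul 16

lemma pT_mul (p : ℂ) : pT p * (X 0 - C p) = X 0 ^ 16 - (C p) ^ 16 := by
  unfold pT
  exact (Commute.all _ _).geom_sum₂_mul 16

lemma pS_eval (p q : ℂ) : eval ![p, q] (pS q) = 16 * q ^ 15 := by
  unfold pS
  simp only [map_sum, map_mul, map_pow, eval_X, eval_C, Matrix.cons_val_one,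
    Matrix.cons_val_fin_one]
  simp only [Finset.sum_range_succ, Finset.sum_range_zero]
  ring

/-- the relation `(s - q) S = - (y - p) T` -/
lemma rel (h : FK K y s) {p q : ℂ} (hpq : p ^ 16 + q ^ 16 + 1 = 0) :
    aeval ![y, s] (pS q) * (s - algebraMap ℂ K q)
      = -(aeval ![y, s] (pT p) * (y - algebraMap ℂ K p)) := by
  have h1 := congrArg (aeval ![y, s]) (pS_mul q)
  have h2 := congrArg (aeval ![y, s]) (pT_mul p)
  simp only [map_mul, map_sub, map_pow, aeval_X, aeval_C, Matrix.cons_val_one,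
    Matrix.cons_val_fin_one, Matrix.cons_val_zero] at h1 h2
  have h3 : (algebraMap ℂ K p) ^ 16 + (algebraMap ℂ K q) ^ 16 + 1 = 0 := by
    have := congrArg (algebraMap ℂ K) hpq
    simpa using this
  rw [h1, h2]
  linear_combination h.eqn - h3

/-- decomposition of the values of polynomials -/
lemma dec (h : FK K y s) {P : Place K} {p q : ℂ} (hq : q ≠ 0) (hpq : p ^ 16 + q ^ 16 + 1 = 0)
    (hA : At y s P p q) : ∀ (n : ℕ) (g : MvPolynomial (Fin 2) ℂ), aeval ![y, s] g ≠ 0 →
      (P.ord (aeval ![y, s] g)).toNat ≤ n →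
      ∃ (k : ℕ) (e u : MvPolynomial (Fin 2) ℂ), eval ![p, q] e ≠ 0 ∧ eval ![p, q] u ≠ 0 ∧
        aeval ![y, s] e * aeval ![y, s] g = (y - algebraMap ℂ K p) ^ k * aeval ![y, s] u := by
  intro n
  induction n with
  | zero =>
    intro g hg hn
    have h0 : P.ord (aeval ![y, s] g) = 0 := by
      have := (poly_nn hA g).resolve_left hg
      omega
    have hev : eval ![p, q] g ≠ 0 := by
      intro hz
      have h1 := value hA g
      rw [hz, map_zero, sub_zero] at h1
      have := h1.resolve_left hg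
      omega
    exact ⟨0, 1, g, by simp, hev, by simp⟩
  | succ n ih =>
    intro g hg hn
    by_cases hev : eval ![p, q] g = 0
    swap
    · exact ⟨0, 1, g, by simp, hev, by simp⟩
    obtain ⟨g₁, g₂, hgg⟩ := taylor p q g
    rw [hev, map_zero, zero_add] at hgg
    have hS0 : eval ![p, q] (pS q) ≠ 0 := by
      rw [pS_eval]
      exact mul_ne_zero (by norm_num) (pow_ne_zero _ hq)
    obtain ⟨hS1, hS2⟩ := poly_unit hA _ hS0
    have hkey : aeval ![y, s] (pS q) * aeval ![y, s] g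
        = (y - algebraMap ℂ K p) * aeval ![y, s] (pS q * g₁ - pT p * g₂) := by
      have h1 := congrArg (aeval ![y, s]) hgg
      simp only [map_add, map_mul, map_sub, aeval_X, aeval_C, Matrix.cons_val_one,
        Matrix.cons_val_fin_one, Matrix.cons_val_zero] at h1
      rw [h1, map_sub, map_mul, map_mul]
      have h2 := rel h hpq
      linear_combination (aeval ![y, s] g₂) * h2
    have hy0 : y - algebraMap ℂ K p ≠ 0 := at_ne hA.1
    have hg' : aeval ![y, s] (pS q * g₁ - pT p * g₂) ≠ 0 := by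
      intro hz
      rw [hz, mul_zero] at hkey
      exact (mul_ne_zero hS1 hg) hkey
    have hord : P.ord (aeval ![y, s] g)
        = P.ord (y - algebraMap ℂ K p) + P.ord (aeval ![y, s] (pS q * g₁ - pT p * g₂)) := by
      have h1 := congrArg P.ord hkey
      rw [P.ord_mul hS1 hg, P.ord_mul hy0 hg', hS2, zero_add] at h1
      exact h1
    have hyp := hA.1
    obtain ⟨k, e, u, he, hu, heq⟩ := ih _ hg' (by omega)
    refine ⟨k + 1, e * pS q, u, ?_, hu, ?_⟩
    · rw [map_mul]
      exact mul_ne_zero he hS0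
    · rw [map_mul, mul_assoc, hkey, pow_succ]
      linear_combination (y - algebraMap ℂ K p) * heq

/-- decomposition of the elements -/
lemma dec' (hR : S_RAT) (h : FK K y s) {P : Place K} {p q : ℂ} (hq : q ≠ 0)
    (hpq : p ^ 16 + q ^ 16 + 1 = 0) (hA : At y s P p q) (f : K) (hf : f ≠ 0) :
    ∃ (k : ℤ) (u w : MvPolynomial (Fin 2) ℂ), eval ![p, q] u ≠ 0 ∧ eval ![p, q] w ≠ 0 ∧
      f = (y - algebraMap ℂ K p) ^ k * aeval ![y, s] u / aeval ![y, s] w := by
  obtain ⟨g, w, hw, rfl⟩ := hR K y s h f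
  have hg : aeval ![y, s] g ≠ 0 := by
    intro hz
    rw [hz, zero_div] at hf
    exact hf rfl
  obtain ⟨k₁, e₁, u₁, he₁, hu₁, h1⟩ := dec h hq hpq hA _ g hg le_rfl
  obtain ⟨k₂, e₂, u₂, he₂, hu₂, h2⟩ := dec h hq hpq hA _ w hw le_rfl
  have a1 := (poly_unit hA _ he₁).1
  have a2 := (poly_unit hA _ he₂).1
  have a3 := (poly_unit hA _ hu₁).1
  have a4 := (poly_unit hA _ hu₂).1
  have hy0 : y - algebraMap ℂ K p ≠ 0 := at_ne hA.1
  refine ⟨(k₁ : ℤ) - k₂, u₁ * e₂, e₁ * u₂, ?_, ?_, ?_⟩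
  · rw [map_mul]
    exact mul_ne_zero hu₁ he₂
  · rw [map_mul]
    exact mul_ne_zero he₁ hu₂
  · rw [zpow_sub₀ hy0, zpow_natCast, zpow_natCast, map_mul, map_mul]
    have hp1 : (y - algebraMap ℂ K p) ^ k₂ ≠ 0 := pow_ne_zero _ hy0
    rw [div_eq_div_iff hw (mul_ne_zero a1 a4)]
    field_simp
    linear_combination (aeval ![y, s] u₂ * (y - algebraMap ℂ K p) ^ k₂) * h1
      - ((y - algebraMap ℂ K p) ^ k₁ * aeval ![y, s] u₁) * h2

lemma ord_dec {P : Place K} {p q : ℂ} (hA : At y s P p q) (k : ℤ)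
    {u w : MvPolynomial (Fin 2) ℂ} (hu : eval ![p, q] u ≠ 0) (hw : eval ![p, q] w ≠ 0) :
    P.ord ((y - algebraMap ℂ K p) ^ k * aeval ![y, s] u / aeval ![y, s] w)
      = k * P.ord (y - algebraMap ℂ K p) := by
  have hy0 : y - algebraMap ℂ K p ≠ 0 := at_ne hA.1
  obtain ⟨a1, a2⟩ := poly_unit hA _ hu
  obtain ⟨b1, b2⟩ := poly_unit hA _ hw
  rw [o_div P (mul_ne_zero (zpow_ne_zero _ hy0) a1) b1, P.ord_mul (zpow_ne_zero _ hy0) a1,
    o_zpow P hy0, a2, b2]
  ring

lemma ord_y (hR : S_RAT) (h : FK K y s) {P : Place K} {p q : ℂ} (hq : q ≠ 0)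
    (hpq : p ^ 16 + q ^ 16 + 1 = 0) (hA : At y s P p q) : P.ord (y - algebraMap ℂ K p) = 1 := by
  obtain ⟨t, ht0, ht⟩ := P.surj
  obtain ⟨k, u, w, hu, hw, rfl⟩ := dec' hR h hq hpq hA t ht0
  rw [ord_dec hA k hu hw, mul_comm] at ht
  exact Int.eq_one_of_mul_eq_one_right hA.1.le ht

lemma ext {P P' : Place K} (h : P.ord = P'.ord) : P = P' := by
  cases P
  cases P'
  cases h
  rfl

end LOC

open LOC in
theorem t_LOC : S_LOC := by
  intro hR K _ _ y s h P p q hq hpq hA
  refine ⟨ord_y hR h hq hpq hA, ?_, fun g hg => poly_unit hA g hg, ?_⟩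
  · intro P' hA'
    apply LOC.ext
    funext f
    by_cases hf : f = 0
    · rw [hf, P.ord_zero, P'.ord_zero]
    · obtain ⟨k, u, w, hu, hw, rfl⟩ := dec' hR h hq hpq hA f hf
      rw [ord_dec hA k hu hw, ord_dec hA' k hu hw, ord_y hR h hq hpq hA, ord_y hR h hq hpq hA']
  · intro f hf
    obtain ⟨k, u, w, hu, hw, hfe⟩ := dec' hR h hq hpq hA f hf
    have hk : P.ord f = k := by
      conv_lhs => rw [hfe]
      rw [ord_dec hA k hu hw, ord_y hR h hq hpq hA, mul_one]
    refine ⟨u, w, hu, hw, ?_⟩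
    rw [hk]
    exact hfe

end Pool.Agent.Q22.CN
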