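import Pool.Agent.Q22.CN.Stm

/-!
# Project CN (helper22), job NRM: norms
-/

set_option autoImplicit false

namespace Pool.Agent.Q22.CN

open Pool.Agent.TH144.CN Polynomial

namespace NRM

/-- a polynomial in two variables as a polynomial over `ℂ[X]` -/
noncomputable def psi : MvPolynomial (Fin 2) ℂ →ₐ[ℂ] ℂ[X][X] :=
  MvPolynomial.aeval ![C X, X]

variable {K : Type} [Field K] [Algebra ℂ K]

/-- evaluation -/
noncomputable def ev (y t : K) : ℂ[X][X] →+* K := eval₂RingHom (aeval y : ℂ[X] →ₐ[ℂ] K).toRingHom t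

lemma ev_C (y t : K) (r : ℂ[X]) : ev y t (C r) = aeval y r := by simp [ev]

lemma ev_X (y t : K) : ev y t X = t := by simp [ev]

lemma ev_psi (y t : K) (g : MvPolynomial (Fin 2) ℂ) :
    ev y t (psi g) = MvPolynomial.aeval ![y, t] g := by
  induction g using MvPolynomial.induction_on with
  | C a =>
    rw [MvPolynomial.aeval_C]
    have : psi (MvPolynomial.C a) = C (C a) := by
      rw [psi, MvPolynomial.aeval_C]; rfl
    rw [this, ev_C]; simp
  | add p q hp hq => rw [map_add, map_add, map_add, hp, hq]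
  | mul_X p i hp =>
    rw [map_mul, map_mul, map_mul, hp, MvPolynomial.aeval_X]
    congr 1
    fin_cases i
    · simp [psi, ev]
    · simp [psi, ev]

lemma ev_comp (y s : K) (ζ : ℂ) (P : ℂ[X][X]) :
    ev y s (P.comp (C (C ζ) * X)) = ev y (algebraMap ℂ K ζ * s) P := by
  induction P using Polynomial.induction_on' with
  | add p q hp hq => rw [add_comp, map_add, map_add, hp, hq]
  | monomial n r =>
    rw [monomial_comp]
    simp only [map_mul, map_pow, ev_C, ev_X, aeval_C]
    rw [← C_mul_X_pow_eq_monomial]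
    simp only [map_mul, map_pow, ev_C, ev_X]

/-- the product -/
noncomputable def PP (g : MvPolynomial (Fin 2) ℂ) : ℂ[X][X] :=
  ∏ ζ ∈ nthRootsFinset 16 (1 : ℂ), (psi g).comp (C (C ζ) * X)

lemma ev_PP (y s : K) (g : MvPolynomial (Fin 2) ℂ) : ev y s (PP g) =
    ∏ ζ ∈ nthRootsFinset 16 (1 : ℂ), MvPolynomial.aeval ![y, algebraMap ℂ K ζ * s] g := by
  rw [PP, map_prod]
  apply Finset.prod_congr rfl
  intro ζ _
  rw [ev_comp, ev_psi]

lemma PP_comp (g : MvPolynomial (Fin 2) ℂ) (z : ℂ) (hz : z ^ 16 = 1) :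
    (PP g).comp (C (C z) * X) = PP g := by
  have hz0 : z ≠ 0 := by rintro rfl; norm_num at hz
  rw [PP, prod_comp]
  refine Finset.prod_bij' (fun ζ _ => ζ * z) (fun ζ _ => ζ * z⁻¹) ?_ ?_ ?_ ?_ ?_
  · intro ζ hζ
    rw [mem_nthRootsFinset (by norm_num)] at hζ ⊢
    rw [mul_pow, hζ, hz, one_mul]
  · intro ζ hζ
    rw [mem_nthRootsFinset (by norm_num)] at hζ ⊢
    rw [mul_pow, hζ, inv_pow, hz, one_mul, inv_one]
  · intro ζ _
    field_simp
  · intro ζ _
    field_simp
  · intro ζ _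
    rw [comp_assoc]
    congr 1
    simp only [mul_comp, C_comp, X_comp, map_mul]
    ring

lemma PP_coeff (g : MvPolynomial (Fin 2) ℂ) (n : ℕ) (hn : ¬ 16 ∣ n) : (PP g).coeff n = 0 := by
  obtain ⟨z, hz⟩ : ∃ z : ℂ, IsPrimitiveRoot z 16 :=
    ⟨_, Complex.isPrimitiveRoot_exp 16 (by norm_num)⟩
  have h1 := congrArg (fun P => P.coeff n) (PP_comp g z hz.pow_eq_one)
  simp only [comp_C_mul_X_coeff] at h1
  have h2 : (PP g).coeff n * (C z ^ n - 1) = 0 := by
    rw [mul_sub, h1]; ring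
  rcases mul_eq_zero.mp h2 with h | h
  · exact h
  · exfalso
    have h3 : z ^ n = 1 := by
      have : C (z ^ n) = (C 1 : ℂ[X]) := by
        rw [map_pow, map_one]; exact sub_eq_zero.mp h
      exact C_injective this
    exact hn ((hz.pow_eq_one_iff_dvd n).mp h3)

/-- the norm -/
noncomputable def rr (g : MvPolynomial (Fin 2) ℂ) : ℂ[X] :=
  ∑ n ∈ Finset.range ((PP g).natDegree + 1),
    if 16 ∣ n then (PP g).coeff n * (-1 - X ^ 16) ^ (n / 16) else 0

lemma aeval_rr (y s : K) (h : y ^ 16 + s ^ 16 + 1 = 0) (g : MvPolynomial (Fin 2) ℂ) :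
    aeval y (rr g) = ev y s (PP g) := by
  conv_rhs => rw [(PP g).as_sum_range_C_mul_X_pow]
  rw [rr, map_sum, map_sum]
  apply Finset.sum_congr rfl
  intro n _
  split_ifs with hn
  · obtain ⟨k, rfl⟩ := hn
    rw [Nat.mul_div_cancel_left _ (by norm_num), map_mul, map_mul, map_pow, map_pow, ev_C, ev_X,
      pow_mul]
    have h2 : aeval y (-1 - X ^ 16 : ℂ[X]) = s ^ 16 := by
      simp
      linear_combination -h
    rw [h2]
  · rw [PP_coeff g n hn]; simp

end NRM

open NRM in
theorem t_NRM : S_NRM := by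
  intro K _ _ y s hF g hg
  have hne : ∀ ζ ∈ nthRootsFinset 16 (1 : ℂ),
      MvPolynomial.aeval ![y, algebraMap ℂ K ζ * s] g ≠ 0 := by
    intro ζ hζ h0
    rw [mem_nthRootsFinset (by norm_num)] at hζ
    have hz0 : ζ ≠ 0 := by rintro rfl; norm_num at hζ
    apply hg
    rw [hF.van]
    intro p q hpq
    -- the polynomial `g (X₀, ζ X₁)`
    have h1 : MvPolynomial.aeval ![y, s]
        (MvPolynomial.bind₁ ![MvPolynomial.X 0, MvPolynomial.C ζ * MvPolynomial.X 1] g) = 0 := by
      rw [MvPolynomial.aeval_bind₁, ← h0]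
      congr 2
      funext i
      fin_cases i <;> simp
    have h2 := (hF.van _).mp h1 p (ζ⁻¹ * q) (by
      rw [mul_pow, inv_pow, hζ]; simpa using hpq)
    have h3 : MvPolynomial.eval ![p, ζ⁻¹ * q]
        (MvPolynomial.bind₁ ![MvPolynomial.X 0, MvPolynomial.C ζ * MvPolynomial.X 1] g) =
        MvPolynomial.eval ![p, q] g := by
      rw [← MvPolynomial.coe_aeval_eq_eval, ← MvPolynomial.coe_aeval_eq_eval]
      simp only [RingHom.coe_coe]
      rw [MvPolynomial.aeval_bind₁]
      congr 2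
      funext i
      fin_cases i
      · simp
      · simp [hz0]
    rw [← h3]; exact h2
  have hP : ev y s (PP g) ≠ 0 := by
    rw [ev_PP]
    exact Finset.prod_ne_zero_iff.mpr hne
  have hr := aeval_rr y s hF.eqn g
  have hr0 : rr g ≠ 0 := by
    intro h0
    rw [h0, map_zero] at hr
    exact hP hr.symm
  refine ⟨(rr g).leadingCoeff, (rr g).roots, leadingCoeff_ne_zero.mpr hr0, ?_⟩
  rw [← ev_PP, ← hr]
  conv_lhs => rw [(IsAlgClosed.splits (rr g)).eq_prod_roots]
  rw [map_mul, map_multiset_prod, Multiset.map_map]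
  simp

end Pool.Agent.Q22.CN
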