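import Pool.Agent.Q22.CN.Stm

/-!
# Project CN, job NSQ: no continuous square root of `Q` off its zero set

A continuous square root of a polynomial off its zeros is holomorphic there and extends by zero to a
holomorphic function near a zero, so the zero is not simple.
-/

set_option autoImplicit false

open MvPolynomial Metric Set Topology Filter
open scoped LinearAlgebra.Projectivization

namespace Pool.Agent.Q22.CN

open Pool.Agent.TH144.CN

namespace NSQ

lemma deriv_zero (q h : ℂ → ℂ) (hq : Differentiable ℂ q) (hh : ContinuousOn h {t | q t ≠ 0})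
    (hs : ∀ t, q t ≠ 0 → h t ^ 2 = q t) (t0 : ℂ) (h0 : q t0 = 0) : deriv q t0 = 0 := by
  classical
  by_contra hd
  have hopen : IsOpen {t | q t ≠ 0} := isOpen_ne_fun hq.continuous continuous_const
  set f : ℂ → ℂ := fun t => if q t = 0 then 0 else h t with hfdef
  have hf : ∀ t, f t ^ 2 = q t := by
    intro t
    by_cases ht : q t = 0
    · simp [hfdef, ht]
    · simp only [hfdef, if_neg ht]; exact hs t ht
  have hfc : ∀ t, q t ≠ 0 → ContinuousAt f t := by
    intro t ht
    have h1 : ContinuousAt h t := hh.continuousAt (hopen.mem_nhds ht)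
    refine h1.congr ?_
    filter_upwards [hopen.mem_nhds ht] with z hz
    have hz' : q z ≠ 0 := hz
    simp only [hfdef, if_neg hz']
  have hfd : ∀ t, q t ≠ 0 → DifferentiableAt ℂ f t := by
    intro t ht
    have hft : f t ≠ 0 := by
      intro h; apply ht; rw [← hf, h]; ring
    have hsum : Tendsto (fun z => f z + f t) (𝓝[≠] t) (𝓝 (f t + f t)) :=
      ((hfc t ht).tendsto.mono_left nhdsWithin_le_nhds).add tendsto_const_nhds
    have hne2 : f t + f t ≠ 0 := by
      intro h; apply hft; have : 2 * f t = 0 := by rw [← h]; ring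
      simpa using this
    have hsl := (hasDerivAt_iff_tendsto_slope.1 (hq t).hasDerivAt).div hsum hne2
    have hev : ∀ᶠ z in 𝓝[≠] t, f z + f t ≠ 0 := hsum.eventually_ne hne2
    refine HasDerivAt.differentiableAt (f' := deriv q t / (f t + f t)) ?_
    rw [hasDerivAt_iff_tendsto_slope]
    refine hsl.congr' ?_
    filter_upwards [hev] with z hz
    simp only [Pi.div_apply, slope_def_field]
    rw [← hf z, ← hf t]
    rw [div_div, mul_comm (z - t), ← div_div]
    congr 1
    rw [div_eq_iff hz]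
    ring
  have hne : ∀ᶠ z in 𝓝[≠] t0, q z ≠ 0 := by
    have := (hq t0).hasDerivAt.eventually_ne (c := 0) hd
    exact this
  rw [eventually_nhdsWithin_iff] at hne
  set s : Set ℂ := {z | z ∈ ({t0}ᶜ : Set ℂ) → q z ≠ 0} with hsdef
  have hsn : s ∈ 𝓝 t0 := hne
  have hf0 : f t0 = 0 := by simp [hfdef, h0]
  have hcont : ContinuousAt f t0 := by
    unfold ContinuousAt
    rw [hf0, tendsto_zero_iff_norm_tendsto_zero]
    have e1 : ∀ t, ‖f t‖ = Real.sqrt ‖q t‖ := by
      intro t
      rw [← hf t, norm_pow, Real.sqrt_sq (norm_nonneg _)]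
    simp only [e1]
    have e2 : Tendsto (fun t => Real.sqrt ‖q t‖) (𝓝 t0) (𝓝 (Real.sqrt ‖q t0‖)) :=
      (Real.continuous_sqrt.comp (continuous_norm.comp hq.continuous)).tendsto t0
    rw [h0, norm_zero, Real.sqrt_zero] at e2
    exact e2
  have hD : DifferentiableOn ℂ f s := by
    refine (Complex.differentiableOn_compl_singleton_and_continuousAt_iff hsn).1 ⟨?_, hcont⟩
    intro z hz
    exact (hfd z (hz.1 hz.2)).differentiableWithinAt
  have hDa : HasDerivAt f (deriv f t0) t0 := (hD.differentiableAt hsn).hasDerivAt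
  have h2 : HasDerivAt (fun t => f t ^ 2) (2 * f t0 ^ 1 * deriv f t0) t0 := by
    have := hDa.fun_pow 2
    simpa using this
  have h3 : (fun t => f t ^ 2) = q := funext hf
  rw [h3, hf0] at h2
  apply hd
  rw [h2.deriv]
  simp

/-- the restriction to the line `(0, t, 1)` -/
noncomputable def q (t : ℂ) : ℂ := -((t ^ 256) ^ 4 + 16 * (t ^ 256 + g0) ^ 4)

lemma Qf_line (t : ℂ) : Qf ![0, t, 1] = q t := by
  unfold Qf q af gf
  have h0 : (![0, t, 1] : Fin 3 → ℂ) 0 = 0 := rfl
  have h1 : (![0, t, 1] : Fin 3 → ℂ) 1 = t := rfl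
  have h2 : (![0, t, 1] : Fin 3 → ℂ) 2 = 1 := rfl
  rw [h0, h1, h2]
  rw [zero_pow (by norm_num : (240 : ℕ) ≠ 0), zero_pow (by norm_num : (16 : ℕ) ≠ 0),
    zero_pow (by norm_num : (256 : ℕ) ≠ 0), one_pow, one_pow]
  simp only [zero_mul, zero_add, add_zero, mul_one]

lemma q_deriv (t : ℂ) : HasDerivAt q
    (-((4 * (t ^ 256) ^ 3 + 64 * (t ^ 256 + g0) ^ 3) * (256 * t ^ 255))) t := by
  have h1 : HasDerivAt (fun t : ℂ => t ^ 256) (256 * t ^ 255) t := by
    have := hasDerivAt_pow 256 t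
    simpa using this
  have h2 : HasDerivAt (fun t : ℂ => (t ^ 256) ^ 4) (4 * (t ^ 256) ^ 3 * (256 * t ^ 255)) t := by
    have := h1.fun_pow 4
    simpa using this
  have h3 : HasDerivAt (fun t : ℂ => (t ^ 256 + g0) ^ 4)
      (4 * (t ^ 256 + g0) ^ 3 * (256 * t ^ 255)) t := by
    have := (h1.add_const g0).fun_pow 4
    simpa using this
  have h4 := (h2.add (h3.const_mul 16)).neg
  refine h4.congr_deriv ?_
  generalize t ^ 256 = w
  ring

lemma simple_zero : ∃ t0 : ℂ, q t0 = 0 ∧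
    -((4 * (t0 ^ 256) ^ 3 + 64 * (t0 ^ 256 + g0) ^ 3) * (256 * t0 ^ 255)) ≠ 0 := by
  have hg : g0 ≠ 0 := by unfold g0; exact div_ne_zero one_ne_zero (pow_ne_zero _ two_ne_zero)
  obtain ⟨ζ, hζ⟩ := IsAlgClosed.exists_pow_nat_eq (-1 : ℂ) (n := 4) (by norm_num)
  have hζ1 : 1 - 2 * ζ ≠ 0 := by
    intro h
    have h1 : ζ = 1 / 2 := by linear_combination (-1 / 2 : ℂ) * h
    rw [h1] at hζ
    norm_num at hζ
  set u : ℂ := g0 / (1 - 2 * ζ) with hu
  have hu0 : u ≠ 0 := div_ne_zero hg hζ1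
  have hug : u * (1 - 2 * ζ) = g0 := div_mul_cancel₀ _ hζ1
  have hζ0 : ζ ≠ 0 := by
    intro h; rw [h] at hζ; norm_num at hζ
  obtain ⟨t0, ht0⟩ := IsAlgClosed.exists_pow_nat_eq (2 * ζ * u) (n := 256) (by norm_num)
  have ht00 : t0 ≠ 0 := by
    intro h
    rw [h, zero_pow (by norm_num)] at ht0
    have : 2 * ζ * u ≠ 0 := mul_ne_zero (mul_ne_zero two_ne_zero hζ0) hu0
    exact this ht0.symm
  have hsum : t0 ^ 256 + g0 = u := by rw [ht0, ← hug]; ring
  refine ⟨t0, ?_, ?_⟩
  · unfold q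
    rw [hsum, ht0]
    linear_combination (-(16 * u ^ 4)) * hζ
  · rw [hsum, ht0]
    have e1 : 4 * (2 * ζ * u) ^ 3 + 64 * u ^ 3 = 32 * u ^ 3 * (ζ ^ 3 + 2) := by ring
    rw [e1]
    have e2 : ζ ^ 3 + 2 ≠ 0 := by
      intro h
      have h1 : ζ ^ 3 = -2 := by linear_combination h
      have h2 : (ζ ^ 4) ^ 3 = (ζ ^ 3) ^ 4 := by ring
      rw [hζ, h1] at h2
      norm_num at h2
    refine neg_ne_zero.2 (mul_ne_zero (mul_ne_zero (mul_ne_zero (by norm_num) (pow_ne_zero _ hu0)) e2)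
      (mul_ne_zero (by norm_num) (pow_ne_zero _ ht00)))

end NSQ

theorem t_NSQ : S_NSQ := by
  rintro ⟨g, hg, hs⟩
  obtain ⟨t0, h0, h1⟩ := NSQ.simple_zero
  have hd := (NSQ.q_deriv t0).deriv
  have hq : Differentiable ℂ NSQ.q := fun t => (NSQ.q_deriv t).differentiableAt
  have hline : Continuous (fun t : ℂ => (![0, t, 1] : Fin 3 → ℂ)) := by
    refine continuous_pi fun i => ?_
    fin_cases i
    · exact continuous_const
    · exact continuous_id
    · exact continuous_const
  have h2 := NSQ.deriv_zero NSQ.q (fun t => g ![0, t, 1]) hq ?_ ?_ t0 h0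
  · rw [hd] at h2
    exact h1 h2
  · refine hg.comp hline.continuousOn ?_
    intro t ht
    change Qf ![0, t, 1] ≠ 0
    rw [NSQ.Qf_line]
    exact ht
  · intro t ht
    have h3 := hs ![0, t, 1] (by rw [NSQ.Qf_line]; exact ht)
    rw [NSQ.Qf_line] at h3
    exact h3

end Pool.Agent.Q22.CN
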