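import Pool.Agent.Q22.CN.Stm

/-!
# The two numbers
-/

set_option autoImplicit false

open MvPolynomial Metric Set Topology Filter

namespace Pool.Agent.Q22.CN

open Pool.Agent.TH144.CN

namespace NUM

theorem fs {α : Type*} (S : Set α) (hS : S.Finite) (c : ℤ) :
    ∑ᶠ P : α, S.indicator (fun _ => c) P = S.ncard * c := by
  rw [← finsum_mem_def, finsum_mem_eq_finite_toFinset_sum _ hS, Finset.sum_const,
    ← Set.ncard_eq_toFinset_card S hS, nsmul_eq_mul]

theorem fin_ind {α : Type*} (S : Set α) (hS : S.Finite) (c : ℤ) :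
    (Function.support (S.indicator (fun _ : α => c))).Finite :=
  hS.subset Set.support_indicator_subset

theorem ord_sub_pos {K : Type} [Field K] [Algebra ℂ K] (P : Place K) {f g : K}
    (hf : 0 < P.ord f) (hg : 0 < P.ord g) (h : f - g ≠ 0) : 0 < P.ord (f - g) := by
  have hf0 : f ≠ 0 := by
    rintro rfl
    rw [P.ord_zero] at hf
    exact lt_irrefl _ hf
  have hg0 : g ≠ 0 := by
    rintro rfl
    rw [P.ord_zero] at hg
    exact lt_irrefl _ hg
  have hm : (-1 : K) ≠ 0 := neg_ne_zero.2 one_ne_zero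
  have h1 : P.ord (-1 : K) = 0 := by
    have h2 := P.ord_const (c := (-1 : ℂ)) (neg_ne_zero.2 one_ne_zero)
    rwa [map_neg, map_one] at h2
  have h2 : P.ord (-1 * g) = P.ord g := by
    rw [P.ord_mul hm hg0, h1, zero_add]
  have h3 := P.ord_add hf0 (mul_ne_zero hm hg0) (by rwa [neg_one_mul, ← sub_eq_add_neg])
  rw [h2, neg_one_mul, ← sub_eq_add_neg] at h3
  exact lt_of_lt_of_le (lt_min hf hg) h3

/-- a place over a finite point is not over a point at infinity -/
theorem ord_ne {K : Type} [Field K] [Algebra ℂ K] (P : Place K) {y : K} {p : ℂ}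
    (h : 0 < P.ord (y - algebraMap ℂ K p)) : P.ord y ≠ -1 := by
  intro h1
  rcases eq_or_ne p 0 with rfl | hp
  · rw [map_zero, sub_zero, h1] at h
    exact absurd h (by norm_num)
  · have hy : y ≠ 0 := by
      rintro rfl
      rw [P.ord_zero] at h1
      exact absurd h1 (by norm_num)
    have hyp : y - algebraMap ℂ K p ≠ 0 := by
      intro h0
      rw [h0, P.ord_zero] at h
      exact lt_irrefl _ h
    have hp' : algebraMap ℂ K p ≠ 0 := by
      rw [Ne, map_eq_zero]
      exact hp
    have h2 := P.ord_add hyp hp' (by rwa [sub_add_cancel])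
    rw [sub_add_cancel, P.ord_const hp, h1, min_eq_right h.le] at h2
    exact absurd h2 (by norm_num)

/-- the two coordinates of the point below a place are determined by the place -/
theorem no_two {K : Type} [Field K] [Algebra ℂ K] (P : Place K) {s : K} {q : ℂ} (hq : q ≠ 0)
    (h : 0 < P.ord (s - algebraMap ℂ K q)) (h0 : 0 < P.ord (s - algebraMap ℂ K 0)) : False := by
  have e : (s - algebraMap ℂ K 0) - (s - algebraMap ℂ K q) = algebraMap ℂ K q := by
    rw [map_zero]
    ring
  have h1 := ord_sub_pos P h0 h (by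
    rw [e, Ne, map_eq_zero]
    exact hq)
  rw [e, P.ord_const hq] at h1
  exact lt_irrefl _ h1

end NUM

open NUM in
theorem t_NUM : S_NUM := by
  intro hcen hcnt K _ _ y s hK ω hω D hD hDy hpro hvor hbrm htan
  obtain ⟨hI, hI16, hJ, hJ16, hi, hj⟩ := hcnt K y s hK
  obtain ⟨I, hIdef⟩ : ∃ I : Set (Place K),
      I = {P : Place K | ∃ v : ℂ, v ^ 16 + 1 = 0 ∧ At y⁻¹ (s * y⁻¹) P 0 v} := ⟨_, rfl⟩
  obtain ⟨J, hJdef⟩ : ∃ J : Set (Place K),
      J = {P : Place K | ∃ p : ℂ, p ^ 16 + 1 = 0 ∧ At y s P p 0} := ⟨_, rfl⟩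
  rw [← hIdef] at hI hI16
  rw [← hJdef] at hJ hJ16
  have hIJ : ∀ P ∈ I, P ∉ J := by
    intro P h1 h2
    rw [hIdef] at h1
    rw [hJdef] at h2
    obtain ⟨v, hv, hv2⟩ := h1
    obtain ⟨p, hp, hp2⟩ := h2
    have h3 := (hi P v hv hv2).1
    have h4 := (hj P p hp hp2).2.1
    rw [h3] at h4
    exact absurd h4 (by norm_num)
  have hfin : ∀ (P : Place K) (p q : ℂ), At y s P p q → P ∉ I := by
    intro P p q h h1
    rw [hIdef] at h1
    obtain ⟨v, hv, hv2⟩ := h1
    exact ord_ne P h.1 (hi P v hv hv2).1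
  have hqJ : ∀ (P : Place K) (p q : ℂ), q ≠ 0 → At y s P p q → P ∉ J := by
    intro P p q hq h h1
    rw [hJdef] at h1
    obtain ⟨p', hp, hp2⟩ := h1
    exact no_two P hq h.2 hp2.2
  -- the vector orders
  have hV : ∀ P : Place K, vectorOrder P D = P.ord (D y) + I.indicator (fun _ => (2 : ℤ)) P +
      J.indicator (fun _ => (-15 : ℤ)) P := by
    intro P
    rcases hcen K y s hK P with ⟨p, q, hpq, hat⟩ | ⟨v, hv, hat⟩
    · have h1 := hfin P p q hat
      rcases eq_or_ne q 0 with rfl | hq
      · have hp : p ^ 16 + 1 = 0 := by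
          rw [← hpq]
          ring
        have h2 : P ∈ J := by
          rw [hJdef]
          exact ⟨p, hp, hat⟩
        rw [Set.indicator_of_notMem h1, Set.indicator_of_mem h2, (hvor P).2.1 p hp hat]
        ring
      · rw [Set.indicator_of_notMem h1, Set.indicator_of_notMem (hqJ P p q hq hat),
          (hvor P).1 p q hq hpq hat]
        ring
    · have h1 : P ∈ I := by
        rw [hIdef]
        exact ⟨v, hv, hat⟩
      rw [Set.indicator_of_mem h1, Set.indicator_of_notMem (hIJ P h1), (hvor P).2.2 v hv hat]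
      ring
  have hB : ∀ P : Place K,
      ((branchMult P ![1, 0, algebraMap ℂ K ω] ![1, y, y ^ 15 * s] : ℕ) : ℤ) - 1 =
        I.indicator (fun _ => (14 : ℤ)) P := by
    intro P
    rcases hcen K y s hK P with ⟨p, q, hpq, hat⟩ | ⟨v, hv, hat⟩
    · rw [Set.indicator_of_notMem (hfin P p q hat), (hbrm P).1 p q hpq hat]
      norm_num
    · have h1 : P ∈ I := by
        rw [hIdef]
        exact ⟨v, hv, hat⟩
      rw [Set.indicator_of_mem h1, (hbrm P).2 v hv hat]
      norm_num
  have hT : ∀ P : Place K,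
      tangentOrder P ![1, 0, algebraMap ℂ K ω] ![1, y, y ^ 15 * s] D =
        vectorOrder P D + I.indicator (fun _ => (14 : ℤ)) P := by
    intro P
    rcases hcen K y s hK P with ⟨p, q, hpq, hat⟩ | ⟨v, hv, hat⟩
    · rw [Set.indicator_of_notMem (hfin P p q hat), (htan P).1 p q hpq hat, add_zero]
    · have h1 : P ∈ I := by
        rw [hIdef]
        exact ⟨v, hv, hat⟩
      rw [Set.indicator_of_mem h1, (htan P).2 v hv hat]
  obtain ⟨hpf, hp0⟩ := hpro (D y) hDy
  have hf1 : (Function.support fun P : Place K => P.ord (D y)).Finite := hpf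
  have hf2 := fin_ind I hI 2
  have hf3 := fin_ind J hJ (-15)
  have hf4 := fin_ind I hI 14
  have hf12 : (Function.support fun P : Place K =>
      P.ord (D y) + I.indicator (fun _ => (2 : ℤ)) P).Finite :=
    (hf1.union hf2).subset (Function.support_add _ _)
  have hfV : (Function.support fun P : Place K => vectorOrder P D).Finite := by
    have e : (fun P : Place K => vectorOrder P D) = fun P => P.ord (D y) +
        I.indicator (fun _ => (2 : ℤ)) P + J.indicator (fun _ => (-15 : ℤ)) P := funext hV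
    rw [e]
    exact (hf12.union hf3).subset (Function.support_add _ _)
  have sV : ∑ᶠ P : Place K, vectorOrder P D = -208 := by
    rw [finsum_congr hV, finsum_add_distrib hf12 hf3, finsum_add_distrib hf1 hf2, hp0, fs I hI,
      fs J hJ, hI16, hJ16]
    norm_num
  have sB : ∑ᶠ P : Place K,
      (((branchMult P ![1, 0, algebraMap ℂ K ω] ![1, y, y ^ 15 * s] : ℕ) : ℤ) - 1) = 224 := by
    rw [finsum_congr hB, fs I hI, hI16]
    norm_num
  have sT : ∑ᶠ P : Place K,
      tangentOrder P ![1, 0, algebraMap ℂ K ω] ![1, y, y ^ 15 * s] D = 16 := by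
    rw [finsum_congr hT, finsum_add_distrib hfV hf4, sV, fs I hI, hI16]
    norm_num
  constructor
  · unfold indexNumber
    rw [sV, sB]
    norm_num
  · unfold conormalNumber
    rw [sT]

end Pool.Agent.Q22.CN
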