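import Pool.Agent.Q22.CN.Stm

/-!
# ORY: the divisor of `y - a` has degree zero
-/

set_option autoImplicit false

open MvPolynomial Metric Set Topology Filter
open scoped LinearAlgebra.Projectivization

namespace Pool.Agent.Q22.CN

open Pool.Agent.TH144.CN

namespace ORY

variable {K : Type} [Field K] [Algebra ℂ K]

lemma ord_neg (P : Place K) (f : K) : P.ord (-f) = P.ord f := by
  by_cases hf : f = 0
  · rw [hf, neg_zero]
  · have h1 : (algebraMap ℂ K (-1)) ≠ 0 := by
      rw [map_neg, map_one]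
      exact neg_ne_zero.mpr one_ne_zero
    have h2 : -f = algebraMap ℂ K (-1) * f := by
      rw [map_neg, map_one]
      ring
    rw [h2, P.ord_mul h1 hf, P.ord_const (neg_ne_zero.mpr one_ne_zero), zero_add]

lemma ord_one (P : Place K) : P.ord 1 = 0 := by
  have := P.ord_const (c := 1) one_ne_zero
  rwa [map_one] at this

lemma ord_add_const (P : Place K) (f : K) (c : ℂ) (hf : 0 < P.ord f) (hc : c ≠ 0) :
    P.ord (f + algebraMap ℂ K c) = 0 := by
  have hf0 : f ≠ 0 := by
    rintro rfl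
    rw [P.ord_zero] at hf
    exact lt_irrefl _ hf
  have hcK : algebraMap ℂ K c ≠ 0 := by
    rw [Ne, map_eq_zero]
    exact hc
  have hsum : f + algebraMap ℂ K c ≠ 0 := by
    intro h
    have h1 : f = -(algebraMap ℂ K c) := eq_neg_of_add_eq_zero_left h
    rw [h1, ord_neg, P.ord_const hc] at hf
    exact lt_irrefl _ hf
  have h1 := P.ord_add hf0 hcK hsum
  rw [P.ord_const hc] at h1
  have h2 : 0 ≤ P.ord (f + algebraMap ℂ K c) := le_trans (le_min hf.le le_rfl) h1
  rcases h2.lt_or_eq with h3 | h3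
  · exfalso
    have h4 : (f + algebraMap ℂ K c) + (-f) = algebraMap ℂ K c := by ring
    have h5 := P.ord_add hsum (neg_ne_zero.mpr hf0) (by rw [h4]; exact hcK)
    rw [h4, ord_neg, P.ord_const hc] at h5
    exact absurd h5 (not_le.mpr (lt_min h3 hf))
  · exact h3.symm

lemma value_unique (P : Place K) (f : K) (p q : ℂ) (hp : 0 < P.ord (f - algebraMap ℂ K p))
    (hq : 0 < P.ord (f - algebraMap ℂ K q)) : p = q := by
  by_contra hne
  have h1 : f - algebraMap ℂ K q = (f - algebraMap ℂ K p) + algebraMap ℂ K (p - q) := by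
    rw [map_sub]
    ring
  rw [h1, ord_add_const P _ _ hp (sub_ne_zero.mpr hne)] at hq
  exact lt_irrefl _ hq

lemma ord_other (P : Place K) (f : K) (p a : ℂ) (hp : 0 < P.ord (f - algebraMap ℂ K p))
    (hne : p ≠ a) : P.ord (f - algebraMap ℂ K a) = 0 := by
  have h1 : f - algebraMap ℂ K a = (f - algebraMap ℂ K p) + algebraMap ℂ K (p - a) := by
    rw [map_sub]
    ring
  rw [h1, ord_add_const P _ _ hp (sub_ne_zero.mpr hne)]

lemma ord_inf (P : Place K) (y : K) (hy : P.ord y = -1) (a : ℂ) :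
    P.ord (y - algebraMap ℂ K a) = -1 := by
  by_cases ha : a = 0
  · rw [ha, map_zero, sub_zero, hy]
  · have hy0 : y ≠ 0 := by
      rintro rfl
      rw [P.ord_zero] at hy
      omega
    have hyi : P.ord y⁻¹ = 1 := by
      have h1 := P.ord_mul hy0 (inv_ne_zero hy0)
      rw [mul_inv_cancel₀ hy0, ord_one, hy] at h1
      omega
    have ha' : algebraMap ℂ K (-a) ≠ 0 := by
      rw [Ne, map_eq_zero]
      exact neg_ne_zero.mpr ha
    have h2 : P.ord (algebraMap ℂ K (-a) * y⁻¹) = 1 := by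
      rw [P.ord_mul ha' (inv_ne_zero hy0), P.ord_const (neg_ne_zero.mpr ha), hyi, zero_add]
    have h3 : P.ord (algebraMap ℂ K (-a) * y⁻¹ + algebraMap ℂ K 1) = 0 :=
      ord_add_const P _ _ (by rw [h2]; exact one_pos) one_ne_zero
    have h4 : y - algebraMap ℂ K a
        = y * (algebraMap ℂ K (-a) * y⁻¹ + algebraMap ℂ K 1) := by
      rw [map_one, map_neg]
      field_simp
      ring
    have h5 : (algebraMap ℂ K (-a) * y⁻¹ + algebraMap ℂ K 1) ≠ 0 := by
      intro h0
      have h6 : algebraMap ℂ K (-a) * y⁻¹ = algebraMap ℂ K (-1) := by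
        rw [map_neg (algebraMap ℂ K) 1]
        exact eq_neg_of_add_eq_zero_left h0
      rw [h6, P.ord_const (neg_ne_zero.mpr one_ne_zero)] at h2
      omega
    rw [h4, P.ord_mul hy0 h5, h3, hy, add_zero]

/-- the sixteenth roots of a nonzero number -/
lemma roots_card (c : ℂ) (hc : c ≠ 0) :
    ∃ R : Finset ℂ, R.card = 16 ∧ ∀ q, q ∈ R ↔ q ^ 16 = c := by
  classical
  have hprim := Complex.isPrimitiveRoot_exp 16 (by norm_num)
  refine ⟨(Polynomial.nthRoots 16 c).toFinset, ?_, fun q => ?_⟩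
  · rw [Multiset.toFinset_card_of_nodup (hprim.nthRoots_nodup hc), hprim.card_nthRoots]
    rw [if_pos (IsAlgClosed.exists_pow_nat_eq c (by norm_num))]
  · rw [Multiset.mem_toFinset, Polynomial.mem_nthRoots (by norm_num)]

/-- the zeros of `y - a` -/
lemma zeros (hRAT : S_RAT) (hSYM : S_SYM) (hLOC : S_LOC) (hEXI : S_EXI) (hCNT : S_CNT)
    (y s : K) (hFK : FK K y s) (a : ℂ) :
    ∃ Z : Finset (Place K), (∀ P ∈ Z, 0 < P.ord (y - algebraMap ℂ K a)) ∧
      (∀ P : Place K, ∀ q : ℂ, a ^ 16 + q ^ 16 + 1 = 0 → At y s P a q → P ∈ Z) ∧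
      ∑ P ∈ Z, P.ord (y - algebraMap ℂ K a) = 16 := by
  classical
  by_cases ha : a ^ 16 + 1 = 0
  · have ha0 : a ≠ 0 := by
      rintro rfl
      norm_num at ha
    have hsy := (hSYM K y s hFK).2
    obtain ⟨P, hP⟩ := hEXI hRAT K s y hsy 0 a ha0 (by
      linear_combination ha)
    obtain ⟨-, huniq, -, -⟩ := hLOC hRAT K s y hsy P 0 a ha0 (by
      linear_combination ha) hP
    have hAt : At y s P a 0 := ⟨hP.2, hP.1⟩
    obtain ⟨-, -, -, -, -, h6⟩ := hCNT hRAT hSYM hLOC hEXI K y s hFK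
    refine ⟨{P}, ?_, ?_, ?_⟩
    · intro P' hP'
      rw [Finset.mem_singleton] at hP'
      rw [hP']
      exact hAt.1
    · intro P' q hq hP'
      rw [Finset.mem_singleton]
      have hq0 : q = 0 := by
        have h7 : q ^ 16 = 0 := by linear_combination hq - ha
        exact pow_eq_zero_iff (by norm_num) |>.mp h7
      rw [hq0] at hP'
      exact huniq P' ⟨hP'.2, hP'.1⟩
    · rw [Finset.sum_singleton]
      exact (h6 P a ha hAt).2.2
  · have hc : -1 - a ^ 16 ≠ 0 := by
      intro h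
      apply ha
      linear_combination -h
    obtain ⟨R, hR, hmem⟩ := roots_card (-1 - a ^ 16) hc
    have hqR : ∀ q ∈ R, q ≠ 0 ∧ a ^ 16 + q ^ 16 + 1 = 0 := by
      intro q hq
      rw [hmem] at hq
      refine ⟨?_, by rw [hq]; ring⟩
      rintro rfl
      apply hc
      rw [← hq]
      norm_num
    have hex : ∀ q ∈ R, ∃ P : Place K, At y s P a q := fun q hq =>
      hEXI hRAT K y s hFK a q (hqR q hq).1 (hqR q hq).2
    have hne : Nonempty (Place K) := by
      have : R.Nonempty := by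
        rw [← Finset.card_pos, hR]
        norm_num
      obtain ⟨q, hq⟩ := this
      exact ⟨(hex q hq).choose⟩
    choose! φ hφ using hex
    have hord : ∀ q ∈ R, (φ q).ord (y - algebraMap ℂ K a) = 1 := fun q hq =>
      (hLOC hRAT K y s hFK (φ q) a q (hqR q hq).1 (hqR q hq).2 (hφ q hq)).1
    have hinj : ∀ q ∈ R, ∀ q' ∈ R, φ q = φ q' → q = q' := by
      intro q hq q' hq' h
      have h1 := (hφ q hq).2
      have h2 := (hφ q' hq').2
      rw [← h] at h2
      exact value_unique (φ q) s q q' h1 h2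
    refine ⟨R.image φ, ?_, ?_, ?_⟩
    · intro P hP
      rw [Finset.mem_image] at hP
      obtain ⟨q, hq, rfl⟩ := hP
      exact (hφ q hq).1
    · intro P q hq hP
      have hqR' : q ∈ R := by
        rw [hmem]
        linear_combination hq
      rw [Finset.mem_image]
      refine ⟨q, hqR', ?_⟩
      exact ((hLOC hRAT K y s hFK (φ q) a q (hqR q hqR').1 (hqR q hqR').2 (hφ q hqR')).2.1
        P hP).symm
    · rw [Finset.sum_image hinj, Finset.sum_congr rfl hord, Finset.sum_const, hR]
      norm_num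

end ORY

open ORY in
theorem t_ORY : S_ORY := by
  classical
  intro hRAT hSYM hLOC hEXI hTRD hRES hCEN hCNT K _ _ y s hFK a
  obtain ⟨hI, hIc, -, -, hIord, -⟩ := hCNT hRAT hSYM hLOC hEXI K y s hFK
  obtain ⟨Z, hZpos, hZmem, hZsum⟩ := zeros hRAT hSYM hLOC hEXI hCNT y s hFK a
  have hfI : ∀ P ∈ hI.toFinset, P.ord (y - algebraMap ℂ K a) = -1 := by
    intro P hP
    rw [Set.Finite.mem_toFinset] at hP
    obtain ⟨v, hv, hAt⟩ := hP
    exact ord_inf P y (hIord P v hv hAt).1 a
  have hsupp : Function.support (fun P : Place K => P.ord (y - algebraMap ℂ K a)) ⊆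
      ((hI.toFinset ∪ Z : Finset (Place K)) : Set (Place K)) := by
    intro P hP
    rw [Function.mem_support] at hP
    rw [Finset.coe_union]
    rcases hCEN hTRD hRES K y s hFK P with ⟨p, q, hpq, hAt⟩ | ⟨v, hv, hAt⟩
    · right
      by_cases hpa : p = a
      · rw [hpa] at hpq hAt
        exact hZmem P q hpq hAt
      · exact absurd (ord_other P y p a hAt.1 hpa) hP
    · left
      rw [Set.Finite.coe_toFinset]
      exact ⟨v, hv, hAt⟩
  refine ⟨(Finset.finite_toSet (hI.toFinset ∪ Z)).subset hsupp, ?_⟩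
  rw [finsum_eq_sum_of_support_subset _ hsupp, Finset.sum_union, hZsum,
    Finset.sum_congr rfl hfI, Finset.sum_const, ← Set.ncard_eq_toFinset_card _ hI, hIc]
  · norm_num
  · rw [Finset.disjoint_left]
    intro P hP hPZ
    have h1 := hfI P hP
    have h2 := hZpos P hPZ
    omega

end Pool.Agent.Q22.CN
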