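import Pool.Agent.Q22.CN.Stm

/-!
# Project CN (helper22), job PRO: the product formula
-/

set_option autoImplicit false

open MvPolynomial Metric Set Topology Filter
open scoped LinearAlgebra.Projectivization

namespace Pool.Agent.Q22.CN

open Pool.Agent.TH144.CN

namespace PRO

variable {K : Type} [Field K] [Algebra ℂ K]

lemma place_ext {P Q : Place K} (h : ∀ f, P.ord f = Q.ord f) : P = Q := by
  cases P; cases Q
  have : ∀ f, _ = _ := h
  simp only [Place.mk.injEq]
  funext f
  exact h f

/-- transport of a place -/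
def tr (σ : K ≃ₐ[ℂ] K) (P : Place K) : Place K where
  ord f := P.ord (σ f)
  ord_zero := by rw [map_zero]; exact P.ord_zero
  ord_mul := by
    intro f g hf hg
    rw [map_mul]
    exact P.ord_mul (by simpa using hf) (by simpa using hg)
  ord_add := by
    intro f g hf hg hfg
    rw [map_add]
    exact P.ord_add (by simpa using hf) (by simpa using hg)
      (by rw [← map_add]; exact (map_ne_zero_iff _ σ.injective).mpr hfg)
  ord_const := by
    intro c hc
    rw [AlgEquiv.commutes]
    exact P.ord_const hc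
  surj := by
    obtain ⟨t, ht, h1⟩ := P.surj
    exact ⟨σ.symm t, by simpa using ht, by rw [AlgEquiv.apply_symm_apply]; exact h1⟩

/-- transport is a bijection -/
def trE (σ : K ≃ₐ[ℂ] K) : Place K ≃ Place K where
  toFun := tr σ
  invFun := tr σ.symm
  left_inv P := by apply place_ext; intro f; simp [tr]
  right_inv P := by apply place_ext; intro f; simp [tr]

/-- the valuation ring -/
def VR (P : Place K) : Subalgebra ℂ K where
  carrier := {f | f = 0 ∨ 0 ≤ P.ord f}
  mul_mem' := by
    intro a b ha hb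
    by_cases h1 : a = 0
    · left; simp [h1]
    by_cases h2 : b = 0
    · left; simp [h2]
    right
    rw [P.ord_mul h1 h2]
    exact add_nonneg (ha.resolve_left h1) (hb.resolve_left h2)
  add_mem' := by
    intro a b ha hb
    by_cases h1 : a = 0
    · simpa [h1] using hb
    by_cases h2 : b = 0
    · simpa [h2] using ha
    by_cases h3 : a + b = 0
    · left; exact h3
    right
    have := P.ord_add h1 h2 h3
    have h4 := ha.resolve_left h1
    have h5 := hb.resolve_left h2
    exact le_trans (le_min h4 h5) this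
  algebraMap_mem' := by
    intro c
    by_cases hc : c = 0
    · left; simp [hc]
    · right; rw [P.ord_const hc]

lemma mem_VR {P : Place K} {f : K} : f ∈ VR P ↔ f = 0 ∨ 0 ≤ P.ord f := Iff.rfl

lemma mem_of_at {P : Place K} {f : K} {c : ℂ} (h : 0 < P.ord (f - algebraMap ℂ K c)) : f ∈ VR P := by
  have h1 : f - algebraMap ℂ K c ∈ VR P := Or.inr h.le
  have h2 : algebraMap ℂ K c ∈ VR P := (VR P).algebraMap_mem c
  have := (VR P).add_mem h1 h2
  simpa using this

lemma aeval_mem {P : Place K} {y s : K} (hy : y ∈ VR P) (hs : s ∈ VR P)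
    (g : MvPolynomial (Fin 2) ℂ) : aeval ![y, s] g ∈ VR P := by
  have h : ∀ i, ![y, s] i ∈ VR P := by
    intro i; fin_cases i
    · exact hy
    · exact hs
  induction g using MvPolynomial.induction_on with
  | C a => rw [aeval_C]; exact (VR P).algebraMap_mem a
  | add p q hp hq => rw [map_add]; exact (VR P).add_mem hp hq
  | mul_X p i hp => rw [map_mul, aeval_X]; exact (VR P).mul_mem hp (h i)

lemma ord_prod (P : Place K) {ι : Type} (S : Finset ι) (F : ι → K) (h : ∀ i ∈ S, F i ≠ 0) :
    P.ord (∏ i ∈ S, F i) = ∑ i ∈ S, P.ord (F i) := by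
  classical
  induction S using Finset.induction_on with
  | empty =>
    simp
    have := P.ord_const (c := 1) one_ne_zero
    simpa using this
  | insert a S ha ih =>
    rw [Finset.prod_insert ha, Finset.sum_insert ha, P.ord_mul (h a (Finset.mem_insert_self _ _))
      (Finset.prod_ne_zero_iff.mpr fun i hi => h i (Finset.mem_insert_of_mem hi)),
      ih fun i hi => h i (Finset.mem_insert_of_mem hi)]

lemma ord_mprod (P : Place K) (m : Multiset K) (h : ∀ x ∈ m, x ≠ 0) :
    P.ord m.prod = (m.map P.ord).sum := by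
  classical
  induction m using Multiset.induction_on with
  | empty =>
    simp
    have := P.ord_const (c := 1) one_ne_zero
    simpa using this
  | cons a m ih =>
    rw [Multiset.prod_cons, Multiset.map_cons, Multiset.sum_cons,
      P.ord_mul (h a (Multiset.mem_cons_self _ _))
        (Multiset.prod_ne_zero fun h0 => h 0 (Multiset.mem_cons_of_mem h0) rfl),
      ih fun x hx => h x (Multiset.mem_cons_of_mem hx)]

/-- finite support and sum zero -/
def Good (φ : Place K → ℤ) : Prop := {P | φ P ≠ 0}.Finite ∧ ∑ᶠ P, φ P = 0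

lemma good_msum (m : Multiset ℂ) (φ : ℂ → Place K → ℤ) (h : ∀ a ∈ m, Good (φ a)) :
    Good (fun P => (m.map fun a => φ a P).sum) := by
  classical
  induction m using Multiset.induction_on with
  | empty => simp [Good]
  | cons a m ih =>
    have h1 := h a (Multiset.mem_cons_self _ _)
    have h2 := ih fun x hx => h x (Multiset.mem_cons_of_mem hx)
    simp only [Multiset.map_cons, Multiset.sum_cons]
    refine ⟨(h1.1.union h2.1).subset ?_, ?_⟩
    · intro P hP
      by_contra hc
      simp only [mem_union, mem_ofPred_eq, not_or, not_not] at hc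
      apply hP
      show φ a P + _ = 0
      rw [hc.1, hc.2]; rfl
    · rw [finsum_add_distrib (f := fun P => φ a P) h1.1 h2.1, h1.2, h2.2]; rfl

end PRO

theorem t_PRO : S_PRO := by
  intro hRAT hTRD hRES hCEN hAUT hNRM hCNT hSYM hLOC hEXI hORY K _ _ y s hF
  classical
  have hRAT' := hRAT K y s hF
  have hCEN' := hCEN hTRD hRES K y s hF
  have hCNT' := hCNT hRAT hSYM hLOC hEXI K y s hF
  have hORY' := hORY hRAT hSYM hLOC hEXI hTRD hRES hCEN hCNT K y s hF
  have hya : ∀ a : ℂ, y - algebraMap ℂ K a ≠ 0 := by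
    intro a ha
    -- `y` is not constant
    have h := (hF.van (X 0 - C a)).mp (by simpa using ha)
    obtain ⟨q, hq⟩ := IsAlgClosed.exists_pow_nat_eq (-1 - (a + 1) ^ 16 : ℂ) (n := 16) (by norm_num)
    have := h (a + 1) q (by rw [hq]; ring)
    simp at this
  -- polynomials
  have key : ∀ g : MvPolynomial (Fin 2) ℂ, aeval ![y, s] g ≠ 0 →
      PRO.Good (fun P : Place K => P.ord (aeval ![y, s] g)) := by
    intro g hg
    obtain ⟨c, m, hc, hprod⟩ := hNRM K y s hF g hg
    have hσ : ∀ ζ ∈ Polynomial.nthRootsFinset 16 (1 : ℂ), ∃ σ : K ≃ₐ[ℂ] K,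
        σ (aeval ![y, s] g) = aeval ![y, algebraMap ℂ K ζ * s] g := by
      intro ζ hζ
      have h16 : ζ ^ 16 = 1 := (Polynomial.mem_nthRootsFinset (by norm_num) (1 : ℂ)).mp hζ
      obtain ⟨σ, h1, h2⟩ := hAUT hRAT K y s hF ζ h16
      refine ⟨σ, ?_⟩
      have : (σ : K →ₐ[ℂ] K).comp (aeval ![y, s]) = aeval ![y, algebraMap ℂ K ζ * s] := by
        apply MvPolynomial.algHom_ext
        intro i
        fin_cases i
        · simp [h1]
        · simp [h2]
      rw [← this]; rfl
    choose! σ hσ using hσ
    set N := Polynomial.nthRootsFinset 16 (1 : ℂ) with hN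
    have hne : ∀ ζ ∈ N, aeval ![y, algebraMap ℂ K ζ * s] g ≠ 0 := by
      intro ζ hζ
      rw [← hσ ζ hζ]
      simpa using hg
    have hord : ∀ P : Place K, ∑ ζ ∈ N, P.ord (aeval ![y, algebraMap ℂ K ζ * s] g) =
        (m.map fun a => P.ord (y - algebraMap ℂ K a)).sum := by
      intro P
      rw [← PRO.ord_prod P N _ hne, hprod, P.ord_mul, P.ord_const hc, zero_add, PRO.ord_mprod,
        Multiset.map_map]
      · rfl
      · intro x hx
        obtain ⟨a, -, rfl⟩ := Multiset.mem_map.mp hx
        exact hya a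
      · simpa using hc
      · apply Multiset.prod_ne_zero
        intro h0
        obtain ⟨a, -, h⟩ := Multiset.mem_map.mp h0
        exact hya a h
    have hR := PRO.good_msum (K := K) m (fun a P => P.ord (y - algebraMap ℂ K a))
      (fun a _ => hORY' a)
    have h1N : (1 : ℂ) ∈ N := by
      rw [hN, Polynomial.mem_nthRootsFinset (by norm_num)]; norm_num
    have hF1 : aeval ![y, algebraMap ℂ K 1 * s] g = aeval ![y, s] g := by simp
    have hfin : {P : Place K | P.ord (aeval ![y, s] g) ≠ 0}.Finite := by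
      refine (hR.1.union hCNT'.1).subset ?_
      intro P hP
      rcases hCEN' P with ⟨p, q, hpq, hat⟩ | ⟨v, hv, hat⟩
      · left
        have hy := PRO.mem_of_at hat.1
        have hs := PRO.mem_of_at hat.2
        have hnn : ∀ ζ ∈ N, 0 ≤ P.ord (aeval ![y, algebraMap ℂ K ζ * s] g) := by
          intro ζ hζ
          have := PRO.aeval_mem hy ((PRO.VR P).mul_mem ((PRO.VR P).algebraMap_mem ζ) hs) g
          exact (PRO.mem_VR.mp this).resolve_left (hne ζ hζ)
        have hpos : 0 < ∑ ζ ∈ N, P.ord (aeval ![y, algebraMap ℂ K ζ * s] g) := by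
          refine Finset.sum_pos' hnn ⟨1, h1N, ?_⟩
          have h0 := hnn 1 h1N
          rw [hF1] at h0 ⊢
          exact lt_of_le_of_ne h0 (Ne.symm hP)
        rw [hord P] at hpos
        exact hpos.ne'
      · right
        exact ⟨v, hv, hat⟩
    refine ⟨hfin, ?_⟩
    have hfinσ : ∀ ζ ∈ N, {P : Place K | P.ord (aeval ![y, algebraMap ℂ K ζ * s] g) ≠ 0}.Finite := by
      intro ζ hζ
      have : {P : Place K | P.ord (aeval ![y, algebraMap ℂ K ζ * s] g) ≠ 0} =
          (PRO.trE (σ ζ)) ⁻¹' {P : Place K | P.ord (aeval ![y, s] g) ≠ 0} := by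
        ext P
        simp only [mem_ofPred_eq, mem_preimage]
        rw [← hσ ζ hζ]
        rfl
      rw [this]
      exact hfin.preimage (PRO.trE (σ ζ)).injective.injOn
    have hsum : ∀ ζ ∈ N, ∑ᶠ P : Place K, P.ord (aeval ![y, algebraMap ℂ K ζ * s] g) =
        ∑ᶠ P : Place K, P.ord (aeval ![y, s] g) := by
      intro ζ hζ
      rw [← finsum_comp_equiv (PRO.trE (σ ζ)) (f := fun P : Place K => P.ord (aeval ![y, s] g))]
      apply finsum_congr
      intro P
      rw [← hσ ζ hζ]
      rfl
    have h1 : ∑ᶠ P : Place K, ∑ ζ ∈ N, P.ord (aeval ![y, algebraMap ℂ K ζ * s] g) =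
        ∑ ζ ∈ N, ∑ᶠ P : Place K, P.ord (aeval ![y, algebraMap ℂ K ζ * s] g) := by
      exact finsum_sum_comm N (fun (P : Place K) ζ => P.ord (aeval ![y, algebraMap ℂ K ζ * s] g)) hfinσ
    rw [Finset.sum_congr rfl hsum, Finset.sum_const] at h1
    simp only [hord] at h1
    rw [hR.2] at h1
    have hcard : N.card ≠ 0 := Finset.card_ne_zero_of_mem h1N
    simpa [hcard] using h1.symm
  intro f hf
  obtain ⟨g, h, hh, hfe⟩ := hRAT' f
  have hg : aeval ![y, s] g ≠ 0 := by
    intro h0
    rw [h0, zero_div] at hfe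
    exact hf hfe
  have hord : ∀ P : Place K, P.ord f = P.ord (aeval ![y, s] g) - P.ord (aeval ![y, s] h) := by
    intro P
    have : aeval ![y, s] g = f * aeval ![y, s] h := by rw [hfe]; field_simp
    rw [this, P.ord_mul hf hh]; ring
  have kg := key g hg
  have kh := key h hh
  simp only [hord]
  refine ⟨(kg.1.union kh.1).subset ?_, ?_⟩
  · intro P hP
    by_contra hc
    simp only [mem_union, mem_ofPred_eq, not_or, not_not] at hc
    exact hP (by rw [hc.1, hc.2]; rfl)
  · rw [finsum_sub_distrib (f := fun P : Place K => P.ord (aeval ![y, s] g)) kg.1 kh.1, kg.2, kh.2]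
    rfl

end Pool.Agent.Q22.CN
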