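import Pool.Agent.Q22.CN.Stm

/-!
# Project CN (helper22), MP_225e67_ag: lemma RAT

The elements of the function field are quotients of polynomials in the two generators.
-/

set_option autoImplicit false

namespace Pool.Agent.Q22.CN

open Pool.Agent.TH144.CN MvPolynomial Metric Set Topology Filter

theorem t_RAT : S_RAT := by
  intro K _ _ y s h f
  have hr : ({y, s} : Set K) = Set.range ![y, s] := by
    ext z
    simp only [Set.mem_insert_iff, Set.mem_singleton_iff, Set.mem_range, Fin.exists_fin_two,
      Matrix.cons_val_zero, Matrix.cons_val_one]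
    constructor
    · rintro (h | h)
      · exact Or.inl h.symm
      · exact Or.inr h.symm
    · rintro (h | h)
      · exact Or.inl h.symm
      · exact Or.inr h.symm
  have hf : f ∈ IntermediateField.adjoin ℂ ({y, s} : Set K) := by
    rw [h.gen]
    exact IntermediateField.mem_top
  rw [hr, IntermediateField.mem_adjoin_range_iff] at hf
  obtain ⟨g, q, hgq⟩ := hf
  by_cases hq : aeval ![y, s] q = 0
  · refine ⟨0, 1, by simp, ?_⟩
    rw [hgq, hq]
    simp
  · exact ⟨g, q, hq, hgq⟩

end Pool.Agent.Q22.CN
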