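import Pool.Agent.Q22.CN.Stm

/-!
# Project CN (helper22), MP_225e67_ag: residues at a place (helper40)
-/

set_option autoImplicit false

open Pool.Agent.TH144.CN MvPolynomial Metric Set Topology Filter

namespace Pool.Agent.Q22.CN.RES

variable {K : Type} [Field K] [Algebra ℂ K]

lemma ord_add_nonneg (P : Place K) {f g : K} (hf : 0 ≤ P.ord f) (hg : 0 ≤ P.ord g) :
    0 ≤ P.ord (f + g) := by
  by_cases hf0 : f = 0
  · rw [hf0, zero_add]; exact hg
  by_cases hg0 : g = 0
  · rw [hg0, add_zero]; exact hf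
  by_cases h : f + g = 0
  · rw [h, P.ord_zero]
  exact (le_min hf hg).trans (P.ord_add hf0 hg0 h)

lemma ord_mul_nonneg (P : Place K) {f g : K} (hf : 0 ≤ P.ord f) (hg : 0 ≤ P.ord g) :
    0 ≤ P.ord (f * g) := by
  by_cases hf0 : f = 0
  · rw [hf0, zero_mul, P.ord_zero]
  by_cases hg0 : g = 0
  · rw [hg0, mul_zero, P.ord_zero]
  rw [P.ord_mul hf0 hg0]
  exact add_nonneg hf hg

lemma ord_one (P : Place K) : P.ord 1 = 0 := by
  have h := P.ord_const (c := 1) one_ne_zero
  rwa [map_one] at h

lemma ord_const_all (P : Place K) (c : ℂ) : P.ord (algebraMap ℂ K c) = 0 := by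
  by_cases h : c = 0
  · rw [h, map_zero, P.ord_zero]
  · exact P.ord_const h

lemma ord_pow_nonneg (P : Place K) {f : K} (hf : 0 ≤ P.ord f) (n : ℕ) : 0 ≤ P.ord (f ^ n) := by
  induction n with
  | zero => rw [pow_zero, ord_one P]
  | succ n ih => rw [pow_succ]; exact ord_mul_nonneg P ih hf

lemma ord_sum_nonneg (P : Place K) {ι : Type} (s : Finset ι) (u : ι → K)
    (h : ∀ i ∈ s, 0 ≤ P.ord (u i)) : 0 ≤ P.ord (∑ i ∈ s, u i) := by
  classical
  induction s using Finset.induction_on with
  | empty => rw [Finset.sum_empty, P.ord_zero]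
  | insert a s ha ih =>
    rw [Finset.sum_insert ha]
    exact ord_add_nonneg P (h a (Finset.mem_insert_self a s))
      (ih fun i hi => h i (Finset.mem_insert_of_mem hi))

lemma ord_neg (P : Place K) (f : K) : P.ord (-f) = P.ord f := by
  by_cases hf : f = 0
  · rw [hf, neg_zero]
  have h1 : P.ord (-1) = 0 := by
    have h := P.ord_const (c := -1) (neg_ne_zero.2 one_ne_zero)
    rwa [map_neg, map_one] at h
  have h2 : (-1 : K) ≠ 0 := neg_ne_zero.2 one_ne_zero
  rw [neg_eq_neg_one_mul, P.ord_mul h2 hf, h1, zero_add]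

/-- if `f - c` has order `0` for all constants `c` and `f` is not a constant, then the nonzero
polynomials in `f` have order `0` -/
lemma ord_aeval (P : Place K) (f : K) (hf : ∀ c : ℂ, f - algebraMap ℂ K c ≠ 0)
    (h0 : ∀ c : ℂ, P.ord (f - algebraMap ℂ K c) = 0) (p : Polynomial ℂ) (hp : p ≠ 0) :
    Polynomial.aeval f p ≠ 0 ∧ P.ord (Polynomial.aeval f p) = 0 := by
  have hs := IsAlgClosed.splits p
  have key : ∀ m : Multiset ℂ,
      ((m.map fun a => f - algebraMap ℂ K a).prod ≠ 0) ∧
        P.ord ((m.map fun a => f - algebraMap ℂ K a).prod) = 0 := by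
    intro m
    induction m using Multiset.induction_on with
    | empty =>
      rw [Multiset.map_zero, Multiset.prod_zero]
      exact ⟨one_ne_zero, ord_one P⟩
    | cons a m ih =>
      rw [Multiset.map_cons, Multiset.prod_cons]
      refine ⟨mul_ne_zero (hf a) ih.1, ?_⟩
      rw [P.ord_mul (hf a) ih.1, h0 a, ih.2, add_zero]
  have e : Polynomial.aeval f p = algebraMap ℂ K p.leadingCoeff *
      (p.roots.map fun a => f - algebraMap ℂ K a).prod := by
    conv_lhs => rw [hs.eq_prod_roots]
    rw [map_mul, Polynomial.aeval_C, map_multiset_prod, Multiset.map_map]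
    congr 3
    ext a
    simp
  have hl : algebraMap ℂ K p.leadingCoeff ≠ 0 := by
    rw [Ne, map_eq_zero]
    exact Polynomial.leadingCoeff_ne_zero.2 hp
  obtain ⟨h1, h2⟩ := key p.roots
  rw [e]
  refine ⟨mul_ne_zero hl h1, ?_⟩
  rw [P.ord_mul hl h1, h2, ord_const_all, add_zero]

end Pool.Agent.Q22.CN.RES

namespace Pool.Agent.Q22.CN

theorem t_RES : S_RES := by
  intro hT K _ _ y s hK P f hf
  by_contra hcon
  push Not at hcon
  have hne : ∀ c : ℂ, f - algebraMap ℂ K c ≠ 0 := fun c h => (hcon c).1 (sub_eq_zero.1 h)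
  have h0 : ∀ c : ℂ, P.ord (f - algebraMap ℂ K c) = 0 := by
    intro c
    refine le_antisymm (hcon c).2 ?_
    rw [sub_eq_add_neg, ← map_neg]
    refine RES.ord_add_nonneg P hf ?_
    rw [RES.ord_const_all]
  have hpol := RES.ord_aeval P f hne h0
  have htr : Transcendental ℂ f := by
    intro halg
    obtain ⟨p, hp, hpf⟩ := halg
    exact (hpol p hp).1 hpf
  obtain ⟨t, ht0, ht1⟩ := P.surj
  -- `f` and `t` are algebraically dependent
  have hx : AlgebraicIndependent ℂ (fun _ : Unit => f) :=
    algebraicIndependent_unique_type_iff.2 htr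
  have hdep : ¬ AlgebraicIndependent ℂ (fun o : Option Unit => o.elim t (fun _ : Unit => f)) := by
    intro h
    have h1 := h.cardinalMk_le_trdeg
    rw [hT K y s hK] at h1
    have h2 : Cardinal.mk (Option Unit) = 2 := by
      rw [Cardinal.mk_option, Cardinal.mk_unit]
      norm_num
    rw [h2] at h1
    exact absurd h1 (by norm_num)
  rw [hx.option_iff_transcendental] at hdep
  have hat : IsAlgebraic (Algebra.adjoin ℂ (Set.range fun _ : Unit => f)) t := by
    by_contra h
    exact hdep h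
  obtain ⟨q, hq0, hq⟩ := hat.exists_nonzero_coeff_and_aeval_eq_zero
    (mem_nonZeroDivisors_of_ne_zero ht0)
  have hcoef : ∀ a : Algebra.adjoin ℂ (Set.range fun _ : Unit => f), a ≠ 0 →
      (a : K) ≠ 0 ∧ P.ord (a : K) = 0 := by
    intro a ha
    have hset : ∀ z : K, z ∈ Algebra.adjoin ℂ (Set.range fun _ : Unit => f) →
        z ∈ Algebra.adjoin ℂ ({f} : Set K) := by
      rw [Set.range_const]
      exact fun z h => h
    have h1 : (a : K) ∈ Algebra.adjoin ℂ ({f} : Set K) := hset _ a.2
    rw [Algebra.adjoin_singleton_eq_range_aeval] at h1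
    obtain ⟨p, hp⟩ := h1
    have hp' : Polynomial.aeval f p = (a : K) := hp
    have hp0 : p ≠ 0 := by
      rintro rfl
      rw [map_zero] at hp'
      exact ha (Subtype.ext hp'.symm)
    rw [← hp']
    exact hpol p hp0
  have hcoef' : ∀ a : Algebra.adjoin ℂ (Set.range fun _ : Unit => f), 0 ≤ P.ord (a : K) := by
    intro a
    by_cases ha : a = 0
    · rw [ha]
      simp [P.ord_zero]
    · rw [(hcoef a ha).2]
  -- split off the constant coefficient
  have hsplit : Polynomial.aeval t q =
      t * (Polynomial.aeval t q.divX) + ((q.coeff 0 : Algebra.adjoin ℂ _) : K) := by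
    conv_lhs => rw [← Polynomial.X_mul_divX_add q]
    rw [map_add, map_mul, Polynomial.aeval_X, Polynomial.aeval_C]
    rfl
  rw [hq] at hsplit
  have hG : 0 ≤ P.ord (Polynomial.aeval t q.divX) := by
    rw [Polynomial.aeval_eq_sum_range]
    refine RES.ord_sum_nonneg P _ _ fun i _ => ?_
    rw [Algebra.smul_def]
    refine RES.ord_mul_nonneg P (hcoef' _) (RES.ord_pow_nonneg P (by rw [ht1]; norm_num) i)
  have ha0 := hcoef _ hq0
  have hG0 : Polynomial.aeval t q.divX ≠ 0 := by
    intro h
    rw [h, mul_zero, zero_add] at hsplit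
    exact ha0.1 hsplit.symm
  have h3 : t * Polynomial.aeval t q.divX = -((q.coeff 0 : Algebra.adjoin ℂ _) : K) :=
    eq_neg_of_add_eq_zero_left hsplit.symm
  have h4 := congrArg P.ord h3
  rw [P.ord_mul ht0 hG0, RES.ord_neg, ha0.2, ht1] at h4
  omega

end Pool.Agent.Q22.CN
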