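import Pool.Agent.Q22.CN.Stm

/-! SM1: the members `A + 2 s G`, `s⁴ = -1`, have no singular points. -/

set_option autoImplicit false

open MvPolynomial Metric Set Topology Filter

namespace Pool.Agent.Q22.CN

open Pool.Agent.TH144.CN

lemma sm1_norm {s : ℂ} (hs : s ^ 4 = -1) : ‖s‖ = 1 := by
  have h : ‖s‖ ^ 4 = 1 := by rw [← norm_pow, hs, norm_neg, norm_one]
  exact (pow_eq_one_iff_of_nonneg (norm_nonneg s) (by norm_num)).1 h

lemma sm1_norm2 {s : ℂ} (hs : s ^ 4 = -1) : 1 ≤ ‖1 + 2 * s‖ := by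
  have h1 := sm1_norm hs
  have h2 : ‖2 * s‖ = 2 := by rw [norm_mul, h1]; norm_num
  have h3 : ‖2 * s‖ ≤ ‖1 + 2 * s‖ + ‖(1 : ℂ)‖ := by
    have h4 : 2 * s = (1 + 2 * s) - 1 := by ring
    calc ‖2 * s‖ = ‖(1 + 2 * s) - 1‖ := by rw [← h4]
      _ ≤ _ := norm_sub_le _ _
  rw [h2, norm_one] at h3
  linarith

lemma sm1_g0 : g0 ≠ 0 := by
  unfold g0
  exact one_div_ne_zero (pow_ne_zero _ two_ne_zero)

/-- the case `x 0 ≠ 0` in the coordinates `v`, `t` -/
lemma sm1_key {s v t : ℂ} (hs : s ^ 4 = -1) (h0 : 15 * t + v ^ 15 + 32 * s = 0)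
    (h1 : v = 0 ∨ 16 * (1 + 2 * s) * v + 15 = 0) (h2 : t = 0 ∨ 1 + 32 * s * g0 * t ^ 15 = 0) :
    False := by
  have n1 := sm1_norm hs
  have n2 := sm1_norm2 hs
  have hv : ‖v‖ ≤ 1 := by
    rcases h1 with h1 | h1
    · rw [h1, norm_zero]; exact zero_le_one
    · have h3 : 16 * (1 + 2 * s) * v = -15 := by linear_combination h1
      have h4 : 16 * ‖1 + 2 * s‖ * ‖v‖ = 15 := by
        have := congrArg norm h3
        rw [norm_mul, norm_mul, norm_neg] at this
        norm_num at this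
        exact this
      have h5 : ‖v‖ ≤ ‖1 + 2 * s‖ * ‖v‖ := le_mul_of_one_le_left (norm_nonneg v) n2
      linarith
  have hv15 : ‖v ^ 15‖ ≤ 1 := by
    rw [norm_pow]
    exact pow_le_one₀ (norm_nonneg v) hv
  have hs32 : ‖32 * s‖ = 32 := by
    rw [norm_mul, n1]; norm_num
  have ht : 15 * t = -(v ^ 15 + 32 * s) := by linear_combination h0
  have nt : 15 * ‖t‖ = ‖v ^ 15 + 32 * s‖ := by
    have := congrArg norm ht
    rw [norm_mul, norm_neg] at this
    norm_num at this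
    exact this
  have nt1 : ‖v ^ 15 + 32 * s‖ ≤ 33 := by
    have := norm_add_le (v ^ 15) (32 * s)
    linarith
  have nt2 : 31 ≤ ‖v ^ 15 + 32 * s‖ := by
    have h4 : 32 * s = (v ^ 15 + 32 * s) - v ^ 15 := by ring
    have h5 : ‖32 * s‖ ≤ ‖v ^ 15 + 32 * s‖ + ‖v ^ 15‖ := by
      calc ‖32 * s‖ = ‖(v ^ 15 + 32 * s) - v ^ 15‖ := by rw [← h4]
        _ ≤ _ := norm_sub_le _ _
    linarith
  have ht0 : t ≠ 0 := by
    intro h
    rw [h, norm_zero] at nt
    linarith
  have ht3 : ‖t‖ ≤ 3 := by linarith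
  have h3 := h2.resolve_left ht0
  have h4 : 32 * s * g0 * t ^ 15 = -1 := by linear_combination h3
  have h5 : ‖32 * s‖ * ‖g0‖ * ‖t‖ ^ 15 = 1 := by
    have := congrArg norm h4
    rw [norm_mul, norm_mul, norm_neg, norm_one, norm_pow] at this
    exact this
  have h6 : ‖g0‖ = 1 / 2 ^ 300 := by
    unfold g0
    rw [norm_div, norm_one, norm_pow]
    norm_num
  have h7 : ‖t‖ ^ 15 ≤ 3 ^ 15 := pow_le_pow_left₀ (norm_nonneg t) ht3 15
  rw [hs32, h6] at h5
  have h8 : (32 : ℝ) * (1 / 2 ^ 300) * ‖t‖ ^ 15 ≤ 32 * (1 / 2 ^ 300) * 3 ^ 15 :=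
    mul_le_mul_of_nonneg_left h7 (by positivity)
  have h10 : (2 : ℝ) ^ 60 ≤ 2 ^ 300 := pow_le_pow_right₀ (by norm_num) (by norm_num)
  have h11 : (1 : ℝ) / 2 ^ 300 ≤ 1 / 2 ^ 60 := one_div_le_one_div_of_le (by positivity) h10
  have h9 : (32 : ℝ) * (1 / 2 ^ 60) * 3 ^ 15 < 1 := by norm_num
  have h12 : (32 : ℝ) * (1 / 2 ^ 300) * 3 ^ 15 ≤ 32 * (1 / 2 ^ 60) * 3 ^ 15 :=
    mul_le_mul_of_nonneg_right (mul_le_mul_of_nonneg_left h11 (by norm_num)) (by positivity)
  generalize (1 : ℝ) / 2 ^ 300 = z at *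
  linarith

theorem t_SM1 : S_SM1 := by
  intro s x hs hx h
  have h0 : (240 * x 0 ^ 239 * x 2 ^ 16 + 16 * x 0 ^ 15 * x 1 ^ 240) +
      2 * s * (256 * x 0 ^ 255) = 0 := congrFun h 0
  have h1 : (256 * x 1 ^ 255 + 240 * x 0 ^ 16 * x 1 ^ 239) +
      2 * s * (256 * x 1 ^ 255) = 0 := congrFun h 1
  have h2 : (16 * x 0 ^ 240 * x 2 ^ 15) + 2 * s * (256 * g0 * x 2 ^ 255) = 0 := congrFun h 2
  have n1 := sm1_norm hs
  have n2 := sm1_norm2 hs
  have hs0 : s ≠ 0 := by
    intro h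
    rw [h, norm_zero] at n1
    exact zero_ne_one n1
  have hs1 : 1 + 2 * s ≠ 0 := by
    intro h
    rw [h, norm_zero] at n2
    linarith
  by_cases hx0 : x 0 = 0
  · have e1 : x 1 = 0 := by
      rw [hx0] at h1
      have h3 : (256 * (1 + 2 * s)) * x 1 ^ 255 = 0 := by
        have h4 : (0 : ℂ) ^ 16 = 0 := zero_pow (by norm_num)
        rw [h4] at h1
        linear_combination h1
      rcases mul_eq_zero.1 h3 with h4 | h4
      · exact absurd h4 (mul_ne_zero (by norm_num) hs1)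
      · exact (pow_eq_zero_iff (by norm_num)).1 h4
    have e2 : x 2 = 0 := by
      rw [hx0] at h2
      have h3 : (512 * s * g0) * x 2 ^ 255 = 0 := by
        have h4 : (0 : ℂ) ^ 240 = 0 := zero_pow (by norm_num)
        rw [h4] at h2
        linear_combination h2
      rcases mul_eq_zero.1 h3 with h4 | h4
      · exact absurd h4 (mul_ne_zero (mul_ne_zero (by norm_num) hs0) sm1_g0)
      · exact (pow_eq_zero_iff (by norm_num)).1 h4
    apply hx
    funext i
    fin_cases i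
    · exact hx0
    · exact e1
    · exact e2
  · set a := x 0 with ha
    set b := x 1 with hb
    set c := x 2 with hc
    refine sm1_key (s := s) (v := b ^ 16 / a ^ 16) (t := c ^ 16 / a ^ 16) hs ?_ ?_ ?_
    · have e : 16 * a ^ 255 * (15 * (c ^ 16 / a ^ 16) + (b ^ 16 / a ^ 16) ^ 15 + 32 * s) =
          (240 * a ^ 239 * c ^ 16 + 16 * a ^ 15 * b ^ 240) + 2 * s * (256 * a ^ 255) := by
        have e1 : a ^ 255 = a ^ 239 * a ^ 16 := by ring
        have e2 : a ^ 255 = a ^ 15 * (a ^ 16) ^ 15 := by ring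
        have e3 : a ^ 16 ≠ 0 := pow_ne_zero _ hx0
        have e4 : a ^ 255 * (c ^ 16 / a ^ 16) = a ^ 239 * c ^ 16 := by
          rw [e1, mul_assoc, mul_div_cancel₀ _ e3]
        have e5 : a ^ 255 * (b ^ 16 / a ^ 16) ^ 15 = a ^ 15 * b ^ 240 := by
          rw [e2, div_pow, mul_assoc, mul_div_cancel₀ _ (pow_ne_zero _ e3)]
          ring
        linear_combination 240 * e4 + 16 * e5
      rw [h0] at e
      rcases mul_eq_zero.1 e with h4 | h4
      · exact absurd h4 (mul_ne_zero (by norm_num) (pow_ne_zero _ hx0))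
      · exact h4
    · by_cases hb0 : b = 0
      · left
        rw [hb0, zero_pow (by norm_num), zero_div]
      · right
        have e3 : a ^ 16 ≠ 0 := pow_ne_zero _ hx0
        have e : (16 * a ^ 16 * b ^ 239) * (16 * (1 + 2 * s) * (b ^ 16 / a ^ 16) + 15) =
            (256 * b ^ 255 + 240 * a ^ 16 * b ^ 239) + 2 * s * (256 * b ^ 255) := by
          have e4 : a ^ 16 * (b ^ 16 / a ^ 16) = b ^ 16 := mul_div_cancel₀ _ e3
          linear_combination (256 * (1 + 2 * s) * b ^ 239) * e4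
        rw [h1] at e
        rcases mul_eq_zero.1 e with h4 | h4
        · exact absurd h4 (mul_ne_zero (mul_ne_zero (by norm_num) e3) (pow_ne_zero _ hb0))
        · exact h4
    · by_cases hc0 : c = 0
      · left
        rw [hc0, zero_pow (by norm_num), zero_div]
      · right
        have e3 : a ^ 16 ≠ 0 := pow_ne_zero _ hx0
        have e : (16 * a ^ 240 * c ^ 15) * (1 + 32 * s * g0 * (c ^ 16 / a ^ 16) ^ 15) =
            (16 * a ^ 240 * c ^ 15) + 2 * s * (256 * g0 * c ^ 255) := by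
          have e4 : a ^ 240 * (c ^ 16 / a ^ 16) ^ 15 = c ^ 240 := by
            have e5 : a ^ 240 = (a ^ 16) ^ 15 := by ring
            rw [e5, div_pow, mul_div_cancel₀ _ (pow_ne_zero _ e3)]
            ring
          linear_combination (16 * c ^ 15 * (32 * s * g0)) * e4
        rw [h2] at e
        rcases mul_eq_zero.1 e with h4 | h4
        · exact absurd h4 (mul_ne_zero (mul_ne_zero (by norm_num) (pow_ne_zero _ hx0))
            (pow_ne_zero _ hc0))
        · exact h4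

end Pool.Agent.Q22.CN
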