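import Pool.Agent.Q22.CN.Stm

/-!
# Project CN, job SM2: transversality at the base points of the pencil
-/

set_option autoImplicit false

open MvPolynomial Metric Set Topology Filter

namespace Pool.Agent.Q22.CN.SM2

open Pool.Agent.TH144.CN

theorem norm_g0 : ‖g0‖ = 1 / 2 ^ 300 := by
  unfold g0
  rw [norm_div, norm_pow, norm_one, Complex.norm_ofNat]

theorem g0_ne : g0 ≠ 0 := by
  unfold g0
  exact div_ne_zero one_ne_zero (pow_ne_zero _ two_ne_zero)

/-- the equations have no common solution -/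
theorem core (v t : ℂ) (h1 : t + v ^ 16 + v ^ 15 = 0) (h2 : 1 + v ^ 16 + g0 * t ^ 16 = 0)
    (h3 : v = g0 * t ^ 15 * (16 * v + 15)) (hv : v ≠ 0) : False := by
  obtain ⟨w, hw⟩ : ∃ w, w = v + 1 := ⟨_, rfl⟩
  have ht : t = -(v ^ 15 * w) := by
    rw [hw]
    linear_combination h1
  have h4 : 1 + g0 * v ^ 224 * w ^ 15 * (16 * v + 15) = 0 := by
    have e1 : v * (1 + g0 * v ^ 224 * w ^ 15 * (16 * v + 15)) = 0 := by
      rw [ht] at h3
      linear_combination h3
    exact (mul_eq_zero.1 e1).resolve_left hv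
  have h2' : 1 + v ^ 16 + g0 * (v ^ 240 * w ^ 16) = 0 := by
    rw [ht] at h2
    linear_combination h2
  have h5 : v ^ 16 * w - (1 + v ^ 16) * (16 * v + 15) = 0 := by
    linear_combination (v ^ 16 * w) * h4 - (16 * v + 15) * h2'
  have h6 : 15 * v ^ 17 = -(14 * v ^ 16 + 16 * v + 15) := by
    rw [hw] at h5
    linear_combination -h5
  obtain ⟨r, hr⟩ : ∃ r : ℝ, r = ‖v‖ := ⟨_, rfl⟩
  have hr0 : 0 ≤ r := hr ▸ norm_nonneg v
  have hr2 : r ≤ 2 := by
    by_contra hcon
    push Not at hcon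
    have e1 : 15 * r ^ 17 ≤ 14 * r ^ 16 + 16 * r + 15 := by
      have e2 := congrArg norm h6
      rw [norm_neg, norm_mul, norm_pow, ← hr] at e2
      have e3 : ‖(14 : ℂ) * v ^ 16 + 16 * v + 15‖ ≤ 14 * r ^ 16 + 16 * r + 15 := by
        refine (norm_add_le _ _).trans ?_
        have e4 : ‖(14 : ℂ) * v ^ 16 + 16 * v‖ ≤ 14 * r ^ 16 + 16 * r := by
          refine (norm_add_le _ _).trans ?_
          rw [norm_mul, norm_mul, norm_pow, ← hr, Complex.norm_ofNat, Complex.norm_ofNat]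
        rw [Complex.norm_ofNat]
        linarith
      rw [Complex.norm_ofNat] at e2
      linarith
    have e5 : (2 : ℝ) * r ^ 16 ≤ r ^ 17 := by
      rw [pow_succ r 16]
      nlinarith [pow_pos (by linarith : (0 : ℝ) < r) 16]
    have e6 : (2 : ℝ) * r ≤ r ^ 16 := by
      have e7 : (2 : ℝ) ^ 15 ≤ r ^ 15 := pow_le_pow_left₀ (by norm_num) hcon.le 15
      have e8 : r ^ 16 = r ^ 15 * r := pow_succ r 15
      rw [e8]
      nlinarith
    nlinarith
  have hw3 : ‖w‖ ≤ 3 := by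
    rw [hw]
    refine (norm_add_le _ _).trans ?_
    rw [norm_one, ← hr]
    linarith
  have h7 : ‖(16 : ℂ) * v + 15‖ ≤ 47 := by
    refine (norm_add_le _ _).trans ?_
    rw [norm_mul, ← hr, Complex.norm_ofNat, Complex.norm_ofNat]
    linarith
  have h8 : (1 : ℝ) = ‖g0‖ * r ^ 224 * ‖w‖ ^ 15 * ‖(16 : ℂ) * v + 15‖ := by
    have e1 : g0 * v ^ 224 * w ^ 15 * (16 * v + 15) = -1 := by linear_combination h4
    have e2 := congrArg norm e1
    rw [norm_neg, norm_one, norm_mul, norm_mul, norm_mul, norm_pow, norm_pow, ← hr] at e2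
    exact e2.symm
  have h9 : ‖g0‖ * r ^ 224 * ‖w‖ ^ 15 * ‖(16 : ℂ) * v + 15‖ ≤ (1 / 2 ^ 300) * 2 ^ 224 * 3 ^ 15 * 47 := by
    rw [norm_g0]
    gcongr
  have h10 : (1 / 2 ^ 300 : ℝ) * 2 ^ 224 * 3 ^ 15 * 47 < 1 := by
    have e1 : (2 : ℝ) ^ 300 = 2 ^ 224 * 2 ^ 76 := pow_add 2 224 76
    have e2 : (1 / 2 ^ 300 : ℝ) * 2 ^ 224 * 3 ^ 15 * 47 = 3 ^ 15 * 47 / 2 ^ 76 := by
      rw [e1]
      have e3 : (2 : ℝ) ^ 224 ≠ 0 := pow_ne_zero _ two_ne_zero
      have e4 : (2 : ℝ) ^ 76 ≠ 0 := pow_ne_zero _ two_ne_zero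
      field_simp
    rw [e2]
    norm_num
  exact absurd (h8.le.trans h9) (not_le.2 h10)

end Pool.Agent.Q22.CN.SM2

namespace Pool.Agent.Q22.CN

open Pool.Agent.TH144.CN SM2

theorem t_SM2 : S_SM2 := by
  intro c0 c1 x hx hA hG hc
  unfold af at hA
  unfold gf at hG
  have hg := g0_ne
  have h0 : x 0 ≠ 0 := by
    intro h
    rw [h] at hA hG
    have h1 : x 1 = 0 := by
      have e : x 1 ^ 256 = 0 := by
        rw [← hA]
        ring
      exact pow_eq_zero_iff (by norm_num) |>.1 e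
    rw [h1] at hG
    have h2 : x 2 = 0 := by
      have e : g0 * x 2 ^ 256 = 0 := by
        rw [← hG]
        ring
      exact pow_eq_zero_iff (by norm_num) |>.1 ((mul_eq_zero.1 e).resolve_left hg)
    apply hx
    funext i
    fin_cases i
    · exact h
    · exact h1
    · exact h2
  obtain ⟨a, ha⟩ : ∃ a, a = x 0 ^ 16 := ⟨_, rfl⟩
  obtain ⟨b, hb⟩ : ∃ b, b = x 1 ^ 16 := ⟨_, rfl⟩
  obtain ⟨c, hcc⟩ : ∃ c, c = x 2 ^ 16 := ⟨_, rfl⟩
  have ha0 : a ≠ 0 := ha ▸ pow_ne_zero 16 h0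
  have hA' : a ^ 15 * c + b ^ 16 + a * b ^ 15 = 0 := by
    rw [ha, hb, hcc]
    linear_combination hA
  have hG' : a ^ 16 + b ^ 16 + g0 * c ^ 16 = 0 := by
    rw [ha, hb, hcc]
    linear_combination hG
  have hb0 : b ≠ 0 := by
    intro h
    rw [h] at hA' hG'
    have h1 : c = 0 := by
      have e : a ^ 15 * c = 0 := by
        rw [← hA']
        ring
      exact (mul_eq_zero.1 e).resolve_left (pow_ne_zero 15 ha0)
    rw [h1] at hG'
    have e : a ^ 16 = 0 := by
      rw [← hG']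
      ring
    exact pow_ne_zero 16 ha0 e
  have hc0 : c ≠ 0 := by
    intro h
    rw [h] at hA' hG'
    have e1 : b ^ 15 * (b + a) = 0 := by linear_combination hA'
    have e2 : b = -a := by
      have := (mul_eq_zero.1 e1).resolve_left (pow_ne_zero 15 hb0)
      linear_combination this
    rw [e2] at hG'
    have e3 : 2 * a ^ 16 = 0 := by linear_combination hG'
    exact pow_ne_zero 16 ha0 ((mul_eq_zero.1 e3).resolve_left two_ne_zero)
  have h1 : x 1 ≠ 0 := by
    intro h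
    apply hb0
    rw [hb, h]
    ring
  have h2 : x 2 ≠ 0 := by
    intro h
    apply hc0
    rw [hcc, h]
    ring
  -- the components
  have k2 : c0 * a ^ 15 + 16 * c1 * g0 * c ^ 15 = 0 := by
    have e := congrFun hc 2
    have e1 : c0 * (16 * x 0 ^ 240 * x 2 ^ 15) + c1 * (256 * g0 * x 2 ^ 255) = 0 := by
      simpa [dA, dG] using e
    have e2 : (16 * x 2 ^ 15) * (c0 * a ^ 15 + 16 * c1 * g0 * c ^ 15) = 0 := by
      rw [ha, hcc]
      linear_combination e1
    exact (mul_eq_zero.1 e2).resolve_left (mul_ne_zero (by norm_num) (pow_ne_zero 15 h2))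
  have k1 : c0 * (16 * b + 15 * a) + 16 * c1 * b = 0 := by
    have e := congrFun hc 1
    have e1 : c0 * (256 * x 1 ^ 255 + 240 * x 0 ^ 16 * x 1 ^ 239) + c1 * (256 * x 1 ^ 255) = 0 := by
      simpa [dA, dG] using e
    have e2 : (16 * x 1 ^ 239) * (c0 * (16 * b + 15 * a) + 16 * c1 * b) = 0 := by
      rw [ha, hb]
      linear_combination e1
    exact (mul_eq_zero.1 e2).resolve_left (mul_ne_zero (by norm_num) (pow_ne_zero 239 h1))
  by_cases hc1 : c1 = 0
  · refine ⟨?_, hc1⟩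
    rw [hc1] at k2
    have e : c0 * a ^ 15 = 0 := by linear_combination k2
    exact (mul_eq_zero.1 e).resolve_right (pow_ne_zero 15 ha0)
  · exfalso
    refine core (b / a) (c / a) ?_ ?_ ?_ (div_ne_zero hb0 ha0)
    · field_simp
      linear_combination hA'
    · field_simp
      linear_combination hG'
    · have e1 : (16 * c1) * (b * a ^ 15 - g0 * c ^ 15 * (16 * b + 15 * a)) = 0 := by
        linear_combination (a ^ 15) * k1 - (16 * b + 15 * a) * k2
      have e2 : b * a ^ 15 - g0 * c ^ 15 * (16 * b + 15 * a) = 0 :=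
        (mul_eq_zero.1 e1).resolve_left (mul_ne_zero (by norm_num) hc1)
      field_simp
      linear_combination e2

end Pool.Agent.Q22.CN
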