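import Pool.Agent.Q22.CN.Stm

/-!
# Project CN (helper22), MP_225e67_ag, job SMO (helper182): the surface is smooth
-/

set_option autoImplicit false

open MvPolynomial Metric Set Topology Filter
open Pool.Agent.TH144.CN

namespace Pool.Agent.Q22.CN

set_option linter.unusedSimpArgs false
set_option linter.unnecessarySeqFocus false

namespace SMO

theorem bE_l (b x : Fin 3 → ℂ) (i : Fin 3) :
    eval (Sum.elim b x) (pderiv (Sum.inl i) bE) = 4 * b i ^ 3 := by
  unfold bE
  fin_cases i <;>
    simp [pderiv_X_of_ne, Derivation.leibniz_pow, pderiv_X_self]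

theorem bE_r (b x : Fin 3 → ℂ) (i : Fin 3) :
    eval (Sum.elim b x) (pderiv (Sum.inr i) bE) = 0 := by
  unfold bE
  simp [pderiv_X_of_ne, Derivation.leibniz_pow]

theorem bA_l (i : Fin 3) : pderiv (Sum.inl i) bA = 0 := by
  unfold bA
  simp [pderiv_X_of_ne, Derivation.leibniz_pow]

theorem bG_l (i : Fin 3) : pderiv (Sum.inl i) bG = 0 := by
  unfold bG
  simp [pderiv_X_of_ne, Derivation.leibniz_pow]

theorem bA_r (b x : Fin 3 → ℂ) (i : Fin 3) :
    eval (Sum.elim b x) (pderiv (Sum.inr i) bA) = dA x i := by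
  unfold bA dA
  fin_cases i <;>
    simp [pderiv_X_of_ne, Derivation.leibniz_pow, pderiv_X_self] <;> ring

theorem bG_r (b x : Fin 3 → ℂ) (i : Fin 3) :
    eval (Sum.elim b x) (pderiv (Sum.inr i) bG) = dG x i := by
  unfold bG dG
  fin_cases i <;>
    simp [pderiv_X_of_ne, Derivation.leibniz_pow, pderiv_X_self] <;> ring

theorem ev_bA (b x : Fin 3 → ℂ) : eval (Sum.elim b x) bA = af x := by
  unfold bA af
  simp

theorem ev_bG (b x : Fin 3 → ℂ) : eval (Sum.elim b x) bG = gf x := by
  unfold bG gf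
  simp

theorem bF_0 (b x : Fin 3 → ℂ) :
    eval (Sum.elim b x) (pderiv (Sum.inl 0) bF) = af x := by
  unfold bF
  simp [pderiv_X_of_ne, pderiv_X_self, bA_l, bG_l, ev_bA]

theorem bF_1 (b x : Fin 3 → ℂ) :
    eval (Sum.elim b x) (pderiv (Sum.inl 1) bF) = 2 * gf x := by
  unfold bF
  simp [pderiv_X_of_ne, pderiv_X_self, bA_l, bG_l, ev_bG]
  ring

theorem bF_2 (b x : Fin 3 → ℂ) :
    eval (Sum.elim b x) (pderiv (Sum.inl 2) bF) = 0 := by
  unfold bF
  simp [pderiv_X_of_ne, bA_l, bG_l]

theorem bF_r (b x : Fin 3 → ℂ) (i : Fin 3) :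
    eval (Sum.elim b x) (pderiv (Sum.inr i) bF) = b 0 * dA x i + 2 * b 1 * dG x i := by
  unfold bF
  simp [pderiv_X_of_ne, bA_r, bG_r]

theorem vec_zero {b : Fin 3 → ℂ} (h0 : b 0 = 0) (h1 : b 1 = 0) (h2 : b 2 = 0) : b = 0 := by
  funext i
  fin_cases i
  · exact h0
  · exact h1
  · exact h2

end SMO

theorem t_SMO : S_SMO := by
  intro h1 h2
  refine ⟨bE, bF, rfl, ?_⟩
  rintro b x ⟨hb, hx, hG⟩
  have hE : b 0 ^ 4 + b 1 ^ 4 + b 2 ^ 4 = 0 := by
    have h := hG bE (Or.inl rfl)
    unfold bE at h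
    simpa using h
  rw [LinearIndependent.pair_iff]
  intro l m h
  have c0 : l * (4 * b 0 ^ 3) + m * af x = 0 := by
    have := congrFun h (Sum.inl 0)
    simpa only [Pi.add_apply, Pi.smul_apply, smul_eq_mul, Pi.zero_apply, SMO.bE_l, SMO.bF_0]
      using this
  have c1 : l * (4 * b 1 ^ 3) + m * (2 * gf x) = 0 := by
    have := congrFun h (Sum.inl 1)
    simpa only [Pi.add_apply, Pi.smul_apply, smul_eq_mul, Pi.zero_apply, SMO.bE_l, SMO.bF_1]
      using this
  have c2 : l * (4 * b 2 ^ 3) = 0 := by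
    have := congrFun h (Sum.inl 2)
    simpa only [Pi.add_apply, Pi.smul_apply, smul_eq_mul, Pi.zero_apply, SMO.bE_l, SMO.bF_2,
      mul_zero, add_zero] using this
  have cr : ∀ i, m * (b 0 * dA x i + 2 * b 1 * dG x i) = 0 := by
    intro i
    have := congrFun h (Sum.inr i)
    simpa only [Pi.add_apply, Pi.smul_apply, smul_eq_mul, Pi.zero_apply, SMO.bE_r, SMO.bF_r,
      mul_zero, zero_add] using this
  by_cases hm : m = 0
  · refine ⟨?_, hm⟩
    by_contra hl
    rw [hm, zero_mul, add_zero] at c0 c1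
    have e : ∀ z : ℂ, l * (4 * z ^ 3) = 0 → z = 0 := by
      intro z hz
      rcases mul_eq_zero.1 hz with h | h
      · exact absurd h hl
      · rcases mul_eq_zero.1 h with h | h
        · norm_num at h
        · exact pow_eq_zero_iff (by norm_num) |>.1 h
    exact hb (SMO.vec_zero (e _ c0) (e _ c1) (e _ c2))
  · exfalso
    have cr' : b 0 • dA x + (2 * b 1) • dG x = 0 := by
      funext i
      rcases mul_eq_zero.1 (cr i) with h | h
      · exact absurd h hm
      · simpa only [Pi.add_apply, Pi.smul_apply, smul_eq_mul, Pi.zero_apply] using h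
    by_cases hl : l = 0
    · rw [hl, zero_mul, zero_add] at c0 c1
      have ha : af x = 0 := (mul_eq_zero.1 c0).resolve_left hm
      have hg : gf x = 0 := by
        have := (mul_eq_zero.1 c1).resolve_left hm
        exact (mul_eq_zero.1 this).resolve_left (by norm_num)
      obtain ⟨h3, h4⟩ := h2 (b 0) (2 * b 1) x hx ha hg cr'
      have h5 : b 1 = 0 := (mul_eq_zero.1 h4).resolve_left (by norm_num)
      rw [h3, h5] at hE
      have h6 : b 2 ^ 4 = 0 := by
        have : (0 : ℂ) ^ 4 = 0 := by norm_num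
        rw [this] at hE
        simpa using hE
      exact hb (SMO.vec_zero h3 h5 (pow_eq_zero_iff (by norm_num) |>.1 h6))
    · have hb2 : b 2 = 0 := by
        have := (mul_eq_zero.1 c2).resolve_left hl
        have := (mul_eq_zero.1 this).resolve_left (by norm_num)
        exact pow_eq_zero_iff (by norm_num) |>.1 this
      rw [hb2] at hE
      have hE' : b 0 ^ 4 + b 1 ^ 4 = 0 := by
        have : (0 : ℂ) ^ 4 = 0 := by norm_num
        rw [this, add_zero] at hE
        exact hE
      have hb0 : b 0 ≠ 0 := by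
        intro h0
        rw [h0] at hE'
        have h7 : b 1 ^ 4 = 0 := by
          have : (0 : ℂ) ^ 4 = 0 := by norm_num
          rw [this, zero_add] at hE'
          exact hE'
        exact hb (SMO.vec_zero h0 (pow_eq_zero_iff (by norm_num) |>.1 h7) hb2)
      have hs : (b 1 / b 0) ^ 4 = -1 := by
        rw [div_pow, div_eq_iff (pow_ne_zero 4 hb0)]
        linear_combination hE'
      refine h1 (b 1 / b 0) x hs hx ?_
      funext i
      have h8 := congrFun cr' i
      simp only [Pi.add_apply, Pi.smul_apply, smul_eq_mul, Pi.zero_apply] at h8 ⊢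
      have h9 : b 0 * (dA x i + 2 * (b 1 / b 0) * dG x i) = 0 := by
        have : b 0 * (dA x i + 2 * (b 1 / b 0) * dG x i) =
            b 0 * dA x i + 2 * b 1 * dG x i := by
          field_simp
        rw [this, h8]
      exact (mul_eq_zero.1 h9).resolve_left hb0

end Pool.Agent.Q22.CN
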