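import Pool.Agent.Q22.CN.Stm

/-!
# Project CN (helper22), job SYM: symmetries of the function field of the Fermat curve (helper153)
-/

set_option autoImplicit false

namespace Pool.Agent.Q22.CN

open Pool.Agent.TH144.CN MvPolynomial Metric Set Topology Filter

namespace SYM

/-- homogenisation -/
theorem hmg (g : MvPolynomial (Fin 2) ℂ) : ∃ (N : ℕ) (g' : MvPolynomial (Fin 2) ℂ), ∀ (L : Type) [Field L] [Algebra ℂ L]
    (a b : L), a ≠ 0 → aeval ![a, b] g' = a ^ N * aeval ![a⁻¹, b * a⁻¹] g := by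
  induction g using MvPolynomial.induction_on with
  | C c =>
    refine ⟨0, C c, fun L _ _ a b ha => ?_⟩
    simp
  | add g h ihg ihh =>
    obtain ⟨N, g', hg⟩ := ihg
    obtain ⟨M, h', hh⟩ := ihh
    refine ⟨N + M, X 0 ^ M * g' + X 0 ^ N * h', fun L _ _ a b ha => ?_⟩
    have e0 : aeval ![a, b] (X 0 : MvPolynomial (Fin 2) ℂ) = a := by simp
    rw [map_add, map_mul, map_mul, map_pow, map_pow, e0, hg L a b ha, hh L a b ha, map_add]
    ring
  | mul_X g i ih =>
    obtain ⟨N, g', hg⟩ := ih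
    have hi : i = 0 ∨ i = 1 := by omega
    rcases hi with rfl | rfl
    · refine ⟨N + 1, g', fun L _ _ a b ha => ?_⟩
      have e0 : aeval ![a⁻¹, b * a⁻¹] (X 0 : MvPolynomial (Fin 2) ℂ) = a⁻¹ := by simp
      rw [hg L a b ha, map_mul, e0]
      generalize aeval ![a⁻¹, b * a⁻¹] g = G
      have h1 : a * a⁻¹ = 1 := mul_inv_cancel₀ ha
      rw [pow_succ]
      linear_combination (-(a ^ N * G)) * h1
    · refine ⟨N + 1, g' * X 1, fun L _ _ a b ha => ?_⟩
      have e0 : aeval ![a⁻¹, b * a⁻¹] (X 1 : MvPolynomial (Fin 2) ℂ) = b * a⁻¹ := by simp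
      have e1 : aeval ![a, b] (X 1 : MvPolynomial (Fin 2) ℂ) = b := by simp
      rw [map_mul, hg L a b ha, map_mul, e0, e1]
      generalize aeval ![a⁻¹, b * a⁻¹] g = G
      have h1 : a * a⁻¹ = 1 := mul_inv_cancel₀ ha
      rw [pow_succ]
      linear_combination (-(a ^ N * G * b)) * h1

theorem aev (p q : ℂ) (g : MvPolynomial (Fin 2) ℂ) : aeval ![p, q] g = eval ![p, q] g := rfl

variable {K : Type} [Field K] [Algebra ℂ K] {y s : K}

theorem y_ne (h : FK K y s) : y ≠ 0 := by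
  intro hy
  have h1 : aeval ![y, s] (X 0 : MvPolynomial (Fin 2) ℂ) = 0 := by simp [hy]
  obtain ⟨q, hq⟩ := IsAlgClosed.exists_pow_nat_eq (-2 : ℂ) (n := 16) (by norm_num)
  have h2 := (h.van _).1 h1 1 q (by rw [hq]; norm_num)
  simp at h2

/-- vanishing at the points with `p ≠ 0` is enough -/
theorem van0 (h : FK K y s) (g : MvPolynomial (Fin 2) ℂ)
    (hg : ∀ p q : ℂ, p ≠ 0 → p ^ 16 + q ^ 16 + 1 = 0 → eval ![p, q] g = 0) : aeval ![y, s] g = 0 := by
  have h1 : aeval ![y, s] (X 0 * g) = 0 := by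
    rw [h.van]
    intro p q hpq
    rw [map_mul]
    rcases eq_or_ne p 0 with hp | hp
    · have : eval ![p, q] (X 0 : MvPolynomial (Fin 2) ℂ) = 0 := by simp [hp]
      rw [this, zero_mul]
    · rw [hg p q hp hpq, mul_zero]
  rw [map_mul] at h1
  rcases mul_eq_zero.1 h1 with h2 | h2
  · exfalso
    apply y_ne h
    simpa using h2
  · exact h2

theorem curve_inv {p q : ℂ} (hp : p ≠ 0) (h : p ^ 16 + q ^ 16 + 1 = 0) :
    (p⁻¹) ^ 16 + (q * p⁻¹) ^ 16 + 1 = 0 := by
  have h1 : (p⁻¹) ^ 16 * p ^ 16 = 1 := by rw [← mul_pow, inv_mul_cancel₀ hp, one_pow]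
  have h2 : (q * p⁻¹) ^ 16 = q ^ 16 * (p⁻¹) ^ 16 := mul_pow _ _ _
  rw [h2]
  linear_combination (p⁻¹) ^ 16 * h - h1

theorem swap (h : FK K y s) : FK K s y where
  eqn := by rw [add_comm (s ^ 16)]; exact h.eqn
  gen := by rw [Set.pair_comm]; exact h.gen
  van g := by
    have e1 : ∀ (L : Type) [Field L] [Algebra ℂ L] (a b : L), aeval ![a, b] (rename (Equiv.swap 0 1) g) = aeval ![b, a] g := by
      intro L _ _ a b
      rw [aeval_rename]
      congr 1
      congr 1
      funext i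
      fin_cases i <;> simp
    rw [← e1 K y s, h.van]
    constructor
    · intro hg p q hpq
      have := hg q p (by rw [add_comm (q ^ 16)]; exact hpq)
      rw [← aev, e1 ℂ q p, aev] at this
      exact this
    · intro hg p q hpq
      rw [← aev, e1 ℂ p q, aev]
      exact hg q p (by rw [add_comm (q ^ 16)]; exact hpq)

theorem inv (h : FK K y s) : FK K y⁻¹ (s * y⁻¹) where
  eqn := by
    have hy := y_ne h
    have h1 : (y⁻¹) ^ 16 * y ^ 16 = 1 := by rw [← mul_pow, inv_mul_cancel₀ hy, one_pow]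
    have h2 : (s * y⁻¹) ^ 16 = s ^ 16 * (y⁻¹) ^ 16 := mul_pow _ _ _
    rw [h2]
    linear_combination (y⁻¹) ^ 16 * h.eqn - h1
  gen := by
    have hy := y_ne h
    rw [eq_top_iff, ← h.gen, IntermediateField.adjoin_le_iff]
    have h1 : y⁻¹ ∈ IntermediateField.adjoin ℂ ({y⁻¹, s * y⁻¹} : Set K) :=
      IntermediateField.subset_adjoin _ _ (by simp)
    have h2 : s * y⁻¹ ∈ IntermediateField.adjoin ℂ ({y⁻¹, s * y⁻¹} : Set K) :=
      IntermediateField.subset_adjoin _ _ (by simp)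
    have h3 : y ∈ IntermediateField.adjoin ℂ ({y⁻¹, s * y⁻¹} : Set K) := by
      have := inv_mem h1
      rwa [inv_inv] at this
    rintro x (rfl | rfl)
    · exact h3
    · have := mul_mem h2 h3
      rwa [mul_assoc, inv_mul_cancel₀ hy, mul_one] at this
  van g := by
    have hy := y_ne h
    obtain ⟨N, g', hg'⟩ := hmg g
    constructor
    · intro hg
      have h1 : aeval ![y, s] g' = 0 := by rw [hg' K y s hy, hg, mul_zero]
      rw [h.van] at h1
      have h2 : aeval ![y, s] g = 0 := by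
        refine van0 h g fun p q hp hpq => ?_
        have h3 := h1 p⁻¹ (q * p⁻¹) (curve_inv hp hpq)
        rw [← aev, hg' ℂ p⁻¹ (q * p⁻¹) (inv_ne_zero hp), inv_inv, mul_assoc, inv_mul_cancel₀ hp, mul_one] at h3
        rcases mul_eq_zero.1 h3 with h4 | h4
        · exact absurd h4 (pow_ne_zero _ (inv_ne_zero hp))
        · rw [← aev]; exact h4
      exact (h.van g).1 h2
    · intro hg
      have h1 : aeval ![y, s] g' = 0 := by
        refine van0 h g' fun p q hp hpq => ?_
        rw [← aev, hg' ℂ p q hp, aev, hg _ _ (curve_inv hp hpq), mul_zero]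
      rw [hg' K y s hy] at h1
      rcases mul_eq_zero.1 h1 with h2 | h2
      · exact absurd h2 (pow_ne_zero _ hy)
      · exact h2

end SYM

theorem t_SYM : S_SYM := fun _ _ _ _ _ h => ⟨SYM.inv h, SYM.swap h⟩

end Pool.Agent.Q22.CN
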