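import Pool.Agent.Q22.CN.Stm

/-!
# Project CN (helper22), job TAN: tangent orders (helper265)
-/

set_option autoImplicit false

open MvPolynomial Metric Set Topology Filter

namespace Pool.Agent.Q22.CN.TAN

open Pool.Agent.TH144.CN

variable {K : Type} [Field K] [Algebra ℂ K]

theorem ord_one (P : Place K) : P.ord (1 : K) = 0 := by
  have := P.ord_const (c := 1) one_ne_zero
  rwa [map_one] at this

theorem ord_div (P : Place K) {f g : K} (hf : f ≠ 0) (hg : g ≠ 0) :
    P.ord (f / g) = P.ord f - P.ord g := by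
  have h := P.ord_mul (div_ne_zero hf hg) hg
  rw [div_mul_cancel₀ f hg] at h
  omega

theorem ord_pow (P : Place K) {f : K} (hf : f ≠ 0) (n : ℕ) : P.ord (f ^ n) = n * P.ord f := by
  induction n with
  | zero => simp [ord_one P]
  | succ n ih =>
    rw [pow_succ, P.ord_mul (pow_ne_zero n hf) hf, ih]
    push_cast
    ring

theorem nonneg_of_at (P : Place K) (c : ℂ) {f : K} (hf : f ≠ 0)
    (h : 0 < P.ord (f - algebraMap ℂ K c)) : 0 ≤ P.ord f := by
  by_cases hc : c = 0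
  · subst hc
    rw [map_zero, sub_zero] at h
    exact h.le
  · have h0 : f - algebraMap ℂ K c ≠ 0 := by
      intro h0
      rw [h0, P.ord_zero] at h
      exact lt_irrefl _ h
    have h1 : algebraMap ℂ K c ≠ 0 := by
      rw [Ne, map_eq_zero]
      exact hc
    have h2 := P.ord_add h0 h1 (by rw [sub_add_cancel]; exact hf)
    rw [sub_add_cancel, P.ord_const hc] at h2
    exact le_trans (le_min h.le le_rfl) h2

theorem sInf_eq (P : Place K) (D : Derivation ℂ K K) (A : Set K) (d : ℤ)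
    (h : ∀ f ∈ A, D f ≠ 0 → d ≤ P.ord (D f)) (f0 : K) (hf0 : f0 ∈ A) (h0 : D f0 ≠ 0)
    (hd : P.ord (D f0) = d) : sInf {m : ℤ | ∃ f ∈ A, D f ≠ 0 ∧ P.ord (D f) = m} = d := by
  refine IsLeast.csInf_eq ⟨⟨f0, hf0, h0, hd⟩, ?_⟩
  rintro m ⟨f, hf, hf', rfl⟩
  exact h f hf hf'

theorem const_coords (P : Place K) (D : Derivation ℂ K K) (ω : ℂ) {f : K}
    (hf : f ∈ affineCoords P ![1, 0, algebraMap ℂ K ω]) : D f = 0 := by
  obtain ⟨i, j, -, -, rfl⟩ := hf
  have h : ∀ l : Fin 3, ∃ c : ℂ, (![1, 0, algebraMap ℂ K ω] : Fin 3 → K) l = algebraMap ℂ K c := by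
    intro l
    fin_cases l
    · exact ⟨1, by simp⟩
    · exact ⟨0, by simp⟩
    · exact ⟨ω, by simp⟩
  obtain ⟨c, hc⟩ := h i
  obtain ⟨c', hc'⟩ := h j
  rw [hc, hc', ← map_div₀]
  exact D.map_algebraMap _

theorem coords_nonneg (P : Place K) (a : Fin 3 → K) {f : K} (hf : f ∈ affineCoords P a)
    (h0 : f ≠ 0) : 0 ≤ P.ord f := by
  obtain ⟨i, j, hi, hm, rfl⟩ := hf
  have hj : a j ≠ 0 := fun hj => h0 (by rw [hj, zero_div])
  rw [ord_div P hj hi]
  have := hm j hj
  omega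

theorem dne {D : Derivation ℂ K K} {f : K} (h : D f ≠ 0) : f ≠ 0 := by
  rintro rfl
  exact h (map_zero D)

/-- the finite places, for one of the two pairs -/
theorem finite_case (P : Place K) (D : Derivation ℂ K K) (ω : ℂ) (x : Fin 3 → K) (d : ℤ)
    (h1 : ∀ f : K, f ≠ 0 → P.ord f ≠ 0 → D f ≠ 0 ∧ P.ord (D f) = P.ord f - 1 + d)
    (h2 : ∀ f : K, f ≠ 0 → P.ord f = 0 → D f = 0 ∨ d ≤ P.ord (D f))
    (f0 : K) (hf0 : f0 ∈ affineCoords P x) (h0 : D f0 ≠ 0) (hd : P.ord (D f0) = d) :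
    tangentOrder P ![1, 0, algebraMap ℂ K ω] x D = d := by
  refine sInf_eq P D _ d ?_ f0 (Or.inr hf0) h0 hd
  rintro f (hf | hf) hD
  · exact absurd (const_coords P D ω hf) hD
  · have hf' := dne hD
    have hn := coords_nonneg P x hf hf'
    by_cases ho : P.ord f = 0
    · exact (h2 f hf' ho).resolve_left hD
    · rw [(h1 f hf' ho).2]
      omega

theorem base_min (P : Place K) {y s : K} (hy : y ≠ 0) (hs : s ≠ 0) (oy : 0 ≤ P.ord y)
    (os : 0 ≤ P.ord s) (j : Fin 3) :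
    (![1, y, y ^ 15 * s] : Fin 3 → K) j ∈ affineCoords P ![1, y, y ^ 15 * s] := by
  refine ⟨0, j, by simp, ?_, by simp⟩
  intro l hl
  have e0 : (![1, y, y ^ 15 * s] : Fin 3 → K) 0 = 1 := rfl
  rw [e0, ord_one P]
  fin_cases l
  · show 0 ≤ P.ord (1 : K)
    rw [ord_one P]
  · exact oy
  · show 0 ≤ P.ord (y ^ 15 * s)
    rw [P.ord_mul (pow_ne_zero 15 hy) hs, ord_pow P hy]
    positivity

end Pool.Agent.Q22.CN.TAN

namespace Pool.Agent.Q22.CN

open Pool.Agent.TH144.CN Pool.Agent.Q22.CN.TAN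

theorem t_TAN : S_TAN := by
  intro hRAT hSYM hLOC hDRE hDOR hCNT hEXI hVOR K _ _ y s hF ω hω D hD P
  obtain ⟨hDy, hDs, -⟩ := hDRE hRAT K y s hF D hD
  have hy : y ≠ 0 := dne hDy
  have hs : s ≠ 0 := dne hDs
  obtain ⟨hF', hF''⟩ := hSYM K y s hF
  refine ⟨fun p q hpq hAt => ?_, fun v hv hAt => ?_⟩
  · have oy : 0 ≤ P.ord y := nonneg_of_at P p hy hAt.1
    have os : 0 ≤ P.ord s := nonneg_of_at P q hs hAt.2
    by_cases hq : q = 0
    · subst hq
      have hp1 : p ^ 16 + 1 = 0 := by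
        linear_combination hpq
      have hp0 : p ≠ 0 := by
        rintro rfl
        norm_num at hp1
      have hpq' : (0 : ℂ) ^ 16 + p ^ 16 + 1 = 0 := by
        linear_combination hp1
      obtain ⟨c1, c2, -⟩ := (hCNT hRAT hSYM hLOC hEXI K y s hF).2.2.2.2.2 P p hp1 hAt
      have hAt' : At s y P 0 p := ⟨hAt.2, hAt.1⟩
      obtain ⟨h1, h2⟩ := hDOR hRAT hLOC hDRE K s y hF'' P 0 p hp0 hpq' hAt' D hD
      have hv : vectorOrder P D = P.ord (D s) :=
        (hVOR hRAT hSYM hLOC hDRE hDOR hCNT hEXI K s y hF'' D hD P).1 0 p hp0 hpq' hAt'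
      rw [hv]
      have hf0 : y ^ 15 * s ≠ 0 := mul_ne_zero (pow_ne_zero 15 hy) hs
      have ho : P.ord (y ^ 15 * s) = 1 := by
        rw [P.ord_mul (pow_ne_zero 15 hy) hs, ord_pow P hy, c1, c2]
        norm_num
      obtain ⟨h3, h4⟩ := h1 (y ^ 15 * s) hf0 (by rw [ho]; norm_num)
      exact finite_case P D ω _ _ h1 h2 (y ^ 15 * s) (base_min P hy hs oy os 2) h3
        (by rw [h4, ho]; ring)
    · obtain ⟨h1, h2⟩ := hDOR hRAT hLOC hDRE K y s hF P p q hq hpq hAt D hD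
      have hv : vectorOrder P D = P.ord (D y) :=
        (hVOR hRAT hSYM hLOC hDRE hDOR hCNT hEXI K y s hF D hD P).1 p q hq hpq hAt
      rw [hv]
      exact finite_case P D ω _ _ h1 h2 y (base_min P hy hs oy os 1) hDy rfl
  · have hv0 : v ≠ 0 := by
      rintro rfl
      norm_num at hv
    have hpq' : (0 : ℂ) ^ 16 + v ^ 16 + 1 = 0 := by
      linear_combination hv
    obtain ⟨c1, c2⟩ := (hCNT hRAT hSYM hLOC hEXI K y s hF).2.2.2.2.1 P v hv hAt
    obtain ⟨h1, -⟩ := hDOR hRAT hLOC hDRE K y⁻¹ (s * y⁻¹) hF' P 0 v hv0 hpq' hAt D hD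
    have hv' : vectorOrder P D = P.ord (D y⁻¹) :=
      (hVOR hRAT hSYM hLOC hDRE hDOR hCNT hEXI K y⁻¹ (s * y⁻¹) hF' D hD P).1 0 v hv0 hpq' hAt
    rw [hv']
    have hx2 : y ^ 15 * s ≠ 0 := mul_ne_zero (pow_ne_zero 15 hy) hs
    have o2 : P.ord (y ^ 15 * s) = -16 := by
      rw [P.ord_mul (pow_ne_zero 15 hy) hs, ord_pow P hy, c1, c2]
      norm_num
    have e0 : (![1, y, y ^ 15 * s] : Fin 3 → K) 0 = 1 := rfl
    have e1 : (![1, y, y ^ 15 * s] : Fin 3 → K) 1 = y := rfl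
    have e2 : (![1, y, y ^ 15 * s] : Fin 3 → K) 2 = y ^ 15 * s := rfl
    have o1' : P.ord (y / (y ^ 15 * s)) = 15 := by
      rw [ord_div P hy hx2, c1, o2]
      norm_num
    have o0' : P.ord (1 / (y ^ 15 * s)) = 16 := by
      rw [ord_div P one_ne_zero hx2, ord_one P, o2]
      norm_num
    obtain ⟨h3, h4⟩ := h1 (y / (y ^ 15 * s)) (div_ne_zero hy hx2) (by rw [o1']; norm_num)
    refine sInf_eq P D _ _ ?_ (y / (y ^ 15 * s)) (Or.inr ⟨2, 1, by rw [e2]; exact hx2, ?_, ?_⟩)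
      h3 (by rw [h4, o1']; ring)
    · rintro f (hf | hf) hDf
      · exact absurd (const_coords P D ω hf) hDf
      · obtain ⟨i, j, hi, hm, rfl⟩ := hf
        have hm2 := hm 2 (by rw [e2]; exact hx2)
        rw [e2, o2] at hm2
        have hi2 : i = 2 := by
          fin_cases i
          · exfalso
            change P.ord (1 : K) ≤ -16 at hm2
            rw [ord_one P] at hm2
            omega
          · exfalso
            change P.ord y ≤ -16 at hm2
            rw [c1] at hm2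
            omega
          · rfl
        subst hi2
        fin_cases j
        · change P.ord (D y⁻¹) + 14 ≤ P.ord (D (1 / (y ^ 15 * s)))
          rw [(h1 (1 / (y ^ 15 * s)) (div_ne_zero one_ne_zero hx2) (by rw [o0']; norm_num)).2, o0']
          omega
        · change P.ord (D y⁻¹) + 14 ≤ P.ord (D (y / (y ^ 15 * s)))
          rw [h4, o1']
          omega
        · exfalso
          apply hDf
          change D (y ^ 15 * s / (y ^ 15 * s)) = 0
          rw [div_self hx2]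
          exact D.map_one_eq_zero
    · intro l hl
      rw [e2, o2]
      fin_cases l
      · show -16 ≤ P.ord (1 : K)
        rw [ord_one P]
        norm_num
      · show -16 ≤ P.ord y
        rw [c1]
        norm_num
      · show -16 ≤ P.ord (y ^ 15 * s)
        rw [o2]
    · rw [e1, e2]

end Pool.Agent.Q22.CN
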