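import Pool.Agent.Q22.CN.Stm

/-!
# Project CN (helper22), MP_225e67_ag: lemma TRD

The function field of the Fermat curve has transcendence degree one: the first generator is
transcendental, since a polynomial in it that vanishes has all complex numbers as roots, and the
second generator is algebraic over the field generated by the first one.
-/

set_option autoImplicit false

namespace Pool.Agent.Q22.CN

open Pool.Agent.TH144.CN MvPolynomial Metric Set Topology Filter

namespace TRD

theorem ev (p : Polynomial ℂ) (a q : ℂ) :
    eval ![a, q] (Polynomial.aeval (X 0 : MvPolynomial (Fin 2) ℂ) p) = p.eval a := by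
  induction p using Polynomial.induction_on' with
  | add p q hp hq => simp [hp, hq]
  | monomial n c => simp [Polynomial.aeval_monomial, MvPolynomial.algebraMap_eq]

theorem aev {K : Type} [Field K] [Algebra ℂ K] (y s : K) (p : Polynomial ℂ) :
    aeval ![y, s] (Polynomial.aeval (X 0 : MvPolynomial (Fin 2) ℂ) p) = Polynomial.aeval y p := by
  induction p using Polynomial.induction_on' with
  | add p q hp hq => simp [hp, hq]
  | monomial n c => simp [Polynomial.aeval_monomial, MvPolynomial.algebraMap_eq]

theorem y_tr {K : Type} [Field K] [Algebra ℂ K] {y s : K} (h : FK K y s) :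
    Transcendental ℂ y := by
  rintro ⟨p, hp0, hp⟩
  apply hp0
  have hev : ∀ a : ℂ, p.eval a = 0 := by
    intro a
    have h1 : aeval ![y, s] (Polynomial.aeval (X 0 : MvPolynomial (Fin 2) ℂ) p) = 0 := by
      rw [aev, hp]
    have h2 := (h.van _).1 h1
    obtain ⟨q, hq⟩ := IsAlgClosed.exists_pow_nat_eq (-(1 + a ^ 16)) (n := 16) (by norm_num)
    have h3 := h2 a q (by rw [hq]; ring)
    rwa [ev] at h3
  exact Polynomial.funext (fun a => by simp [hev a])

theorem alg {K : Type} [Field K] [Algebra ℂ K] {y s : K} (h : FK K y s) :
    Algebra.IsAlgebraic (IntermediateField.adjoin ℂ ({y} : Set K)) K := by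
  have hs : IsAlgebraic (IntermediateField.adjoin ℂ ({y} : Set K)) s := by
    let y' : IntermediateField.adjoin ℂ ({y} : Set K) :=
      ⟨y, IntermediateField.subset_adjoin ℂ _ (Set.mem_singleton y)⟩
    refine ⟨Polynomial.X ^ 16 + Polynomial.C (y' ^ 16 + 1), ?_, ?_⟩
    · exact (Polynomial.monic_X_pow_add_C _ (by norm_num)).ne_zero
    · have e := h.eqn
      have hy : algebraMap (IntermediateField.adjoin ℂ ({y} : Set K)) K y' = y := rfl
      simp only [map_add, map_pow, Polynomial.aeval_X, Polynomial.aeval_C, map_one, hy]
      linear_combination e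
  have hy : IsAlgebraic (IntermediateField.adjoin ℂ ({y} : Set K)) y := by
    have : y = algebraMap (IntermediateField.adjoin ℂ ({y} : Set K)) K
      ⟨y, IntermediateField.subset_adjoin ℂ _ (Set.mem_singleton y)⟩ := rfl
    rw [this]
    exact isAlgebraic_algebraMap _
  have hle : (⊤ : IntermediateField ℂ K) ≤
      (algebraicClosure (IntermediateField.adjoin ℂ ({y} : Set K)) K).restrictScalars ℂ := by
    rw [← h.gen, IntermediateField.adjoin_le_iff]
    rintro z (rfl | rfl)
    · exact (mem_algebraicClosure_iff).2 hy
    · exact (mem_algebraicClosure_iff).2 hs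
  refine ⟨fun z => ?_⟩
  exact (mem_algebraicClosure_iff).1 (hle (IntermediateField.mem_top (x := z)))

end TRD

theorem t_TRD : S_TRD := by
  intro K _ _ y s h
  have hind : AlgebraicIndependent ℂ (fun _ : Unit => y) :=
    algebraicIndependent_unique_type_iff.2 (TRD.y_tr h)
  have hb : IsTranscendenceBasis ℂ (fun _ : Unit => y) := by
    rw [hind.isTranscendenceBasis_iff_isAlgebraic]
    have hr : Set.range (fun _ : Unit => y) = ({y} : Set K) := by
      ext z
      simp [eq_comm]
    rw [hr]
    exact IntermediateField.isAlgebraic_adjoin_iff_top.1 (TRD.alg h)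
  have := hb.cardinalMk_eq_trdeg
  rw [← this]
  simp

end Pool.Agent.Q22.CN
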