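import Pool.Agent.Q22.CN.Stm

/-!
# Project CN (helper22), job UCO (helper110): the complement of the zero set of `Q`
-/

set_option autoImplicit false

namespace Pool.Agent.Q22.CN

open Pool.Agent.TH144.CN MvPolynomial Metric Set Topology Filter

namespace UCO

/-- the line from `x` to `y` -/
def ln (x y : Fin 3 → ℂ) (τ : ℂ) : Fin 3 → ℂ := fun i => x i + τ * (y i - x i)

theorem ln_cont (x y : Fin 3 → ℂ) : Continuous (ln x y) :=
  continuous_pi fun i => by unfold ln; fun_prop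

theorem ln_zero (x y : Fin 3 → ℂ) : ln x y 0 = x := by
  funext i
  simp [ln]

theorem ln_one (x y : Fin 3 → ℂ) : ln x y 1 = y := by
  funext i
  simp [ln]

/-- the point `(1, 0, 0)` -/
def y0 : Fin 3 → ℂ := ![1, 0, 0]

theorem Q_y0 : Qf y0 ≠ 0 := by
  have h1 : af y0 = 0 := by simp [af, y0]
  have h2 : gf y0 = 1 := by simp [gf, y0]
  simp [Qf, h1, h2]

theorem ln_poly (x y : Fin 3 → ℂ) : ∃ L : Polynomial ℂ, ∀ τ, L.eval τ = Qf (ln x y τ) := by
  obtain ⟨u, hu⟩ : ∃ u : Fin 3 → Polynomial ℂ, ∀ i τ, (u i).eval τ = ln x y τ i :=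
    ⟨fun i => Polynomial.C (x i) + Polynomial.X * Polynomial.C (y i - x i), fun i τ => by
      simp [ln]⟩
  refine ⟨-((u 0 ^ 240 * u 2 ^ 16 + u 1 ^ 256 + u 0 ^ 16 * u 1 ^ 240) ^ 4 +
    Polynomial.C 16 * (u 0 ^ 256 + u 1 ^ 256 + Polynomial.C g0 * u 2 ^ 256) ^ 4), fun τ => ?_⟩
  simp only [Polynomial.eval_neg, Polynomial.eval_add, Polynomial.eval_mul, Polynomial.eval_pow,
    Polynomial.eval_C, hu, Qf, af, gf]

theorem fin_zero (x y : Fin 3 → ℂ) (hy : Qf y ≠ 0) : {τ : ℂ | Qf (ln x y τ) = 0}.Finite := by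
  obtain ⟨L, hL⟩ := ln_poly x y
  have hL0 : L ≠ 0 := by
    rintro rfl
    have := hL 1
    rw [ln_one, Polynomial.eval_zero] at this
    exact hy this.symm
  refine (L.roots.toFinset.finite_toSet).subset fun τ hτ => ?_
  have h1 : Qf (ln x y τ) = 0 := hτ
  rw [← hL] at h1
  simp only [Finset.mem_coe, Multiset.mem_toFinset, Polynomial.mem_roots hL0, Polynomial.IsRoot]
  exact h1

end UCO

open UCO in
theorem t_UCO : S_UCO := by
  constructor
  · refine ⟨⟨y0, Q_y0⟩, isPreconnected_of_forall y0 fun x hx => ?_⟩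
    have hx' : Qf x ≠ 0 := hx
    have hfin := fin_zero x y0 Q_y0
    refine ⟨ln x y0 '' {τ : ℂ | Qf (ln x y0 τ) = 0}ᶜ, ?_, ?_, ?_, ?_⟩
    · rintro _ ⟨τ, hτ, rfl⟩
      exact hτ
    · refine ⟨1, ?_, ln_one _ _⟩
      show ¬ Qf (ln x y0 1) = 0
      rw [ln_one]
      exact Q_y0
    · refine ⟨0, ?_, ln_zero _ _⟩
      show ¬ Qf (ln x y0 0) = 0
      rw [ln_zero]
      exact hx'
    · have hr : 1 < Module.rank ℝ ℂ := by
        rw [Complex.rank_real_complex]
        exact Cardinal.one_lt_two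
      exact (hfin.countable.isPathConnected_compl_of_one_lt_rank hr).isConnected.isPreconnected.image
        _ (ln_cont _ _).continuousOn
  · intro x
    have hfin := fin_zero x y0 Q_y0
    have h1 : (0 : ℂ) ∈ closure {τ : ℂ | Qf (ln x y0 τ) = 0}ᶜ := (hfin.countable.dense_compl ℝ) 0
    have h2 := image_closure_subset_closure_image (ln_cont x y0) (mem_image_of_mem (ln x y0) h1)
    rw [ln_zero] at h2
    refine closure_mono ?_ h2
    rintro _ ⟨τ, hτ, rfl⟩
    exact hτ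

end Pool.Agent.Q22.CN
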