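import Pool.Agent.Q22.CN.Stm

/-!
# Project CN: the orders of a derivation as a vector field
-/

set_option autoImplicit false

open MvPolynomial Metric Set Topology Filter

namespace Pool.Agent.Q22.CN

open Pool.Agent.TH144.CN

namespace VOR

variable {K : Type} [Field K] [Algebra ℂ K]

lemma ord_one (P : Place K) : P.ord 1 = 0 := by
  have h := P.ord_const (c := 1) one_ne_zero
  rwa [map_one] at h

lemma ord_neg (P : Place K) (f : K) : P.ord (-f) = P.ord f := by
  by_cases hf : f = 0
  · rw [hf, neg_zero]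
  · have h := P.ord_const (c := -1) (by norm_num)
    rw [map_neg, map_one] at h
    have h2 := P.ord_mul (f := -1) (g := f) (by simp) hf
    rw [neg_one_mul, h, zero_add] at h2
    exact h2

lemma ord_pow (P : Place K) {f : K} (hf : f ≠ 0) (n : ℕ) : P.ord (f ^ n) = n * P.ord f := by
  induction n with
  | zero => simp [ord_one]
  | succ n ih =>
    rw [pow_succ, P.ord_mul (pow_ne_zero _ hf) hf, ih]
    push_cast
    ring

lemma ord_inv (P : Place K) {f : K} (hf : f ≠ 0) : P.ord f⁻¹ = - P.ord f := by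
  have h := P.ord_mul hf (inv_ne_zero hf)
  rw [mul_inv_cancel₀ hf, ord_one] at h
  linarith

/-- At a point with `q ≠ 0` the order of the vector field is the order of `D y`. -/
lemma main (hRAT : S_RAT) (hLOC : S_LOC) (hDRE : S_DRE) (hDOR : S_DOR) (y s : K) (hK : FK K y s)
    (D : Derivation ℂ K K) (hD : D ≠ 0) (P : Place K) (p q : ℂ) (hq : q ≠ 0)
    (hpq : p ^ 16 + q ^ 16 + 1 = 0) (hP : At y s P p q) : vectorOrder P D = P.ord (D y) := by
  have h := (hDOR hRAT hLOC hDRE K y s hK P p q hq hpq hP D hD).1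
  have hset : {m : ℤ | ∃ t : K, P.ord t = 1 ∧ P.ord (D t) = m} = {P.ord (D y)} := by
    have key : ∀ t : K, P.ord t = 1 → P.ord (D t) = P.ord (D y) := by
      intro t ht
      have ht0 : t ≠ 0 := by
        rintro rfl
        rw [P.ord_zero] at ht
        exact absurd ht (by norm_num)
      have h2 := (h t ht0 (by rw [ht]; norm_num)).2
      rw [h2, ht]
      ring
    ext m
    constructor
    · rintro ⟨t, ht, rfl⟩
      exact key t ht
    · intro hm
      obtain ⟨t, _, ht⟩ := P.surj
      exact ⟨t, ht, by rw [key t ht]; exact (mem_singleton_iff.1 hm).symm⟩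
  unfold vectorOrder
  rw [hset, csInf_singleton]

end VOR

open VOR in
theorem t_VOR : S_VOR := by
  intro hRAT hSYM hLOC hDRE hDOR hCNT hEXI K _ _ y s hK D hD P
  obtain ⟨hDy, hDs, hrel⟩ := hDRE hRAT K y s hK D hD
  obtain ⟨-, -, -, -, hinf, hzer⟩ := hCNT hRAT hSYM hLOC hEXI K y s hK
  have hy0 : y ≠ 0 := by
    rintro rfl
    exact hDy (map_zero D)
  refine ⟨fun p q hq hpq hP => main hRAT hLOC hDRE hDOR y s hK D hD P p q hq hpq hP,
    fun p hp hP => ?_, fun v hv hP => ?_⟩
  · have hp0 : p ≠ 0 := by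
      rintro rfl
      norm_num at hp
    have h1 := main hRAT hLOC hDRE hDOR s y (hSYM K y s hK).2 D hD P 0 p hp0
      (by rw [zero_pow (by norm_num), zero_add]; exact hp) ⟨hP.2, hP.1⟩
    obtain ⟨hs1, hy1, -⟩ := hzer P p hp hP
    have hs0 : s ≠ 0 := by
      rintro rfl
      exact hDs (map_zero D)
    have h2 := congrArg P.ord hrel
    rw [ord_neg, P.ord_mul (pow_ne_zero _ hs0) hDs, P.ord_mul (pow_ne_zero _ hy0) hDy,
      ord_pow P hs0, ord_pow P hy0, hs1, hy1] at h2
    rw [h1]
    push_cast at h2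
    linarith
  · have hv0 : v ≠ 0 := by
      rintro rfl
      norm_num at hv
    have h1 := main hRAT hLOC hDRE hDOR y⁻¹ (s * y⁻¹) (hSYM K y s hK).1 D hD P 0 v hv0
      (by rw [zero_pow (by norm_num), zero_add]; exact hv) hP
    obtain ⟨hy1, -⟩ := hinf P v hv hP
    rw [h1, Derivation.leibniz_inv, smul_eq_mul, neg_mul, ord_neg,
      P.ord_mul (pow_ne_zero _ (inv_ne_zero hy0)) hDy, ord_pow P (inv_ne_zero hy0), ord_inv P hy0,
      hy1]
    push_cast
    ring

end Pool.Agent.Q22.CN
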