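import Pool.Agent.Q22.CN.Stm

/-! Job CN-WCO: the fourfold cyclic cover `β⁴ = Q ≠ 0` is connected. -/

set_option autoImplicit false

open MvPolynomial Metric Set Topology Filter

namespace Pool.Agent.Q22.CN

open Pool.Agent.TH144.CN

namespace WCO

variable {T : Type*} [TopologicalSpace T]

/-- local fourth roots -/
lemma loc {Q : T → ℂ} (hQ : Continuous Q) (x₀ : T) (h0 : Q x₀ ≠ 0) :
    ∃ r : T → ℂ, ContinuousAt r x₀ ∧ r x₀ = 1 ∧ ∀ x, Q x₀ * r x ^ 4 = Q x := by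
  refine ⟨fun x => (Q x / Q x₀) ^ (((4 : ℕ) : ℂ)⁻¹), ?_, ?_, ?_⟩
  · have h1 : ContinuousAt (fun x => Q x / Q x₀) x₀ := (hQ.div_const _).continuousAt
    refine h1.cpow continuousAt_const ?_
    rw [div_self h0]
    exact Complex.one_mem_slitPlane
  · simp only
    rw [div_self h0, Complex.one_cpow]
  · intro x
    simp only
    rw [Complex.cpow_nat_inv_pow _ (by norm_num)]
    field_simp

lemma four {z : ℂ} (h : z ^ 4 = 1) : z = 1 ∨ z = -1 ∨ z = Complex.I ∨ z = -Complex.I := by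
  have h1 : (z - 1) * ((z + 1) * ((z - Complex.I) * (z + Complex.I))) = 0 := by
    have hI : Complex.I * Complex.I = -1 := Complex.I_mul_I
    linear_combination h - (z ^ 2 - 1) * hI
  rcases mul_eq_zero.1 h1 with h2 | h2
  · exact Or.inl (sub_eq_zero.1 h2)
  rcases mul_eq_zero.1 h2 with h2 | h2
  · exact Or.inr (Or.inl (eq_neg_of_add_eq_zero_left h2))
  rcases mul_eq_zero.1 h2 with h2 | h2
  · exact Or.inr (Or.inr (Or.inl (sub_eq_zero.1 h2)))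
  · exact Or.inr (Or.inr (Or.inr (eq_neg_of_add_eq_zero_left h2)))

lemma four' {a b c : ℂ} (hc : c ≠ 0) (ha : a ^ 4 = c) (hb : b ^ 4 = c) :
    b = a ∨ b = -a ∨ b = Complex.I * a ∨ b = -Complex.I * a := by
  have ha0 : a ≠ 0 := by
    rintro rfl
    apply hc
    rw [← ha]
    norm_num
  have h1 : (b / a) ^ 4 = 1 := by
    rw [div_pow, ha, hb, div_self hc]
  have h2 : b = (b / a) * a := by field_simp
  rcases four h1 with h | h | h | h
  · left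
    rw [h2, h, one_mul]
  · right; left
    rw [h2, h, neg_one_mul]
  · right; right; left
    rw [h2, h]
  · right; right; right
    rw [h2, h]

lemma rot {b c : ℂ} (hb : b ^ 4 = c) : (-Complex.I * b) ^ 4 = c := by
  have hI : Complex.I ^ 4 = 1 := Complex.I_pow_four
  rw [mul_pow, neg_pow, hI, hb]
  norm_num

/-- the set of base points under a relatively clopen set of the cover -/
lemma all {Q : T → ℂ} (hQ : Continuous Q) (hU : IsPreconnected {x | Q x ≠ 0})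
    {u v : Set (T × ℂ)} (hu : IsOpen u) (hv : IsOpen v)
    (hc : {p : T × ℂ | p.2 ^ 4 = Q p.1 ∧ Q p.1 ≠ 0} ⊆ u ∪ v)
    (hd : ∀ x β, β ^ 4 = Q x → Q x ≠ 0 → (x, β) ∈ u → (x, β) ∈ v → False)
    (hn : ({p : T × ℂ | p.2 ^ 4 = Q p.1 ∧ Q p.1 ≠ 0} ∩ u).Nonempty) :
    ∀ x, Q x ≠ 0 → ∃ β, β ^ 4 = Q x ∧ (x, β) ∈ u := by
  have hopen : ∀ x₀, Q x₀ ≠ 0 → ∀ᶠ x in 𝓝 x₀, Q x ≠ 0 := fun x₀ h =>
    hQ.continuousAt.eventually_ne h
  have h1 : IsOpen {x | Q x ≠ 0 ∧ ∃ β, β ^ 4 = Q x ∧ (x, β) ∈ u} := by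
    rw [isOpen_iff_mem_nhds]
    rintro x₀ ⟨h0, β₀, hβ, hm⟩
    obtain ⟨r, hr, hr1, hr4⟩ := loc hQ x₀ h0
    have hcont : ContinuousAt (fun x => (x, β₀ * r x)) x₀ :=
      continuousAt_id.prodMk (continuousAt_const.mul hr)
    have hmem : ∀ᶠ x in 𝓝 x₀, (x, β₀ * r x) ∈ u := by
      apply hcont.eventually_mem
      apply hu.mem_nhds
      simpa [hr1] using hm
    filter_upwards [hmem, hopen x₀ h0] with x hx hx0
    exact ⟨hx0, β₀ * r x, by rw [mul_pow, hβ, hr4], hx⟩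
  have h2 : IsOpen {x | Q x ≠ 0 ∧ ∀ β, β ^ 4 = Q x → (x, β) ∈ v} := by
    rw [isOpen_iff_mem_nhds]
    rintro x₀ ⟨h0, hall⟩
    obtain ⟨r, hr, hr1, hr4⟩ := loc hQ x₀ h0
    obtain ⟨β₀, hβ⟩ := IsAlgClosed.exists_pow_nat_eq (Q x₀) (show 0 < 4 by norm_num)
    have hmem : ∀ c : ℂ, (c * β₀) ^ 4 = Q x₀ → ∀ᶠ x in 𝓝 x₀, (x, c * (β₀ * r x)) ∈ v := by
      intro c hc4
      have hcont : ContinuousAt (fun x => (x, c * (β₀ * r x))) x₀ :=
        continuousAt_id.prodMk (continuousAt_const.mul (continuousAt_const.mul hr))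
      apply hcont.eventually_mem
      apply hv.mem_nhds
      simpa [hr1] using hall (c * β₀) hc4
    have e1 : ((1 : ℂ) * β₀) ^ 4 = Q x₀ := by rw [one_mul, hβ]
    have e2 : ((-1 : ℂ) * β₀) ^ 4 = Q x₀ := by rw [mul_pow, hβ]; norm_num
    have e3 : (Complex.I * β₀) ^ 4 = Q x₀ := by rw [mul_pow, hβ, Complex.I_pow_four, one_mul]
    have e4 : (-Complex.I * β₀) ^ 4 = Q x₀ := rot hβ
    filter_upwards [hmem _ e1, hmem _ e2, hmem _ e3, hmem _ e4, hopen x₀ h0]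
      with x m1 m2 m3 m4 hx0
    refine ⟨hx0, fun β hb => ?_⟩
    have hb' : (β₀ * r x) ^ 4 = Q x := by rw [mul_pow, hβ, hr4]
    rcases four' hx0 hb' hb with h | h | h | h
    · rw [h]
      rwa [one_mul] at m1
    · rw [h]
      rwa [neg_one_mul] at m2
    · rw [h]
      exact m3
    · rw [h]
      exact m4
  intro x hx
  by_contra hcon
  push Not at hcon
  have hxv : x ∈ {x | Q x ≠ 0 ∧ ∀ β, β ^ 4 = Q x → (x, β) ∈ v} :=
    ⟨hx, fun β hb => (hc (show (x, β) ∈ {p : T × ℂ | p.2 ^ 4 = Q p.1 ∧ Q p.1 ≠ 0} from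
      ⟨hb, hx⟩)).resolve_left (hcon β hb)⟩
  obtain ⟨⟨y, β⟩, ⟨hy1, hy2⟩, hyu⟩ := hn
  have hcov : {x | Q x ≠ 0} ⊆ {x | Q x ≠ 0 ∧ ∃ β, β ^ 4 = Q x ∧ (x, β) ∈ u} ∪
      {x | Q x ≠ 0 ∧ ∀ β, β ^ 4 = Q x → (x, β) ∈ v} := by
    intro z hz
    by_cases hz' : ∃ β, β ^ 4 = Q z ∧ (z, β) ∈ u
    · exact Or.inl ⟨hz, hz'⟩
    · push Not at hz'
      exact Or.inr ⟨hz, fun β hb =>
        (hc (show (z, β) ∈ {p : T × ℂ | p.2 ^ 4 = Q p.1 ∧ Q p.1 ≠ 0} from
          ⟨hb, hz⟩)).resolve_left (hz' β hb)⟩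
  obtain ⟨z, hz0, ⟨-, β', hb', hzu⟩, -, hzv⟩ := hU _ _ h1 h2 hcov
    ⟨y, hy2, hy2, β, hy1, hyu⟩ ⟨x, hx, hxv⟩
  exact hd z β' hb' hz0 hzu (hzv β' hb')

/-- the cover is connected if `Q` has no continuous square root -/
theorem main {Q : T → ℂ} (hQ : Continuous Q) (hU : IsConnected {x | Q x ≠ 0})
    (hs : ¬ ∃ g : T → ℂ, ContinuousOn g {x | Q x ≠ 0} ∧ ∀ x, Q x ≠ 0 → g x ^ 2 = Q x) :
    IsConnected {p : T × ℂ | p.2 ^ 4 = Q p.1 ∧ Q p.1 ≠ 0} := by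
  refine ⟨?_, ?_⟩
  · obtain ⟨x, hx⟩ := hU.nonempty
    obtain ⟨β, hb⟩ := IsAlgClosed.exists_pow_nat_eq (Q x) (show 0 < 4 by norm_num)
    exact ⟨(x, β), hb, hx⟩
  intro u v hu hv hc hnu hnv
  by_contra hcon
  rw [Set.not_nonempty_iff_eq_empty] at hcon
  have hd : ∀ x β, β ^ 4 = Q x → Q x ≠ 0 → (x, β) ∈ u → (x, β) ∈ v → False := by
    intro x β h1 h2 h3 h4
    have : (x, β) ∈ {p : T × ℂ | p.2 ^ 4 = Q p.1 ∧ Q p.1 ≠ 0} ∩ (u ∩ v) := ⟨⟨h1, h2⟩, h3, h4⟩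
    rw [hcon] at this
    exact this
  have hU1 := all hQ hU.isPreconnected hu hv hc hd hnu
  have hU2 := all hQ hU.isPreconnected hv hu (by rwa [Set.union_comm])
    (fun x β h1 h2 h3 h4 => hd x β h1 h2 h4 h3) hnv
  -- the fibres of the auxiliary set
  have hA : ∀ x, Q x ≠ 0 → ∃ β, β ^ 4 = Q x ∧ (x, β) ∈ u ∧ (x, -Complex.I * β) ∈ v := by
    intro x hx
    by_contra hno
    push Not at hno
    have hstep : ∀ β, β ^ 4 = Q x → (x, β) ∈ u → (x, -Complex.I * β) ∈ u := by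
      intro β hb hm
      exact (hc (show (x, -Complex.I * β) ∈ {p : T × ℂ | p.2 ^ 4 = Q p.1 ∧ Q p.1 ≠ 0} from
        ⟨rot hb, hx⟩)).resolve_right (hno β hb hm)
    obtain ⟨β, hb, hm⟩ := hU1 x hx
    obtain ⟨γ, hg, hgm⟩ := hU2 x hx
    have m1 := hstep β hb hm
    have m2 := hstep _ (rot hb) m1
    have m3 := hstep _ (rot (rot hb)) m2
    have e2 : -Complex.I * (-Complex.I * β) = -β := by
      linear_combination β * Complex.I_mul_I
    rw [e2] at m2 m3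
    have e3 : -Complex.I * -β = Complex.I * β := by ring
    rw [e3] at m3
    rcases four' hx hb hg with h | h | h | h
    · rw [h] at hgm
      exact hd x β hb hx hm hgm
    · rw [h] at hgm hg
      exact hd x _ hg hx m2 hgm
    · rw [h] at hgm hg
      exact hd x _ hg hx m3 hgm
    · rw [h] at hgm hg
      exact hd x _ hg hx m1 hgm
  have huniq : ∀ x, Q x ≠ 0 → ∀ β γ, β ^ 4 = Q x → (x, β) ∈ u → (x, -Complex.I * β) ∈ v →
      γ ^ 4 = Q x → (x, γ) ∈ u → (x, -Complex.I * γ) ∈ v → γ ^ 2 = β ^ 2 := by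
    intro x hx β γ hb h1 h2 hg h3 h4
    rcases four' hx hb hg with h | h | h | h
    · rw [h]
    · rw [h, neg_sq]
    · exfalso
      rw [h] at h4
      have e : -Complex.I * (Complex.I * β) = β := by
        linear_combination (-β) * Complex.I_mul_I
      rw [e] at h4
      exact hd x β hb hx h1 h4
    · exfalso
      rw [h] at h3
      exact hd x _ (rot hb) hx h3 h2
  choose b hb1 hb2 hb3 using hA
  classical
  apply hs
  refine ⟨fun x => if h : Q x ≠ 0 then (b x h) ^ 2 else 0, ?_, ?_⟩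
  · intro x₀ hx₀
    have hx₀' : Q x₀ ≠ 0 := hx₀
    obtain ⟨r, hr, hr1, hr4⟩ := loc hQ x₀ hx₀'
    set β₀ := b x₀ hx₀' with hβ₀
    have hcont : ContinuousAt (fun x => (x, β₀ * r x)) x₀ :=
      continuousAt_id.prodMk (continuousAt_const.mul hr)
    have hcont2 : ContinuousAt (fun x => (x, -Complex.I * (β₀ * r x))) x₀ :=
      continuousAt_id.prodMk (continuousAt_const.mul (continuousAt_const.mul hr))
    have hmem : ∀ᶠ x in 𝓝 x₀, (x, β₀ * r x) ∈ u := by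
      apply hcont.eventually_mem
      apply hu.mem_nhds
      simpa [hr1] using hb2 x₀ hx₀'
    have hmem2 : ∀ᶠ x in 𝓝 x₀, (x, -Complex.I * (β₀ * r x)) ∈ v := by
      apply hcont2.eventually_mem
      apply hv.mem_nhds
      simpa [hr1] using hb3 x₀ hx₀'
    have hne : ∀ᶠ x in 𝓝 x₀, Q x ≠ 0 := hQ.continuousAt.eventually_ne hx₀'
    apply ContinuousAt.continuousWithinAt
    have hlim : ContinuousAt (fun x => (β₀ * r x) ^ 2) x₀ := (continuousAt_const.mul hr).pow 2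
    refine hlim.congr ?_
    filter_upwards [hmem, hmem2, hne] with x h1 h2 h3
    rw [dif_pos h3]
    exact huniq x h3 (b x h3) (β₀ * r x) (hb1 x h3) (hb2 x h3) (hb3 x h3)
      (by rw [mul_pow, hb1 x₀ hx₀', hr4]) h1 h2
  · intro x hx
    simp only
    rw [dif_pos hx, ← pow_mul, hb1 x hx]

end WCO

theorem t_WCO : S_WCO := by
  intro h1 h2
  refine WCO.main (Q := Qf) ?_ h2.1 h1
  unfold Qf af gf
  fun_prop

end Pool.Agent.Q22.CN
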