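import Pool.Agent.TH144.CN.Surf
import Pool.Agent.Q22.CN.SM1
import Pool.Agent.Q22.CN.SM2
import Pool.Agent.Q22.CN.SMO
import Pool.Agent.Q22.CN.NSQ
import Pool.Agent.Q22.CN.UCO
import Pool.Agent.Q22.CN.WCO
import Pool.Agent.Q22.CN.DEN
import Pool.Agent.Q22.CN.CONN
import Pool.Agent.Q130.CN.FLD
import Pool.Agent.Q22.CN.SYM
import Pool.Agent.Q22.CN.TRD
import Pool.Agent.Q22.CN.FFD
import Pool.Agent.Q22.CN.RAT
import Pool.Agent.Q22.CN.RES
import Pool.Agent.Q22.CN.CEN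
import Pool.Agent.Q22.CN.LOC
import Pool.Agent.Q22.CN.EXI
import Pool.Agent.Q22.CN.AUT
import Pool.Agent.Q22.CN.NRM
import Pool.Agent.Q22.CN.CNT
import Pool.Agent.Q22.CN.ORY
import Pool.Agent.Q22.CN.PRO
import Pool.Agent.Q22.CN.DEX
import Pool.Agent.Q22.CN.DRE
import Pool.Agent.Q22.CN.DOR
import Pool.Agent.Q22.CN.VOR
import Pool.Agent.Q22.CN.BRM
import Pool.Agent.Q22.CN.TAN
import Pool.Agent.Q22.CN.NUM

/-!
# Project CN (helper22), MP_225e67_ag: assembly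
-/

set_option autoImplicit false

open MvPolynomial Metric Set Topology Filter
open scoped LinearAlgebra.Projectivization

namespace Pool.Agent.Q22.CN

open Pool.Agent.TH144.CN

/-- the surface is Kobayashi hyperbolic -/
lemma XX_hyperbolic : KobayashiHyperbolic XX.points :=
  Xs_hyperbolic (γ := g0) (by unfold g0; norm_num)

/-- the final statement -/
theorem final : S_FINAL := by
  obtain ⟨ω, hω⟩ := IsAlgClosed.exists_pow_nat_eq (-1 : ℂ) (n := 4) (by norm_num)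
  obtain ⟨K, i1, i2, y, s, hF⟩ := _root_.Q130.CN.FLD.t_FLD
  have hFD := t_FFD K y s hF ω hω
  refine ⟨XX, t_SMO t_SM1 t_SM2, t_CON (t_WCO t_NSQ t_UCO) (t_DEN t_SM2 t_UCO), XX_hyperbolic,
    Zs ω, K, i1, i2,
    ![1, 0, algebraMap ℂ K ω], ![1, y, y ^ 15 * s], hFD.2, hFD.1, t_TRD K y s hF, t_DEX K y s hF, ?_⟩
  intro D hD
  exact t_NUM (t_CEN t_TRD t_RES) (t_CNT t_RAT t_SYM t_LOC t_EXI) K y s hF ω hω D hD
    (t_DRE t_RAT K y s hF D hD).1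
    (t_PRO t_RAT t_TRD t_RES t_CEN t_AUT t_NRM t_CNT t_SYM t_LOC t_EXI t_ORY K y s hF)
    (t_VOR t_RAT t_SYM t_LOC t_DRE t_DOR t_CNT t_EXI K y s hF D hD)
    (t_BRM t_RAT t_SYM t_LOC t_EXI t_CNT K y s hF ω hω)
    (t_TAN t_RAT t_SYM t_LOC t_DRE t_DOR t_CNT t_EXI t_VOR K y s hF ω hω D hD)

end Pool.Agent.Q22.CN
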