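import Pool.Agent.Q22.CN.Stm

/-! CEN: centres of the places of the Fermat curve. -/

set_option autoImplicit false

namespace Pool.Agent.Q22.CN

open Pool.Agent.TH144.CN MvPolynomial Metric Set Topology Filter

namespace CEN

variable {K : Type} [Field K] [Algebra ℂ K] (P : Place K)

lemma ord_one : P.ord 1 = 0 := by
  have := P.ord_const (c := 1) one_ne_zero
  rwa [map_one] at this

lemma ord_neg (f : K) : P.ord (-f) = P.ord f := by
  by_cases hf : f = 0
  · rw [hf, neg_zero]
  · have h1 : P.ord (-1 : K) = 0 := by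
      have := P.ord_const (c := -1) (neg_ne_zero.2 one_ne_zero)
      rwa [map_neg, map_one] at this
    have h2 := P.ord_mul (f := (-1 : K)) (g := f) (neg_ne_zero.2 one_ne_zero) hf
    rw [h1, zero_add] at h2
    rw [← h2]
    congr 1
    ring

lemma ord_pow (f : K) (hf : f ≠ 0) (n : ℕ) : P.ord (f ^ n) = n * P.ord f := by
  induction n with
  | zero => rw [pow_zero, ord_one]; simp
  | succ n ih =>
    rw [pow_succ, P.ord_mul (pow_ne_zero n hf) hf, ih]
    push_cast
    ring

lemma ord_inv (f : K) (hf : f ≠ 0) : P.ord f⁻¹ = -P.ord f := by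
  have h := P.ord_mul hf (inv_ne_zero hf)
  rw [mul_inv_cancel₀ hf, ord_one] at h
  linarith

/-- nonnegative order -/
def V0 (f : K) : Prop := f = 0 ∨ 0 ≤ P.ord f

/-- positive order -/
def V1 (f : K) : Prop := f = 0 ∨ 0 < P.ord f

lemma V0_add {f g : K} (hf : V0 P f) (hg : V0 P g) : V0 P (f + g) := by
  by_cases h1 : f = 0
  · rwa [h1, zero_add]
  by_cases h2 : g = 0
  · rwa [h2, add_zero]
  by_cases h3 : f + g = 0
  · exact Or.inl h3
  have h4 := P.ord_add h1 h2 h3
  exact Or.inr ((le_min (hf.resolve_left h1) (hg.resolve_left h2)).trans h4)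

lemma V1_add {f g : K} (hf : V1 P f) (hg : V1 P g) : V1 P (f + g) := by
  by_cases h1 : f = 0
  · rwa [h1, zero_add]
  by_cases h2 : g = 0
  · rwa [h2, add_zero]
  by_cases h3 : f + g = 0
  · exact Or.inl h3
  have h4 := P.ord_add h1 h2 h3
  exact Or.inr ((lt_min (hf.resolve_left h1) (hg.resolve_left h2)).trans_le h4)

lemma V0_mul {f g : K} (hf : V0 P f) (hg : V0 P g) : V0 P (f * g) := by
  by_cases h1 : f = 0
  · exact Or.inl (by rw [h1, zero_mul])
  by_cases h2 : g = 0
  · exact Or.inl (by rw [h2, mul_zero])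
  right
  rw [P.ord_mul h1 h2]
  exact add_nonneg (hf.resolve_left h1) (hg.resolve_left h2)

lemma V1_mul {f g : K} (hf : V1 P f) (hg : V0 P g) : V1 P (f * g) := by
  by_cases h1 : f = 0
  · exact Or.inl (by rw [h1, zero_mul])
  by_cases h2 : g = 0
  · exact Or.inl (by rw [h2, mul_zero])
  right
  rw [P.ord_mul h1 h2]
  exact add_pos_of_pos_of_nonneg (hf.resolve_left h1) (hg.resolve_left h2)

lemma V1_neg {f : K} (hf : V1 P f) : V1 P (-f) := by
  rcases hf with h | h
  · exact Or.inl (by rw [h, neg_zero])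
  · exact Or.inr (by rwa [ord_neg])

lemma V0_const (c : ℂ) : V0 P (algebraMap ℂ K c) := by
  by_cases h : c = 0
  · exact Or.inl (by rw [h, map_zero])
  · exact Or.inr (P.ord_const h).ge

lemma V0_one : V0 P (1 : K) := Or.inr (ord_one P).ge

lemma V0_pow {f : K} (hf : V0 P f) (n : ℕ) : V0 P (f ^ n) := by
  induction n with
  | zero => rw [pow_zero]; exact V0_one P
  | succ n ih => rw [pow_succ]; exact V0_mul P ih hf

lemma V0_sum (s : Finset ℕ) (F : ℕ → K) (h : ∀ i ∈ s, V0 P (F i)) : V0 P (∑ i ∈ s, F i) := by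
  classical
  induction s using Finset.induction_on with
  | empty => exact Or.inl Finset.sum_empty
  | insert a s ha ih =>
    rw [Finset.sum_insert ha]
    exact V0_add P (h a (Finset.mem_insert_self _ _))
      (ih fun i hi => h i (Finset.mem_insert_of_mem hi))

lemma V1_pow_sub {f : K} (hf : V0 P f) (c : ℂ) (h : V1 P (f - algebraMap ℂ K c)) (n : ℕ) :
    V1 P (f ^ n - algebraMap ℂ K c ^ n) := by
  rw [← (Commute.all f (algebraMap ℂ K c)).geom_sum₂_mul, mul_comm]
  refine V1_mul P h (V0_sum P _ _ fun i _ => ?_)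
  exact V0_mul P (V0_pow P hf _) (V0_pow P (V0_const P c) _)

/-- the value of the constant -/
lemma const_zero {c : ℂ} (h : V1 P (algebraMap ℂ K c)) : c = 0 := by
  by_contra hc
  rcases h with h | h
  · exact hc ((map_eq_zero _).1 h)
  · rw [P.ord_const hc] at h
    exact lt_irrefl _ h

/-- from `w ^ 16 + u ^ 16 + 1 = 0` -/
lemma V0_of_eq {w u : K} (hw : V0 P w) (he : w ^ 16 + u ^ 16 + 1 = 0) : V0 P u := by
  by_cases hu : u = 0
  · exact Or.inl hu
  right
  have h1 : V0 P (u ^ 16) := by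
    have h2 : u ^ 16 = (-1 : K) * (w ^ 16 + 1) := by linear_combination he
    rw [h2]
    refine V0_mul P ?_ (V0_add P (V0_pow P hw 16) (V0_one P))
    right
    rw [ord_neg, ord_one]
  have h3 := h1.resolve_left (pow_ne_zero 16 hu)
  rw [ord_pow P u hu] at h3
  push_cast at h3
  linarith

end CEN

open CEN in
theorem t_CEN : S_CEN := by
  intro hTRD hRES K _ _ y s hFK P
  obtain ⟨eqn, gen, van⟩ := hFK
  have hFK : FK K y s := ⟨eqn, gen, van⟩
  have hroot : ∀ a : ℂ, ∃ z : ℂ, z ^ 16 = a := fun a =>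
    IsAlgClosed.exists_pow_nat_eq a (by norm_num)
  have hy : ∀ c : ℂ, y ≠ algebraMap ℂ K c := by
    intro c hc
    have h1 : aeval ![y, s] (X 0 - C c : MvPolynomial (Fin 2) ℂ) = 0 := by
      rw [map_sub, aeval_X, aeval_C, Matrix.cons_val_zero, hc, sub_self]
    obtain ⟨q, hq⟩ := hroot (-1 - (c + 1) ^ 16)
    have h2 := (van _).1 h1 (c + 1) q (by rw [hq]; ring)
    rw [map_sub, eval_X, eval_C, Matrix.cons_val_zero] at h2
    have h3 : (1 : ℂ) = 0 := by linear_combination h2
    exact one_ne_zero h3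
  have hs : ∀ c : ℂ, s ≠ algebraMap ℂ K c := by
    intro c hc
    have h1 : aeval ![y, s] (X 1 - C c : MvPolynomial (Fin 2) ℂ) = 0 := by
      rw [map_sub, aeval_X, aeval_C, Matrix.cons_val_one, Matrix.cons_val_fin_one, hc, sub_self]
    obtain ⟨p, hp⟩ := hroot (-1 - (c + 1) ^ 16)
    have h2 := (van _).1 h1 p (c + 1) (by rw [hp]; ring)
    rw [map_sub, eval_X, eval_C, Matrix.cons_val_one, Matrix.cons_val_fin_one] at h2
    have h3 : (1 : ℂ) = 0 := by linear_combination h2
    exact one_ne_zero h3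
  have hy0 : y ≠ 0 := by
    intro h
    exact hy 0 (by rw [h, map_zero])
  have hu : ∀ c : ℂ, s * y⁻¹ ≠ algebraMap ℂ K c := by
    intro c hc
    have h1 : aeval ![y, s] (X 1 - C c * X 0 : MvPolynomial (Fin 2) ℂ) = 0 := by
      rw [map_sub, map_mul, aeval_X, aeval_X, aeval_C, Matrix.cons_val_one,
        Matrix.cons_val_fin_one, Matrix.cons_val_zero, ← hc]
      field_simp
      ring
    obtain ⟨q, hq⟩ := hroot (-1)
    have h2 := (van _).1 h1 0 q (by rw [hq]; ring)
    rw [map_sub, map_mul, eval_X, eval_X, eval_C, Matrix.cons_val_one, Matrix.cons_val_fin_one,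
      Matrix.cons_val_zero, mul_zero, sub_zero] at h2
    rw [h2] at hq
    norm_num at hq
  by_cases hc : 0 ≤ P.ord y
  · left
    have v0y : V0 P y := Or.inr hc
    have v0s : V0 P s := V0_of_eq P v0y eqn
    have hs0 : s ≠ 0 := by
      intro h
      exact hs 0 (by rw [h, map_zero])
    obtain ⟨p, hp⟩ := hRES hTRD K y s hFK P y hc
    obtain ⟨q, hq⟩ := hRES hTRD K y s hFK P s (v0s.resolve_left hs0)
    have hp := hp.resolve_left (hy p)
    have hq := hq.resolve_left (hs q)
    refine ⟨p, q, ?_, hp, hq⟩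
    apply const_zero P
    have h1 := V1_pow_sub P v0y p (Or.inr hp) 16
    have h2 := V1_pow_sub P v0s q (Or.inr hq) 16
    have h3 := V1_neg P (V1_add P h1 h2)
    have h4 : -(y ^ 16 - algebraMap ℂ K p ^ 16 + (s ^ 16 - algebraMap ℂ K q ^ 16)) =
        algebraMap ℂ K (p ^ 16 + q ^ 16 + 1) := by
      rw [map_add, map_add, map_pow, map_pow, map_one]
      linear_combination -eqn
    rwa [h4] at h3
  · right
    push Not at hc
    have hw : 0 < P.ord y⁻¹ := by
      rw [ord_inv P y hy0]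
      linarith
    have v0w : V0 P y⁻¹ := Or.inr hw.le
    have he : y⁻¹ ^ 16 + (s * y⁻¹) ^ 16 + 1 = 0 := by
      have h1 : y⁻¹ * y = 1 := inv_mul_cancel₀ hy0
      have h2 : (y⁻¹ * y) ^ 16 = 1 := by rw [h1, one_pow]
      linear_combination y⁻¹ ^ 16 * eqn - h2
    have v0u : V0 P (s * y⁻¹) := V0_of_eq P v0w he
    have hu0 : s * y⁻¹ ≠ 0 := by
      intro h
      exact hu 0 (by rw [h, map_zero])
    obtain ⟨v, hv⟩ := hRES hTRD K y s hFK P (s * y⁻¹) (v0u.resolve_left hu0)
    have hv := hv.resolve_left (hu v)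
    refine ⟨v, ?_, ?_, hv⟩
    · apply const_zero P
      have h1 := V1_pow_sub P v0u v (Or.inr hv) 16
      have h2 : V1 P (y⁻¹ ^ 16) := by
        have h5 : y⁻¹ ^ 16 = y⁻¹ * y⁻¹ ^ 15 := by ring
        rw [h5]
        exact V1_mul P (Or.inr hw) (V0_pow P v0w 15)
      have h3 := V1_neg P (V1_add P h1 h2)
      have h4 : -((s * y⁻¹) ^ 16 - algebraMap ℂ K v ^ 16 + y⁻¹ ^ 16) =
          algebraMap ℂ K (v ^ 16 + 1) := by
        rw [map_add, map_pow, map_one]
        linear_combination -he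
      rwa [h4] at h3
    · rw [map_zero, sub_zero]
      exact hw

end Pool.Agent.Q22.CN
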